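import Pool.Graph.R_seed8.W515.SLP.Ann
import Pool.Graph.R_seed8.W515.SLP.Wron
import Pool.Graph.R_seed8.TH61.SL.Bin
import Pool.Graph.R_seed8.W695.SLPf
import Pool.Graph.R_seed8.TH130.CI.Bc
import Pool.Graph.R_seed8.Y204.LF.Unmixed
import Pool.Graph.R_seed8.Y204.LF.Avoid

/-!
Polynomials in `t_1, …, t_ν` over `K[x_1, …, x_ν]`; the generic linear form `ℓ = ∑ t_k x_k`.
(The definitions and lemmas of the library for four variables, in any number of variables.)
-/

namespace Pool.Agent.H868.TS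

set_option maxHeartbeats 400000
set_option linter.unusedSectionVars false

open MvPolynomial
open Pool.Agent.W515.SLP (Deg AnnP annP_of_homog)
open Pool.Agent.TH61.SL (hc comp_mul hc_zero hc_hom comp_self comp_ne)

/-- `K[x]` (or `K[t]`) -/
abbrev Rv (ν : ℕ) (K : Type*) [Field K] := MvPolynomial (Fin ν) K

/-- `K[x][t]` -/
abbrev RTv (ν : ℕ) (K : Type*) [Field K] := MvPolynomial (Fin ν) (MvPolynomial (Fin ν) K)

variable {ν : ℕ}

section defs

variable {K : Type*} [Field K]

/-- the linear form with given coefficients -/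
noncomputable def lf (p : Fin ν → K) : Rv ν K := ∑ j, C (p j) * X j

lemma lf_hom (p : Fin ν → K) : (lf p).IsHomogeneous 1 :=
  IsHomogeneous.sum _ _ _ fun j _ => by
    have := (isHomogeneous_C (Fin ν) (p j)).mul (isHomogeneous_X K j)
    rwa [zero_add] at this

/-- the value at `t` -/
noncomputable def evt (t : Fin ν → K) : RTv ν K →+* Rv ν K := eval (fun k => C (t k))

/-- the value at `x` -/
noncomputable def evx (x : Fin ν → K) : RTv ν K →+* Rv ν K := map (eval x)

/-- the inclusion of `K[t]` -/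
noncomputable def tt : Rv ν K →+* RTv ν K := map C

variable (ν K) in
/-- the generic linear form -/
noncomputable def gl : RTv ν K := ∑ k, X k * C (X k)

/-- all coefficients lie in `I` -/
def InI (I : Ideal (Rv ν K)) (P : RTv ν K) : Prop := ∀ m, coeff m P ∈ I

lemma evt_C (t : Fin ν → K) (p : Rv ν K) : evt t (C p) = p := eval_C _

lemma evt_X (t : Fin ν → K) (k : Fin ν) : evt t (X k) = C (t k) := eval_X _

lemma evx_C (x : Fin ν → K) (p : Rv ν K) : evx x (C p) = C (eval x p) := map_C _ _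

lemma evx_X (x : Fin ν → K) (k : Fin ν) : evx x (X k) = X k := map_X _ _

lemma evx_pderiv (x : Fin ν → K) (k : Fin ν) (P : RTv ν K) :
    evx x (pderiv k P) = pderiv k (evx x P) := (pderiv_map).symm

lemma evx_gl (x : Fin ν → K) : evx x (gl ν K) = lf x := by
  rw [gl, lf, map_sum]
  refine Finset.sum_congr rfl fun k _ => ?_
  rw [map_mul, evx_C, evx_X, eval_X, mul_comm]

lemma evt_gl (t : Fin ν → K) : evt t (gl ν K) = lf t := by
  rw [gl, lf, map_sum]
  refine Finset.sum_congr rfl fun k _ => ?_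
  rw [map_mul, evt_C, evt_X]

lemma evx_tt (x : Fin ν → K) (q : Rv ν K) : evx x (tt q) = q := by
  rw [evx, tt, map_map]
  have : (eval x).comp (C : K →+* Rv ν K) = RingHom.id K := by
    ext a
    simp
  rw [this, MvPolynomial.map_id]

lemma tt_C (a : K) : (tt (C a) : RTv ν K) = C (C a) := map_C _ _

lemma tt_X (k : Fin ν) : (tt (X k) : RTv ν K) = X k := map_X _ _

lemma tt_pderiv (k : Fin ν) (q : Rv ν K) : pderiv k (tt q) = tt (pderiv k q) := pderiv_map

lemma evt_tt (t : Fin ν → K) (q : Rv ν K) : evt t (tt q) = C (eval t q) := by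
  induction q using MvPolynomial.induction_on with
  | C a => rw [tt_C, evt_C, eval_C]
  | add p q hp hq => rw [map_add, map_add, hp, hq, map_add, C_add]
  | mul_X p k hp => rw [map_mul, map_mul, hp, tt_X, evt_X, map_mul, eval_X, C_mul]

lemma pderiv_gl (k : Fin ν) : pderiv k (gl ν K) = C (X k) := by
  classical
  rw [gl, map_sum, Finset.sum_eq_single k]
  · rw [Derivation.leibniz, pderiv_C, pderiv_X_self]; simp
  · intro j _ hj
    rw [Derivation.leibniz, pderiv_C, pderiv_X_of_ne hj]; simp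
  · intro h; exact absurd (Finset.mem_univ k) h

lemma gl_hom : (gl ν K).IsHomogeneous 1 := by
  refine IsHomogeneous.sum _ _ _ fun k _ => ?_
  exact (isHomogeneous_X _ k).mul (isHomogeneous_C _ _)

lemma eval_evx (x t : Fin ν → K) (P : RTv ν K) : eval t (evx x P) = eval x (evt t P) := by
  induction P using MvPolynomial.induction_on with
  | C a => rw [evx_C, evt_C, eval_C]
  | add p q hp hq => rw [map_add, map_add, hp, hq, map_add, map_add]
  | mul_X p k hp => rw [map_mul, map_mul, hp, evx_X, eval_X, map_mul, map_mul, evt_X, eval_C]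

end defs

section xh

variable {K : Type*} [Field K]

/-- all coefficients are forms of degree `n` -/
def XH (n : ℕ) (P : RTv ν K) : Prop := ∀ m, (coeff m P).IsHomogeneous n

lemma XH.add {n : ℕ} {P Q : RTv ν K} (hP : XH n P) (hQ : XH n Q) : XH n (P + Q) := fun m => by
  rw [coeff_add]; exact (hP m).add (hQ m)

lemma XH.neg {n : ℕ} {P : RTv ν K} (hP : XH n P) : XH n (-P) := fun m => by
  rw [coeff_neg]; exact (hP m).neg

lemma XH.sub {n : ℕ} {P Q : RTv ν K} (hP : XH n P) (hQ : XH n Q) : XH n (P - Q) := fun m => by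
  rw [coeff_sub]; exact (hP m).sub (hQ m)

lemma XH.zero {n : ℕ} : XH n (0 : RTv ν K) := fun m => by
  rw [coeff_zero]; exact isHomogeneous_zero _ _ _

lemma XH.mul {a b : ℕ} {P Q : RTv ν K} (hP : XH a P) (hQ : XH b Q) : XH (a + b) (P * Q) := fun m => by
  classical
  rw [coeff_mul]
  exact IsHomogeneous.sum _ _ _ fun x _ => (hP _).mul (hQ _)

lemma XH.C {n : ℕ} {p : Rv ν K} (hp : p.IsHomogeneous n) : XH n (C p : RTv ν K) := fun m => by
  classical
  rw [coeff_C]
  split_ifs
  · exact hp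
  · exact isHomogeneous_zero _ _ _

lemma XH.X (k : Fin ν) : XH 0 (X k : RTv ν K) := fun m => by
  classical
  rw [coeff_X']
  split_ifs
  · exact isHomogeneous_one _ _
  · exact isHomogeneous_zero _ _ _

lemma XH.natCast (n : ℕ) : XH 0 (n : RTv ν K) := fun m => by
  have : (n : RTv ν K) = MvPolynomial.C (n : Rv ν K) := by simp
  rw [this]
  refine XH.C ?_ m
  have h : (n : Rv ν K) = MvPolynomial.C (n : K) := by simp
  rw [h]
  exact isHomogeneous_C _ _

lemma XH.sum {n : ℕ} {ι : Type*} (s : Finset ι) (P : ι → RTv ν K) (h : ∀ i ∈ s, XH n (P i)) :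
    XH n (∑ i ∈ s, P i) := fun m => by
  rw [coeff_sum]
  exact IsHomogeneous.sum _ _ _ fun x hx => h x hx m

lemma XH.cast {a b : ℕ} {P : RTv ν K} (h : XH a P) (e : a = b) : XH b P := e ▸ h

lemma XH.gl : XH 1 (gl ν K) := by
  refine XH.sum _ _ fun k _ => ?_
  have := (XH.X (K := K) k).mul (XH.C (isHomogeneous_X K k))
  rwa [Nat.zero_add] at this

lemma XH.pderiv {n : ℕ} {P : RTv ν K} (hP : XH n P) (k : Fin ν) : XH n (pderiv k P) := fun m => by
  rw [coeff_pderiv]
  have h : ((m k : Rv ν K) + 1).IsHomogeneous 0 := by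
    have h1 : ((m k : Rv ν K) + 1) = MvPolynomial.C ((m k : K) + 1) := by simp
    rw [h1]
    exact isHomogeneous_C _ _
  have := (hP (m + Finsupp.single k 1)).mul h
  rwa [Nat.add_zero] at this

lemma XH.tt (q : Rv ν K) : XH 0 (tt q) := fun m => by
  rw [TS.tt, coeff_map]
  exact isHomogeneous_C _ _

section InI

variable {I : Ideal (Rv ν K)} {P Q : RTv ν K}

lemma inI_iff : InI I P ↔ MvPolynomial.map (Ideal.Quotient.mk I) P = 0 := by
  rw [MvPolynomial.ext_iff]
  refine forall_congr' fun m => ?_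
  rw [coeff_map, coeff_zero, Ideal.Quotient.eq_zero_iff_mem]

lemma InI.add (hP : InI I P) (hQ : InI I Q) : InI I (P + Q) := fun m => by
  rw [coeff_add]; exact I.add_mem (hP m) (hQ m)

lemma InI.sub (hP : InI I P) (hQ : InI I Q) : InI I (P - Q) := fun m => by
  rw [coeff_sub]; exact I.sub_mem (hP m) (hQ m)

lemma InI.neg (hP : InI I P) : InI I (-P) := fun m => by
  rw [coeff_neg]; exact I.neg_mem (hP m)

lemma InI.zero : InI I (0 : RTv ν K) := fun m => by
  rw [coeff_zero]; exact I.zero_mem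

lemma InI.mul_left (Q : RTv ν K) (hP : InI I P) : InI I (Q * P) := by
  rw [inI_iff] at hP ⊢
  rw [map_mul, hP, mul_zero]

lemma InI.mul_right (Q : RTv ν K) (hP : InI I P) : InI I (P * Q) := by
  rw [mul_comm]
  exact hP.mul_left Q

lemma InI.sum {ι : Type*} (s : Finset ι) (f : ι → RTv ν K) (h : ∀ i ∈ s, InI I (f i)) :
    InI I (∑ i ∈ s, f i) := fun m => by
  rw [coeff_sum]
  exact I.sum_mem fun i hi => h i hi m

lemma InI.pderiv (hP : InI I P) (k : Fin ν) : InI I (pderiv k P) := fun m => by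
  rw [coeff_pderiv]
  exact I.mul_mem_right _ (hP _)

lemma inI_C {p : Rv ν K} : InI I (MvPolynomial.C p : RTv ν K) ↔ p ∈ I := by
  classical
  constructor
  · intro h
    have := h 0
    rwa [coeff_zero_C] at this
  · intro h m
    rw [coeff_C]
    split_ifs
    · exact h
    · exact I.zero_mem

/-- prime ideals extend to prime ideals -/
lemma InI.or [hI : I.IsPrime] (h : InI I (P * Q)) : InI I P ∨ InI I Q := by
  rw [inI_iff, inI_iff]
  rw [inI_iff, map_mul] at h
  exact mul_eq_zero.1 h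

lemma InI.evt (hP : InI I P) (t : Fin ν → K) : TS.evt t P ∈ I := by
  rw [TS.evt, eval_eq']
  exact Ideal.sum_mem _ fun m _ => Ideal.mul_mem_right _ _ (hP m)

end InI

/-- a polynomial with given coefficients -/
lemma exists_coeff (S : Finset (Fin ν →₀ ℕ)) (κ : (Fin ν →₀ ℕ) → Rv ν K) :
    ∃ P : RTv ν K, ∀ m, coeff m P = if m ∈ S then κ m else 0 := by
  classical
  refine ⟨∑ m ∈ S, monomial m (κ m), fun m => ?_⟩
  rw [coeff_sum]
  simp only [coeff_monomial]
  rw [Finset.sum_ite_eq']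

/-- coefficientwise choice -/
lemma exists_lift {S : Finset (Fin ν →₀ ℕ)} {n e : ℕ} {Pr : (Fin ν →₀ ℕ) → Rv ν K → Prop}
    (hS : ∀ m ∈ S, m.degree = e) (h : ∀ m ∈ S, ∃ κ : Rv ν K, κ.IsHomogeneous n ∧ Pr m κ)
    (h0 : ∀ m ∉ S, Pr m 0) :
    ∃ P : RTv ν K, P.IsHomogeneous e ∧ XH n P ∧ ∀ m, Pr m (coeff m P) := by
  classical
  have h' : ∀ m : Fin ν →₀ ℕ, ∃ κ : Rv ν K, m ∈ S → (κ.IsHomogeneous n ∧ Pr m κ) := by
    intro m
    by_cases hm : m ∈ S
    · obtain ⟨κ, hκ⟩ := h m hm
      exact ⟨κ, fun _ => hκ⟩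
    · exact ⟨0, fun h => absurd h hm⟩
  choose κ hκ using h'
  obtain ⟨P, hP⟩ := exists_coeff S κ
  refine ⟨P, ?_, ?_, ?_⟩
  · intro m hm
    rw [hP] at hm
    split_ifs at hm with h1
    · have h2 := hS m h1
      rw [← h2]
      exact (Finsupp.degree_eq_weight_one (R := ℕ) ▸ rfl)
    · exact absurd rfl hm
  · intro m
    rw [hP]
    split_ifs with h1
    · exact (hκ m h1).1
    · exact isHomogeneous_zero _ _ _
  · intro m
    rw [hP]
    split_ifs with h1
    · exact (hκ m h1).2
    · exact h0 m h1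

lemma degree_of_mem_support {P : RTv ν K} {e : ℕ} (hP : P.IsHomogeneous e) {m : Fin ν →₀ ℕ}
    (hm : m ∈ P.support) : m.degree = e := by
  by_contra h
  exact (mem_support_iff.1 hm) (hP.coeff_eq_zero h)

lemma exists_lf {p : Rv ν K} (hp : p.IsHomogeneous 1) : ∃ q : Fin ν → K, p = lf q := by
  have h2 : p ∈ homogeneousSubmodule (Fin ν) K 1 := hp
  rw [homogeneousSubmodule_one_eq_span_X, Submodule.mem_span_range_iff_exists_fun] at h2
  obtain ⟨a, ha⟩ := h2
  refine ⟨a, ?_⟩
  rw [← ha, lf]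
  exact Finset.sum_congr rfl fun i _ => smul_eq_C_mul _ _


end xh
namespace Mc

variable {K : Type*} [Field K]

/-- the monomials of `Y` whose coefficients are not in `I` -/
noncomputable def bad (I : Ideal (Rv ν K)) (Y : RTv ν K) : Finset (Fin ν →₀ ℕ) := by
  classical exact Y.support.filter (fun m => coeff m Y ∉ I)

lemma mem_bad (I : Ideal (Rv ν K)) (Y : RTv ν K) (m : Fin ν →₀ ℕ) :
    m ∈ bad I Y ↔ coeff m Y ∉ I := by
  classical
  rw [bad, Finset.mem_filter, mem_support_iff]
  constructor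
  · exact fun h => h.2
  · intro h
    refine ⟨?_, h⟩
    intro h0
    exact h (h0 ▸ I.zero_mem)

lemma coeff_gl_mul (Y : RTv ν K) (m : Fin ν →₀ ℕ) :
    coeff m (gl ν K * Y) = ∑ k, X k * (if k ∈ m.support then coeff (m - Finsupp.single k 1) Y else 0) := by
  classical
  rw [gl, Finset.sum_mul, coeff_sum]
  refine Finset.sum_congr rfl fun k _ => ?_
  rw [show (X k : RTv ν K) * C (X k) * Y = C (X k) * (X k * Y) by ring, coeff_C_mul, coeff_X_mul']

lemma key (I : Ideal (Rv ν K)) (Y : RTv ν K) (h : ∀ m, coeff m (gl ν K * Y) ∈ I) (j : Fin ν)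
    (m : Fin ν →₀ ℕ) (hmax : ∀ m' ∈ bad I Y, m' j ≤ m j) : X j * coeff m Y ∈ I := by
  classical
  have h1 := h (m + Finsupp.single j 1)
  rw [coeff_gl_mul, ← Finset.add_sum_erase _ _ (Finset.mem_univ j)] at h1
  have h2 : ∑ k ∈ Finset.univ.erase j, (X k : Rv ν K) * (if k ∈ (m + Finsupp.single j 1).support then
      coeff (m + Finsupp.single j 1 - Finsupp.single k 1) Y else 0) ∈ I := by
    refine I.sum_mem fun k hk => ?_
    have hkj : k ≠ j := (Finset.mem_erase.mp hk).1
    split_ifs with hs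
    · refine I.mul_mem_left _ ?_
      by_contra hc
      have := hmax _ ((mem_bad I Y _).mpr hc)
      rw [Finsupp.tsub_apply, Finsupp.add_apply, Finsupp.single_eq_same,
        Finsupp.single_eq_of_ne hkj.symm] at this
      omega
    · rw [mul_zero]; exact I.zero_mem
  have h3 := (I.add_mem_iff_left h2).mp h1
  rw [if_pos] at h3
  · rwa [add_tsub_cancel_right] at h3
  · rw [Finsupp.mem_support_iff, Finsupp.add_apply, Finsupp.single_eq_same]
    omega

end Mc

open Mc

theorem mc {K : Type*} [Field K] {I : Ideal (Rv ν K)} (hI : ∀ s : Rv ν K, (∀ j, X j * s ∈ I) → s ∈ I) :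
    ∀ Y : RTv ν K, (∀ m, coeff m (gl ν K * Y) ∈ I) → ∀ m, coeff m Y ∈ I := by
  classical
  have main : ∀ n : ℕ, ∀ Y : RTv ν K, (bad I Y).card ≤ n → (∀ m, coeff m (gl ν K * Y) ∈ I) →
      ∀ m, coeff m Y ∈ I := by
    intro n
    induction n with
    | zero =>
      intro Y hc _ m
      by_contra hm
      have := (mem_bad I Y m).mpr hm
      rw [Nat.le_zero, Finset.card_eq_zero] at hc
      rw [hc] at this
      exact absurd this (Finset.notMem_empty _)
    | succ n ih =>
      intro Y hc hY m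
      by_contra hm
      have hne : (bad I Y).Nonempty := ⟨m, (mem_bad I Y m).mpr hm⟩
      refine hm (hI _ fun j => ?_)
      obtain ⟨m₀, hm₀, hmax⟩ := Finset.exists_max_image (bad I Y) (fun m => m j) hne
      have hk := key I Y hY j m₀ hmax
      have h1 : ∀ m, coeff m (C (X j) * Y) ∈ I := by
        refine ih (C (X j) * Y) ?_ ?_
        · have hsub : bad I (C (X j) * Y) ⊆ (bad I Y).erase m₀ := by
            intro m' hm'
            rw [mem_bad, coeff_C_mul] at hm'
            rw [Finset.mem_erase, mem_bad]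
            constructor
            · rintro rfl
              exact hm' hk
            · intro hc'
              exact hm' (I.mul_mem_left _ hc')
          have := Finset.card_le_card hsub
          rw [Finset.card_erase_of_mem hm₀] at this
          omega
        · intro m'
          rw [show gl ν K * (C (X j) * Y) = C (X j) * (gl ν K * Y) by ring, coeff_C_mul]
          exact I.mul_mem_left _ (hY m')
      have := h1 m
      rwa [coeff_C_mul] at this
  intro Y hY
  exact main _ Y le_rfl hY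


section dx

variable {K : Type*} [Field K]

/-- multiplication by `A` raises degrees from `i` to `b` -/
def DX (i b : ℕ) (A : RTv ν K) : Prop := A = 0 ∨ ∃ n, i + n = b ∧ XH n A

lemma DX.pderiv {i b : ℕ} {A : RTv ν K} (h : DX i b A) (k : Fin ν) : DX i b (pderiv k A) := by
  rcases h with rfl | ⟨n, h1, h2⟩
  · left; exact map_zero _
  · right; exact ⟨n, h1, XH.pderiv h2 k⟩

lemma DX.mul {i b a : ℕ} {A P : RTv ν K} (h : DX i b A) (hP : XH (i + a) P) : XH (b + a) (P * A) := by
  rcases h with rfl | ⟨n, h1, h2⟩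
  · rw [mul_zero]; exact XH.zero
  · exact (hP.mul h2).cast (by omega)

lemma evt_mem {I : Ideal (Rv ν K)} {Q : RTv ν K} (h : ∀ m, coeff m Q ∈ I) (t : Fin ν → K) :
    evt t Q ∈ I := by
  rw [evt, eval_eq']
  exact Ideal.sum_mem _ fun m _ => Ideal.mul_mem_right _ _ (h m)

lemma evt_XH {n : ℕ} {Q : RTv ν K} (h : XH n Q) (t : Fin ν → K) : (evt t Q).IsHomogeneous n := by
  rw [evt, eval_eq']
  refine IsHomogeneous.sum _ _ _ fun m _ => ?_
  have h1 : (∏ k, (C (t k) : Rv ν K) ^ m k) = C (∏ k, t k ^ m k) := by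
    rw [map_prod]
    simp only [map_pow]
  rw [h1]
  have := (h m).mul (isHomogeneous_C (Fin ν) (∏ k, t k ^ m k))
  rwa [add_zero] at this


end dx

section Ker

variable {K : Type*} [Field K]

variable (ν K) in
/-- forms of degree `n` -/
abbrev H (n : ℕ) : Submodule K (Rv ν K) := homogeneousSubmodule (Fin ν) K n

/-- the pairing of forms -/
noncomputable def Bp (φ : Rv ν K →ₗ[K] K) (m n : ℕ) : H ν K m →ₗ[K] H ν K n →ₗ[K] K :=
  ((LinearMap.mul K (Rv ν K)).compr₂ φ).domRestrict₁₂ (H ν K m) (H ν K n)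

@[simp] lemma Bp_apply (φ : Rv ν K →ₗ[K] K) (m n : ℕ) (u : H ν K m) (v : H ν K n) :
    Bp φ m n u v = φ (u * v) := rfl

/-- apply a functional to the coefficients -/
noncomputable def Ph (φ : Rv ν K →ₗ[K] K) (P : RTv ν K) : Rv ν K :=
  ∑ m ∈ P.support, monomial m (φ (coeff m P))

lemma coeff_Ph (φ : Rv ν K →ₗ[K] K) (P : RTv ν K) (m : Fin ν →₀ ℕ) :
    coeff m (Ph φ P) = φ (coeff m P) := by
  classical
  rw [Ph, coeff_sum]
  simp only [coeff_monomial]
  rw [Finset.sum_ite_eq']
  split_ifs with h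
  · rfl
  · rw [notMem_support_iff.mp h, map_zero]

lemma Ph_add (φ : Rv ν K →ₗ[K] K) (P Q : RTv ν K) : Ph φ (P + Q) = Ph φ P + Ph φ Q := by
  ext m
  rw [coeff_Ph, coeff_add, coeff_add, map_add, coeff_Ph, coeff_Ph]

lemma Ph_zero (φ : Rv ν K →ₗ[K] K) : Ph φ 0 = 0 := by
  ext m
  rw [coeff_Ph, coeff_zero, map_zero, coeff_zero]

lemma Ph_sum (φ : Rv ν K →ₗ[K] K) {ι : Type*} (s : Finset ι) (f : ι → RTv ν K) :
    Ph φ (∑ i ∈ s, f i) = ∑ i ∈ s, Ph φ (f i) := by
  classical
  induction s using Finset.induction_on with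
  | empty => simp [Ph_zero]
  | insert a s ha ih => rw [Finset.sum_insert ha, Finset.sum_insert ha, Ph_add, ih]

lemma Ph_tt_mul (φ : Rv ν K →ₗ[K] K) (q : Rv ν K) (P : RTv ν K) : Ph φ (tt q * P) = q * Ph φ P := by
  classical
  ext m
  rw [coeff_Ph, coeff_mul, coeff_mul, map_sum]
  refine Finset.sum_congr rfl fun x _ => ?_
  rw [coeff_Ph, tt, coeff_map, ← smul_eq_C_mul, map_smul, smul_eq_mul]

lemma Ph_monomial (φ : Rv ν K →ₗ[K] K) (m : Fin ν →₀ ℕ) (a : Rv ν K) :
    Ph φ (monomial m a) = monomial m (φ a) := by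
  classical
  ext n
  rw [coeff_Ph, coeff_monomial, coeff_monomial]
  split_ifs <;> simp

lemma eval_Ph (φ : Rv ν K →ₗ[K] K) (t : Fin ν → K) (P : RTv ν K) :
    eval t (Ph φ P) = φ (evt t P) := by
  induction P using MvPolynomial.induction_on' with
  | monomial m a =>
    rw [Ph_monomial, eval_monomial, evt, eval_monomial]
    have h : (m.prod fun (n : Fin ν) (e : ℕ) => (C (t n) : Rv ν K) ^ e)
        = C (m.prod fun (n : Fin ν) (e : ℕ) => (t n) ^ e) := by
      rw [Finsupp.prod, Finsupp.prod, map_prod]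
      simp only [map_pow]
    rw [h, mul_comm a, ← smul_eq_C_mul, map_smul, smul_eq_mul, mul_comm]
  | add p q hp hq => rw [Ph_add, map_add, hp, hq, map_add, map_add]

lemma Ph_hom (φ : Rv ν K →ₗ[K] K) {P : RTv ν K} {n : ℕ} (h : P.IsHomogeneous n) :
    (Ph φ P).IsHomogeneous n := by
  intro m hm
  rw [coeff_Ph] at hm
  apply h
  intro h0
  rw [h0, map_zero] at hm
  exact hm rfl

/-- homogeneity in `x` -/
def BH (P : RTv ν K) (j : ℕ) : Prop := ∀ m, (coeff m P).IsHomogeneous j

lemma BH.mul {P Q : RTv ν K} {j k : ℕ} (hP : BH P j) (hQ : BH Q k) : BH (P * Q) (j + k) := by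
  classical
  intro m
  rw [coeff_mul]
  exact IsHomogeneous.sum _ _ _ fun x _ => (hP _).mul (hQ _)

lemma BH.add {P Q : RTv ν K} {j : ℕ} (hP : BH P j) (hQ : BH Q j) : BH (P + Q) j := by
  intro m
  rw [coeff_add]
  exact (hP _).add (hQ _)

lemma BH.sum {ι : Type*} (s : Finset ι) (f : ι → RTv ν K) {j : ℕ} (h : ∀ i ∈ s, BH (f i) j) :
    BH (∑ i ∈ s, f i) j := by
  intro m
  rw [coeff_sum]
  exact IsHomogeneous.sum _ _ _ fun x hx => h x hx m

lemma BH_C {a : Rv ν K} {j : ℕ} (h : a.IsHomogeneous j) : BH (C a : RTv ν K) j := by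
  classical
  intro m
  rw [coeff_C]
  split_ifs
  · exact h
  · exact isHomogeneous_zero _ _ _

lemma BH_tt (q : Rv ν K) : BH (tt q) 0 := by
  intro m
  rw [tt, coeff_map]
  exact isHomogeneous_C _ _

lemma BH_gl : BH (gl ν K) 1 := by
  refine BH.sum _ _ fun k _ => ?_
  have h1 : BH (X k : RTv ν K) 0 := by
    rw [← tt_X]
    exact BH_tt _
  have h2 := h1.mul (BH_C (isHomogeneous_X K k))
  rwa [zero_add] at h2

lemma BH.pow {P : RTv ν K} {j : ℕ} (hP : BH P j) (n : ℕ) : BH (P ^ n) (j * n) := by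
  induction n with
  | zero =>
    rw [pow_zero, mul_zero, ← C_1]
    exact BH_C (isHomogeneous_one _ _)
  | succ n ih =>
    rw [pow_succ, mul_add, mul_one]
    exact ih.mul hP


end Ker

end Pool.Agent.H868.TS
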