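import Pool.Agent.H868.TS.A

/-!
The ideal `(ℓ, P)` of `K[x][t]`, the derivations `x_j ∂/∂t_k - x_k ∂/∂t_j`, and the vanishing of the
Wronskians of a syzygy of three forms modulo `(ℓ, P)`. (As in four variables, `Q4.Base`.)
-/

namespace Pool.Agent.H868.TS

set_option maxHeartbeats 400000
set_option linter.unusedSectionVars false

open MvPolynomial
open Pool.Agent.TH61.SL (hc comp_mul hc_zero hc_hom comp_self comp_ne)
open H503R3.QCI (Homog)

variable {ν : ℕ} {K : Type*} [Field K]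

/-- saturated ideals -/
def Sat (P : Ideal (Rv ν K)) : Prop := ∀ s : Rv ν K, (∀ j, X j * s ∈ P) → s ∈ P

/-- the ideal generated by the generic linear form and `P` -/
noncomputable def JJ (P : Ideal (Rv ν K)) : Ideal (RTv ν K) :=
  Ideal.span {gl ν K} ⊔ P.map (C : Rv ν K →+* RTv ν K)

lemma inI_iff_map {P : Ideal (Rv ν K)} {Y : RTv ν K} :
    InI P Y ↔ Y ∈ P.map (C : Rv ν K →+* RTv ν K) := mem_map_C_iff.symm

lemma mem_JJ {P : Ideal (Rv ν K)} {Y : RTv ν K} : Y ∈ JJ P ↔ ∃ s, InI P (Y - gl ν K * s) := by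
  rw [JJ, Ideal.mem_span_singleton_sup]
  constructor
  · rintro ⟨s, p, hp, rfl⟩
    refine ⟨s, ?_⟩
    rw [inI_iff_map]
    convert hp using 1
    ring
  · rintro ⟨s, hs⟩
    exact ⟨s, Y - gl ν K * s, inI_iff_map.1 hs, by ring⟩

lemma JJ_mono {P P' : Ideal (Rv ν K)} (h : P ≤ P') : JJ P ≤ JJ P' :=
  sup_le_sup le_rfl (Ideal.map_mono h)

lemma JJ_of_inI {P : Ideal (Rv ν K)} {Y : RTv ν K} (h : InI P Y) : Y ∈ JJ P :=
  mem_JJ.2 ⟨0, by rwa [mul_zero, sub_zero]⟩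

lemma gl_mem_JJ (P : Ideal (Rv ν K)) : gl ν K ∈ JJ P :=
  Ideal.mem_sup_left (Ideal.mem_span_singleton_self _)

lemma gl_nzd {P : Ideal (Rv ν K)} (hP : Sat P) {Y : RTv ν K} (h : InI P (gl ν K * Y)) : InI P Y :=
  mc hP Y h

lemma inI_sup {P : Ideal (Rv ν K)} {f : Rv ν K} {Y : RTv ν K} (h : InI (P ⊔ Ideal.span {f}) Y) :
    ∃ s, InI P (Y - C f * s) := by
  rw [inI_iff_map, Ideal.map_sup, Ideal.map_span, Set.image_singleton, sup_comm,
    Ideal.mem_span_singleton_sup] at h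
  obtain ⟨s, p, hp, rfl⟩ := h
  refine ⟨s, ?_⟩
  rw [inI_iff_map]
  convert hp using 1
  ring

lemma inI_mono {P P' : Ideal (Rv ν K)} (h : P ≤ P') {Y : RTv ν K} (hY : InI P Y) : InI P' Y :=
  fun m => h (hY m)

/-- a nonzerodivisor modulo `P` is one modulo `(ℓ, P)` -/
lemma JJ_nzd {P : Ideal (Rv ν K)} {f : Rv ν K} (hf : ∀ s, f * s ∈ P → s ∈ P)
    (hs : Sat (P ⊔ Ideal.span {f})) {Y : RTv ν K} (h : C f * Y ∈ JJ P) : Y ∈ JJ P := by
  obtain ⟨s, hs'⟩ := mem_JJ.1 h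
  have h1 : InI (P ⊔ Ideal.span {f}) (gl ν K * s) := by
    have h2 : InI (P ⊔ Ideal.span {f}) (C f * Y) := fun m => by
      rw [coeff_C_mul]
      exact Ideal.mul_mem_right _ _ (Ideal.mem_sup_right (Ideal.mem_span_singleton_self f))
    have h3 := h2.sub (inI_mono le_sup_left hs')
    rwa [sub_sub_cancel] at h3
  obtain ⟨s', h2⟩ := inI_sup (gl_nzd hs h1)
  rw [mem_JJ]
  refine ⟨s', fun m => hf _ ?_⟩
  rw [← coeff_C_mul]
  have h3 : C f * (Y - gl ν K * s') = (C f * Y - gl ν K * s) + gl ν K * (s - C f * s') := by ring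
  rw [h3]
  exact (hs'.add (h2.mul_left _)) m

/-- congruences modulo `(ℓ, P, f)` -/
lemma JJ_sup {P : Ideal (Rv ν K)} {f : Rv ν K} {Y : RTv ν K} (h : Y ∈ JJ (P ⊔ Ideal.span {f})) :
    ∃ ω, Y - C f * ω ∈ JJ P := by
  obtain ⟨s, hs⟩ := mem_JJ.1 h
  obtain ⟨ω, h1⟩ := inI_sup hs
  refine ⟨ω, mem_JJ.2 ⟨s, ?_⟩⟩
  convert h1 using 1
  ring

/-! ### components -/

/-- the component of degree `n` in `x` -/
noncomputable def cx (n : ℕ) (Y : RTv ν K) : RTv ν K :=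
  ∑ m ∈ Y.support, monomial m (homogeneousComponent n (coeff m Y))

lemma coeff_cx (n : ℕ) (Y : RTv ν K) (m : Fin ν →₀ ℕ) :
    coeff m (cx n Y) = homogeneousComponent n (coeff m Y) := by
  classical
  rw [cx, coeff_sum]
  simp only [coeff_monomial]
  rw [Finset.sum_ite_eq']
  split_ifs with h
  · rfl
  · rw [notMem_support_iff.mp h, map_zero]

lemma cx_add (n : ℕ) (Y Z : RTv ν K) : cx n (Y + Z) = cx n Y + cx n Z := by
  ext1 m
  rw [coeff_cx, coeff_add, coeff_add, map_add, coeff_cx, coeff_cx]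

lemma cx_sub (n : ℕ) (Y Z : RTv ν K) : cx n (Y - Z) = cx n Y - cx n Z := by
  ext1 m
  rw [coeff_cx, coeff_sub, coeff_sub, map_sub, coeff_cx, coeff_cx]

lemma cx_zero (n : ℕ) : cx n (0 : RTv ν K) = 0 := by
  ext1 m
  rw [coeff_cx, coeff_zero, map_zero]

lemma cx_sum {ι : Type*} (s : Finset ι) (f : ι → RTv ν K) (n : ℕ) :
    cx n (∑ i ∈ s, f i) = ∑ i ∈ s, cx n (f i) := by
  classical
  induction s using Finset.induction_on with
  | empty => rw [Finset.sum_empty, Finset.sum_empty, cx_zero]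
  | insert a s ha ih => rw [Finset.sum_insert ha, Finset.sum_insert ha, cx_add, ih]

lemma cx_XH (n : ℕ) (Y : RTv ν K) : XH n (cx n Y) := fun m => by
  rw [coeff_cx]; exact homogeneousComponent_isHomogeneous _ _

lemma cx_self {n : ℕ} {Y : RTv ν K} (h : XH n Y) : cx n Y = Y := by
  ext1 m
  rw [coeff_cx, comp_self (h m)]

/-- the component of degree `n - a` -/
noncomputable def hcx (a n : ℕ) (Y : RTv ν K) : RTv ν K := if a ≤ n then cx (n - a) Y else 0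

lemma hcx_zero {a n : ℕ} (h : n < a) (Y : RTv ν K) : hcx a n Y = 0 := by
  rw [hcx, if_neg (by omega)]

lemma hcx_pos {a n : ℕ} (h : a ≤ n) (Y : RTv ν K) : hcx a n Y = cx (n - a) Y := by
  rw [hcx, if_pos h]

lemma coeff_hcx (a n : ℕ) (Y : RTv ν K) (m : Fin ν →₀ ℕ) :
    coeff m (hcx a n Y) = hc a n (coeff m Y) := by
  rw [hcx, hc]
  split_ifs
  · rw [coeff_cx]
  · rw [coeff_zero]

lemma cx_C_mul {f : Rv ν K} {a : ℕ} (hf : f.IsHomogeneous a) (n : ℕ) (Y : RTv ν K) :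
    cx n (C f * Y) = C f * hcx a n Y := by
  ext1 m
  rw [coeff_cx, coeff_C_mul, coeff_C_mul, coeff_hcx, mul_comm, comp_mul hf, mul_comm]

lemma cx_X_mul (k : Fin ν) (n : ℕ) (Y : RTv ν K) : cx n (X k * Y) = X k * cx n Y := by
  classical
  ext1 m
  rw [coeff_cx, coeff_X_mul', coeff_X_mul']
  split_ifs
  · rw [coeff_cx]
  · rw [map_zero]

lemma cx_gl_mul (n : ℕ) (Y : RTv ν K) : cx n (gl ν K * Y) = gl ν K * hcx 1 n Y := by
  rw [gl, Finset.sum_mul, Finset.sum_mul, cx_sum]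
  refine Finset.sum_congr rfl fun k _ => ?_
  rw [mul_comm (X k : RTv ν K), mul_assoc, cx_C_mul (isHomogeneous_X K k), mul_assoc]
  congr 1
  rw [hcx, hcx]
  split_ifs
  · rw [cx_X_mul]
  · rw [mul_zero]

lemma inI_cx {P : Ideal (Rv ν K)} (hP : Homog P) {Y : RTv ν K} (h : InI P Y) (n : ℕ) :
    InI P (cx n Y) := fun m => by
  rw [coeff_cx]
  exact hP _ (h m) n

lemma cx_JJ {P : Ideal (Rv ν K)} (hP : Homog P) {Y : RTv ν K} (h : Y ∈ JJ P) (n : ℕ) :
    cx n Y ∈ JJ P := by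
  obtain ⟨s, hs⟩ := mem_JJ.1 h
  refine mem_JJ.2 ⟨hcx 1 n s, ?_⟩
  rw [← cx_gl_mul, ← cx_sub]
  exact inI_cx hP hs n

lemma div_hom {P : Ideal (Rv ν K)} (hP : Homog P) {f : Rv ν K} {a n : ℕ} (hf : f.IsHomogeneous a)
    {Y ω : RTv ν K} (hY : XH n Y) (h : Y - C f * ω ∈ JJ P) : Y - C f * hcx a n ω ∈ JJ P := by
  have h1 := cx_JJ hP h n
  rwa [cx_sub, cx_self hY, cx_C_mul hf] at h1

lemma eq_tt {Y : RTv ν K} (h : XH 0 Y) : ∃ y : Rv ν K, Y = tt y := by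
  classical
  refine ⟨map constantCoeff Y, ?_⟩
  ext1 m
  rw [tt, coeff_map, coeff_map, constantCoeff_eq]
  exact totalDegree_eq_zero_iff_eq_C.mp (Nat.le_zero.mp (h m).totalDegree_le)

/-! ### the derivations -/

/-- the derivation `x_j ∂/∂t_k - x_k ∂/∂t_j` -/
noncomputable def Dd (j k : Fin ν) (Y : RTv ν K) : RTv ν K :=
  C (X j) * pderiv k Y - C (X k) * pderiv j Y

lemma Dd_add (j k : Fin ν) (Y Z : RTv ν K) : Dd j k (Y + Z) = Dd j k Y + Dd j k Z := by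
  simp only [Dd, map_add]; ring

lemma Dd_sub (j k : Fin ν) (Y Z : RTv ν K) : Dd j k (Y - Z) = Dd j k Y - Dd j k Z := by
  simp only [Dd, map_sub]; ring

lemma Dd_zero (j k : Fin ν) : Dd j k (0 : RTv ν K) = 0 := by
  simp only [Dd, map_zero, mul_zero, sub_zero]

lemma Dd_mul (j k : Fin ν) (Y Z : RTv ν K) : Dd j k (Y * Z) = Y * Dd j k Z + Z * Dd j k Y := by
  simp only [Dd, Derivation.leibniz, smul_eq_mul]; ring

lemma Dd_C_mul (j k : Fin ν) (f : Rv ν K) (Y : RTv ν K) : Dd j k (C f * Y) = C f * Dd j k Y := by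
  rw [Dd_mul]
  have : Dd j k (C f : RTv ν K) = 0 := by simp only [Dd, pderiv_C, mul_zero, sub_zero]
  rw [this, mul_zero, add_zero]

lemma Dd_gl (j k : Fin ν) : Dd j k (gl ν K) = 0 := by
  rw [Dd, pderiv_gl, pderiv_gl]; ring

lemma Dd_gl_mul (j k : Fin ν) (Y : RTv ν K) : Dd j k (gl ν K * Y) = gl ν K * Dd j k Y := by
  rw [Dd_mul, Dd_gl, mul_zero, add_zero]

lemma Dd_inI {P : Ideal (Rv ν K)} (j k : Fin ν) {Y : RTv ν K} (h : InI P Y) : InI P (Dd j k Y) :=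
  ((h.pderiv k).mul_left _).sub ((h.pderiv j).mul_left _)

lemma Dd_JJ {P : Ideal (Rv ν K)} (j k : Fin ν) {Y : RTv ν K} (h : Y ∈ JJ P) : Dd j k Y ∈ JJ P := by
  obtain ⟨s, hs⟩ := mem_JJ.1 h
  refine mem_JJ.2 ⟨Dd j k s, ?_⟩
  rw [← Dd_gl_mul, ← Dd_sub]
  exact Dd_inI j k hs

lemma Dd_XH {n : ℕ} {Y : RTv ν K} (h : XH n Y) (j k : Fin ν) : XH (n + 1) (Dd j k Y) := by
  have h1 : ∀ j k : Fin ν, XH (n + 1) (C (X j) * pderiv k Y : RTv ν K) := fun j k =>
    ((XH.C (isHomogeneous_X K j)).mul (h.pderiv k)).cast (by omega)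
  exact (h1 j k).sub (h1 k j)

/-- the components of `v × D v` -/
noncomputable def Om (v : Fin 3 → RTv ν K) (j k : Fin ν) (c : Fin 3) : RTv ν K :=
  v (c + 1) * Dd j k (v (c + 2)) - v (c + 2) * Dd j k (v (c + 1))

lemma Om_cyc (v : Fin 3 → RTv ν K) (j k l : Fin ν) (c : Fin 3) :
    C (X l) * Om v j k c + C (X j) * Om v k l c + C (X k) * Om v l j c = 0 := by
  simp only [Om, Dd]; ring

lemma Om_self (v : Fin 3 → RTv ν K) (j : Fin ν) (c : Fin 3) : Om v j j c = 0 := by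
  simp only [Om, Dd]; ring

section syz

variable {P : Ideal (Rv ν K)} {F : Fin 3 → Rv ν K} {v : Fin 3 → RTv ν K}

/-- the Wronskians are multiples of `F` -/
lemma omega_exists (n0 : ∀ Y, C (F 0) * Y ∈ JJ P → Y ∈ JJ P)
    (n1 : ∀ Y, C (F 1) * Y ∈ JJ P → Y ∈ JJ P)
    (n01 : ∀ Y Z, C (F 1) * Y - C (F 0) * Z ∈ JJ P → ∃ ω, Y - C (F 0) * ω ∈ JJ P)
    (hrel : C (F 0) * v 0 + C (F 1) * v 1 + C (F 2) * v 2 ∈ JJ P) (j k : Fin ν) :
    ∃ ω : RTv ν K, ∀ c, Om v j k c - C (F c) * ω ∈ JJ P := by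
  have hD := Dd_JJ j k hrel
  rw [Dd_add, Dd_add, Dd_C_mul, Dd_C_mul, Dd_C_mul] at hD
  have key : ∀ b, C (F 0) * (v 0 * Dd j k (v b) - v b * Dd j k (v 0))
      + C (F 1) * (v 1 * Dd j k (v b) - v b * Dd j k (v 1))
      + C (F 2) * (v 2 * Dd j k (v b) - v b * Dd j k (v 2)) ∈ JJ P := by
    intro b
    have h1 := (JJ P).sub_mem ((JJ P).mul_mem_left (Dd j k (v b)) hrel)
      ((JJ P).mul_mem_left (v b) hD)
    convert h1 using 1
    ring
  have e0 : Om v j k 0 = v 1 * Dd j k (v 2) - v 2 * Dd j k (v 1) := rfl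
  have e1 : Om v j k 1 = v 2 * Dd j k (v 0) - v 0 * Dd j k (v 2) := rfl
  have e2 : Om v j k 2 = v 0 * Dd j k (v 1) - v 1 * Dd j k (v 0) := rfl
  have r01 : C (F 1) * Om v j k 0 - C (F 0) * Om v j k 1 ∈ JJ P := by
    convert key 2 using 1
    rw [e0, e1]; ring
  have r12 : C (F 2) * Om v j k 1 - C (F 1) * Om v j k 2 ∈ JJ P := by
    convert key 0 using 1
    rw [e2, e1]; ring
  obtain ⟨ω, hω⟩ := n01 _ _ r01
  have h1 : Om v j k 1 - C (F 1) * ω ∈ JJ P := by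
    apply n0
    have h2 := (JJ P).sub_mem ((JJ P).mul_mem_left (C (F 1)) hω) r01
    convert h2 using 1
    ring
  have h2 : Om v j k 2 - C (F 2) * ω ∈ JJ P := by
    apply n1
    have h3 := (JJ P).sub_mem ((JJ P).mul_mem_left (C (F 2)) h1) r12
    convert h3 using 1
    ring
  refine ⟨ω, fun c => ?_⟩
  fin_cases c
  · exact hω
  · exact h1
  · exact h2

/-- the degrees of the Wronskians -/
lemma Om_XH {d : Fin 3 → ℕ} {N s : ℕ} (hv : ∀ a, DX (d a) N (v a))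
    (hN : 2 * N + 1 + s = d 0 + d 1 + d 2) (j k : Fin ν) (c : Fin 3) :
    Om v j k c = 0 ∨ (s ≤ d c ∧ XH (d c - s) (Om v j k c)) := by
  have hc : d 0 + d 1 + d 2 = d c + d (c + 1) + d (c + 2) := by
    fin_cases c
    · rfl
    · change d 0 + d 1 + d 2 = d 1 + d 2 + d 0
      omega
    · change d 0 + d 1 + d 2 = d 2 + d 0 + d 1
      omega
  rcases hv (c + 1) with h1 | ⟨n1, hn1, h1⟩
  · left
    rw [Om, h1, Dd_zero]; ring
  rcases hv (c + 2) with h2 | ⟨n2, hn2, h2⟩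
  · left
    rw [Om, h2, Dd_zero]; ring
  right
  refine ⟨by omega, ?_⟩
  have a1 : XH (d c - s) (v (c + 1) * Dd j k (v (c + 2))) :=
    (h1.mul (Dd_XH h2 j k)).cast (by omega)
  have a2 : XH (d c - s) (v (c + 2) * Dd j k (v (c + 1))) :=
    (h2.mul (Dd_XH h1 j k)).cast (by omega)
  exact a1.sub a2

/-- the Wronskians vanish if the degree is too small -/
theorem omega_zero_small (hP : Homog P) {d : Fin 3 → ℕ} (hF : ∀ a, (F a).IsHomogeneous (d a))
    (n0 : ∀ Y, C (F 0) * Y ∈ JJ P → Y ∈ JJ P)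
    (n1 : ∀ Y, C (F 1) * Y ∈ JJ P → Y ∈ JJ P)
    (n01 : ∀ Y Z, C (F 1) * Y - C (F 0) * Z ∈ JJ P → ∃ ω, Y - C (F 0) * ω ∈ JJ P)
    (hrel : C (F 0) * v 0 + C (F 1) * v 1 + C (F 2) * v 2 ∈ JJ P) {N s : ℕ}
    (hv : ∀ a, DX (d a) N (v a)) (hN : 2 * N + 1 + s = d 0 + d 1 + d 2) (hs : 1 ≤ s)
    (j k : Fin ν) (c : Fin 3) : Om v j k c ∈ JJ P := by
  rcases Om_XH hv hN j k c with h | ⟨h1, h2⟩
  · rw [h]; exact (JJ P).zero_mem
  · obtain ⟨ω, hω⟩ := omega_exists n0 n1 n01 hrel j k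
    have h3 := div_hom hP (hF c) h2 (hω c)
    rwa [hcx_zero (by omega), mul_zero, sub_zero] at h3

lemma exists_two (hν : 4 ≤ ν) (j k : Fin ν) :
    ∃ l m : Fin ν, l ≠ j ∧ l ≠ k ∧ m ≠ j ∧ m ≠ k ∧ m ≠ l := by
  classical
  obtain ⟨l, hl⟩ : ∃ l : Fin ν, l ∉ ({j, k} : Finset (Fin ν)) := by
    by_contra hcon
    push Not at hcon
    have h1 := Finset.card_le_card (fun x (_ : x ∈ (Finset.univ : Finset (Fin ν))) => hcon x)
    rw [Finset.card_univ, Fintype.card_fin] at h1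
    have := Finset.card_le_two (a := j) (b := k)
    omega
  obtain ⟨m, hm⟩ : ∃ m : Fin ν, m ∉ ({j, k, l} : Finset (Fin ν)) := by
    by_contra hcon
    push Not at hcon
    have h1 := Finset.card_le_card (fun x (_ : x ∈ (Finset.univ : Finset (Fin ν))) => hcon x)
    rw [Finset.card_univ, Fintype.card_fin] at h1
    have := Finset.card_le_three (a := j) (b := k) (c := l)
    omega
  simp only [Finset.mem_insert, Finset.mem_singleton, not_or] at hl hm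
  exact ⟨l, m, hl.1, hl.2, hm.1, hm.2.1, hm.2.2⟩

/-- the Wronskians vanish: at least four variables -/
theorem omega_zero (hν : 4 ≤ ν) (hP : Homog P) (hP1 : ∀ p ∈ P, p.IsHomogeneous 1 → p = 0) {d : Fin 3 → ℕ}
    (hF : ∀ a, (F a).IsHomogeneous (d a))
    (n0 : ∀ Y, C (F 0) * Y ∈ JJ P → Y ∈ JJ P)
    (n1 : ∀ Y, C (F 1) * Y ∈ JJ P → Y ∈ JJ P)
    (n01 : ∀ Y Z, C (F 1) * Y - C (F 0) * Z ∈ JJ P → ∃ ω, Y - C (F 0) * ω ∈ JJ P)
    (hrel : C (F 0) * v 0 + C (F 1) * v 1 + C (F 2) * v 2 ∈ JJ P) {N : ℕ}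
    (hv : ∀ a, DX (d a) N (v a)) (hN : 2 * N + 1 = d 0 + d 1 + d 2)
    (j k : Fin ν) (c : Fin 3) : Om v j k c ∈ JJ P := by
  have h1 : ∀ j k, ∃ y : Rv ν K, ∀ c, Om v j k c - C (F c) * tt y ∈ JJ P := by
    intro j k
    obtain ⟨ω, hω⟩ := omega_exists n0 n1 n01 hrel j k
    obtain ⟨y, hy⟩ := eq_tt (cx_XH 0 ω)
    refine ⟨y, fun c => ?_⟩
    have h2 : XH (d c) (Om v j k c) := by
      rcases Om_XH (s := 0) hv hN j k c with h | ⟨-, h⟩
      · rw [h]; exact XH.zero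
      · exact h
    have h3 := div_hom hP (hF c) h2 (hω c)
    rwa [hcx_pos le_rfl, Nat.sub_self, hy] at h3
  choose y hy using h1
  by_cases hjk : j = k
  · subst hjk
    rw [Om_self]; exact (JJ P).zero_mem
  obtain ⟨l, m, hlj, hlk, hmj, hmk, hml⟩ := exists_two hν j k
  have hZ : C (X l) * tt (y j k) + C (X j) * tt (y k l) + C (X k) * tt (y l j) ∈ JJ P := by
    apply n0
    have h2 := (JJ P).add_mem ((JJ P).add_mem ((JJ P).mul_mem_left (C (X l)) (hy j k 0))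
      ((JJ P).mul_mem_left (C (X j)) (hy k l 0))) ((JJ P).mul_mem_left (C (X k)) (hy l j 0))
    have h3 := Om_cyc v j k l 0
    have h4 : C (F 0) * (C (X l) * tt (y j k) + C (X j) * tt (y k l) + C (X k) * tt (y l j))
        = -(C (X l) * (Om v j k 0 - C (F 0) * tt (y j k))
          + C (X j) * (Om v k l 0 - C (F 0) * tt (y k l))
          + C (X k) * (Om v l j 0 - C (F 0) * tt (y l j))) := by
      linear_combination h3
    rw [h4]
    exact (JJ P).neg_mem h2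
  obtain ⟨s, hs⟩ := mem_JJ.1 hZ
  have hX : ∀ j k l : Fin ν, XH 1 (C (X l) * tt (y j k) : RTv ν K) := fun j k l =>
    ((XH.C (isHomogeneous_X K l)).mul (XH.tt _)).cast (by omega)
  have hZ1 : XH 1 (C (X l) * tt (y j k) + C (X j) * tt (y k l) + C (X k) * tt (y l j) : RTv ν K) :=
    ((hX j k l).add (hX k l j)).add (hX l j k)
  obtain ⟨s', hs'⟩ := eq_tt (cx_XH 0 s)
  have h2 : C (X l) * tt (y j k) + C (X j) * tt (y k l) + C (X k) * tt (y l j)
      = gl ν K * tt s' := by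
    have h3 := inI_cx hP hs 1
    rw [cx_sub, cx_self hZ1, cx_gl_mul, hcx_pos le_rfl, Nat.sub_self, hs'] at h3
    rw [← sub_eq_zero]
    ext1 m
    rw [coeff_zero]
    refine hP1 _ (h3 m) ?_
    exact (hZ1.sub ((XH.gl.mul (XH.tt s')).cast (by omega))) m
  have h3 : ∀ z : Fin ν, z ≠ j → z ≠ k →
      C ((Pi.single z 1 : Fin ν → K) l) * y j k = lf (Pi.single z 1) * s' := by
    intro z hzj hzk
    have h4 := congrArg (evx (Pi.single z 1 : Fin ν → K)) h2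
    simp only [map_add, map_mul, evx_C, evx_tt, evx_gl, eval_X] at h4
    rw [Pi.single_eq_of_ne hzj.symm, Pi.single_eq_of_ne hzk.symm, C_0, zero_mul, zero_mul,
      add_zero, add_zero] at h4
    exact h4
  have hs0 : s' = 0 := by
    have h4 := h3 m hmj hmk
    rw [Pi.single_eq_of_ne hml.symm, C_0, zero_mul] at h4
    have h5 : lf (Pi.single m 1 : Fin ν → K) ≠ 0 := by
      intro h6
      have h7 := congrArg (eval (Pi.single m 1 : Fin ν → K)) h6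
      rw [lf, map_sum, map_zero, Finset.sum_eq_single m] at h7
      · simp at h7
      · intro b _ hb
        rw [map_mul, eval_C, Pi.single_eq_of_ne hb, zero_mul]
      · intro h8
        exact absurd (Finset.mem_univ m) h8
    exact (mul_eq_zero.1 h4.symm).resolve_left h5
  have hy0 : y j k = 0 := by
    have h4 := h3 l hlj hlk
    rwa [hs0, mul_zero, Pi.single_eq_same, C_1, one_mul] at h4
  have h4 := hy j k c
  rwa [hy0, map_zero, mul_zero, sub_zero] at h4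

end syz

end Pool.Agent.H868.TS
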