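import Pool.Agent.H868.TS.B

/-!
The substitutions `t = M x` for skew matrices `M`. (As in four variables, `Q4.Subst`.)
-/

namespace Pool.Agent.H868.TS

set_option maxHeartbeats 400000
set_option linter.unusedSectionVars false

open MvPolynomial
open Pool.Agent.TH61.SL (hc comp_mul hc_zero hc_hom comp_self comp_ne)
open H503R3.QCI (Homog)

variable {ν : ℕ} {K : Type*} [Field K]

/-- skew matrices -/
def Skew {A : Type*} [CommRing A] (M : Fin ν → Fin ν → A) : Prop :=
  (∀ j, M j j = 0) ∧ ∀ j k, M j k = -M k j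

lemma sum_skew {A : Type*} [CommRing A] {M : Fin ν → Fin ν → A} (hM : Skew M) (x : Fin ν → A) :
    ∑ k, x k * ∑ j, M k j * x j = 0 := by
  classical
  simp only [Finset.mul_sum]
  rw [← Finset.sum_product']
  refine Finset.sum_involution (fun p _ => p.swap) ?_ ?_ ?_ ?_
  · rintro ⟨k, j⟩ _
    change x k * (M k j * x j) + x j * (M j k * x k) = 0
    rw [hM.2 k j]
    ring
  · rintro ⟨k, j⟩ _ hne heq
    apply hne
    have h1 : j = k := congrArg Prod.fst heq
    subst h1
    change x j * (M j j * x j) = 0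
    rw [hM.1]
    ring
  · intro p _
    exact Finset.mem_product.2 ⟨Finset.mem_univ _, Finset.mem_univ _⟩
  · intro p _
    exact Prod.swap_swap p

lemma Skew.map {A B : Type*} [CommRing A] [CommRing B] {M : Fin ν → Fin ν → A} (hM : Skew M)
    (φ : A →+* B) : Skew (fun j k => φ (M j k)) :=
  ⟨fun j => by beta_reduce; rw [hM.1 j, map_zero], fun j k => by
    beta_reduce; rw [hM.2 j k, map_neg]⟩

lemma Skew.sub {A : Type*} [CommRing A] {M N : Fin ν → Fin ν → A} (hM : Skew M) (hN : Skew N) :
    Skew (fun j k => M j k - N j k) :=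
  ⟨fun j => by beta_reduce; rw [hM.1 j, hN.1 j, sub_zero], fun j k => by
    beta_reduce; rw [hM.2 j k, hN.2 j k]; ring⟩

/-- the coordinates of `M x` -/
noncomputable def mx (M : Fin ν → Fin ν → K) (k : Fin ν) : Rv ν K := ∑ j, C (M k j) * X j

lemma mx_hom (M : Fin ν → Fin ν → K) (k : Fin ν) : (mx M k).IsHomogeneous 1 := by
  rw [mx]
  refine IsHomogeneous.sum _ _ _ fun j _ => ?_
  have := (isHomogeneous_C (Fin ν) (M k j)).mul (isHomogeneous_X K j)
  rwa [zero_add] at this

lemma sum_mx {M : Fin ν → Fin ν → K} (hM : Skew M) : ∑ k, X k * mx M k = 0 := by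
  have := sum_skew (hM.map (C : K →+* Rv ν K)) (fun k => X k)
  exact this

/-- the substitution `t = M x` -/
noncomputable def sg (M : Fin ν → Fin ν → K) : RTv ν K →+* Rv ν K := eval (mx M)

lemma sg_C (M : Fin ν → Fin ν → K) (f : Rv ν K) : sg M (C f) = f := eval_C _

lemma sg_X (M : Fin ν → Fin ν → K) (k : Fin ν) : sg M (X k) = mx M k := eval_X _

lemma sg_gl {M : Fin ν → Fin ν → K} (hM : Skew M) : sg M (gl ν K) = 0 := by
  rw [gl, map_sum, ← sum_mx hM]
  refine Finset.sum_congr rfl fun k _ => ?_
  rw [map_mul, sg_C, sg_X, mul_comm]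

lemma sg_inI {P : Ideal (Rv ν K)} (M : Fin ν → Fin ν → K) {Y : RTv ν K} (h : InI P Y) : sg M Y ∈ P := by
  rw [sg, eval_eq']
  exact Ideal.sum_mem _ fun m _ => Ideal.mul_mem_right _ _ (h m)

lemma sg_JJ {P : Ideal (Rv ν K)} {M : Fin ν → Fin ν → K} (hM : Skew M) {Y : RTv ν K} (h : Y ∈ JJ P) :
    sg M Y ∈ P := by
  obtain ⟨s, hs⟩ := mem_JJ.1 h
  have h1 := sg_inI M hs
  rwa [map_sub, map_mul, sg_gl hM, zero_mul, sub_zero] at h1

section wron

variable (P : Ideal (Rv ν K))

/-- the substitution `t = (M + λ N) x` -/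
noncomputable def Th (M N : Fin ν → Fin ν → K) : RTv ν K →+* Polynomial (Rv ν K ⧸ P) :=
  eval₂Hom (Polynomial.C.comp (Ideal.Quotient.mk P))
    (fun k => Polynomial.C (Ideal.Quotient.mk P (mx M k))
      + Polynomial.X * Polynomial.C (Ideal.Quotient.mk P (mx N k)))

lemma Th_C (M N : Fin ν → Fin ν → K) (f : Rv ν K) :
    Th P M N (C f) = Polynomial.C (Ideal.Quotient.mk P f) := by
  rw [Th, eval₂Hom_C]; rfl

lemma Th_X (M N : Fin ν → Fin ν → K) (k : Fin ν) :
    Th P M N (X k) = Polynomial.C (Ideal.Quotient.mk P (mx M k))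
      + Polynomial.X * Polynomial.C (Ideal.Quotient.mk P (mx N k)) := by
  rw [Th, eval₂Hom_X']

lemma Th_inI (M N : Fin ν → Fin ν → K) {Y : RTv ν K} (h : InI P Y) : Th P M N Y = 0 := by
  rw [Th, coe_eval₂Hom, eval₂_eq']
  refine Finset.sum_eq_zero fun m _ => ?_
  rw [RingHom.comp_apply, Ideal.Quotient.eq_zero_iff_mem.2 (h m), Polynomial.C_0, zero_mul]

lemma Th_gl {M N : Fin ν → Fin ν → K} (hM : Skew M) (hN : Skew N) : Th P M N (gl ν K) = 0 := by
  have h1 := congrArg (fun z => Polynomial.C (Ideal.Quotient.mk P z)) (sum_mx hM)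
  have h2 := congrArg (fun z => Polynomial.C (Ideal.Quotient.mk P z)) (sum_mx hN)
  simp only [map_sum, map_mul, map_zero] at h1 h2
  have h3 : Th P M N (gl ν K) = (∑ k, Polynomial.C (Ideal.Quotient.mk P (X k))
        * Polynomial.C (Ideal.Quotient.mk P (mx M k)))
      + Polynomial.X * ∑ k, Polynomial.C (Ideal.Quotient.mk P (X k))
        * Polynomial.C (Ideal.Quotient.mk P (mx N k)) := by
    rw [gl, map_sum, Finset.mul_sum, ← Finset.sum_add_distrib]
    refine Finset.sum_congr rfl fun k _ => ?_
    rw [map_mul, Th_C, Th_X]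
    ring
  rw [h3, h1, h2, mul_zero, add_zero]

lemma Th_JJ {M N : Fin ν → Fin ν → K} (hM : Skew M) (hN : Skew N) {Y : RTv ν K} (h : Y ∈ JJ P) :
    Th P M N Y = 0 := by
  obtain ⟨s, hs⟩ := mem_JJ.1 h
  have h1 := Th_inI P M N hs
  rwa [map_sub, map_mul, Th_gl P hM hN, zero_mul, sub_zero] at h1

lemma Th_deriv (M N : Fin ν → Fin ν → K) (Y : RTv ν K) :
    Polynomial.derivative (Th P M N Y)
      = ∑ k, Polynomial.C (Ideal.Quotient.mk P (mx N k)) * Th P M N (pderiv k Y) := by
  classical
  induction Y using MvPolynomial.induction_on with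
  | C a =>
    rw [Th_C, Polynomial.derivative_C]
    symm
    refine Finset.sum_eq_zero fun k _ => ?_
    rw [pderiv_C, map_zero, mul_zero]
  | add p q hp hq =>
    rw [map_add, Polynomial.derivative_add, hp, hq, ← Finset.sum_add_distrib]
    refine Finset.sum_congr rfl fun k _ => ?_
    rw [map_add, map_add, mul_add]
  | mul_X p n hp =>
    rw [map_mul, Polynomial.derivative_mul, hp, Finset.sum_mul]
    have h1 : Polynomial.derivative (Th P M N (X n))
        = Polynomial.C (Ideal.Quotient.mk P (mx N n)) := by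
      rw [Th_X]
      simp
    rw [h1]
    have h2 : ∀ k, Polynomial.C (Ideal.Quotient.mk P (mx N k)) * Th P M N (pderiv k (p * X n))
        = Polynomial.C (Ideal.Quotient.mk P (mx N k)) * Th P M N (pderiv k p) * Th P M N (X n)
          + (if k = n then Th P M N p * Polynomial.C (Ideal.Quotient.mk P (mx N n)) else 0) := by
      intro k
      rw [pderiv_mul, map_add, map_mul, map_mul]
      split_ifs with h
      · subst h
        rw [pderiv_X_self, map_one]
        ring
      · rw [pderiv_X_of_ne (Ne.symm h), map_zero]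
        ring
    simp only [h2]
    rw [Finset.sum_add_distrib, Finset.sum_ite_eq' Finset.univ n]
    simp

lemma Th_deriv' {M N : Fin ν → Fin ν → K} (hN : Skew N) (Y : RTv ν K) :
    2 * Polynomial.derivative (Th P M N Y)
      = ∑ j, ∑ k, Polynomial.C (Ideal.Quotient.mk P (C (N k j))) * Th P M N (Dd j k Y) := by
  rw [Th_deriv]
  have h1 : ∀ k, Polynomial.C (Ideal.Quotient.mk P (mx N k))
      = ∑ j, Polynomial.C (Ideal.Quotient.mk P (C (N k j)))
        * Polynomial.C (Ideal.Quotient.mk P (X j)) := by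
    intro k
    rw [mx, map_sum, map_sum]
    refine Finset.sum_congr rfl fun j _ => ?_
    rw [map_mul, map_mul]
  simp only [h1]
  have h2 : ∀ j k, Th P M N (Dd j k Y)
      = Polynomial.C (Ideal.Quotient.mk P (X j)) * Th P M N (pderiv k Y)
        - Polynomial.C (Ideal.Quotient.mk P (X k)) * Th P M N (pderiv j Y) := by
    intro j k
    rw [Dd, map_sub, map_mul, map_mul, Th_C, Th_C]
  simp only [h2]
  set a : Fin ν → Fin ν → Polynomial (Rv ν K ⧸ P) :=
    fun k j => Polynomial.C (Ideal.Quotient.mk P (C (N k j))) with ha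
  set y : Fin ν → Polynomial (Rv ν K ⧸ P) := fun j => Polynomial.C (Ideal.Quotient.mk P (X j)) with hy
  set T : Fin ν → Polynomial (Rv ν K ⧸ P) := fun k => Th P M N (pderiv k Y) with hT
  change 2 * ∑ k, (∑ j, a k j * y j) * T k = ∑ j, ∑ k, a k j * (y j * T k - y k * T j)
  have hs : ∀ k j, a k j = -a j k := by
    intro k j
    rw [ha]
    change Polynomial.C (Ideal.Quotient.mk P (C (N k j))) = -Polynomial.C (Ideal.Quotient.mk P (C (N j k)))
    rw [hN.2 k j, map_neg, map_neg, map_neg]
  have h3 : ∑ j, ∑ k, a k j * (y k * T j) = -∑ j, ∑ k, a k j * (y j * T k) := by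
    rw [Finset.sum_comm, ← Finset.sum_neg_distrib]
    refine Finset.sum_congr rfl fun k _ => ?_
    rw [← Finset.sum_neg_distrib]
    refine Finset.sum_congr rfl fun j _ => ?_
    rw [hs k j]
    ring
  have h4 : ∑ k, (∑ j, a k j * y j) * T k = ∑ j, ∑ k, a k j * (y j * T k) := by
    rw [Finset.sum_comm]
    refine Finset.sum_congr rfl fun k _ => ?_
    rw [Finset.sum_mul]
    exact Finset.sum_congr rfl fun j _ => mul_assoc _ _ _
  have h5 : ∑ j, ∑ k, a k j * (y j * T k - y k * T j)
      = (∑ j, ∑ k, a k j * (y j * T k)) - ∑ j, ∑ k, a k j * (y k * T j) := by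
    rw [← Finset.sum_sub_distrib]
    refine Finset.sum_congr rfl fun j _ => ?_
    rw [← Finset.sum_sub_distrib]
    exact Finset.sum_congr rfl fun k _ => by ring
  rw [h5, h3, h4]
  ring

lemma Th_eval_zero (M N : Fin ν → Fin ν → K) (Y : RTv ν K) :
    Polynomial.eval 0 (Th P M N Y) = Ideal.Quotient.mk P (sg M Y) := by
  have h : (Polynomial.evalRingHom 0).comp (Th P M N) = (Ideal.Quotient.mk P).comp (sg M) := by
    apply MvPolynomial.ringHom_ext
    · intro a
      rw [RingHom.comp_apply, RingHom.comp_apply, Th_C, sg_C]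
      simp
    · intro k
      rw [RingHom.comp_apply, RingHom.comp_apply, Th_X, sg_X]
      simp
  exact RingHom.congr_fun h Y

lemma Th_eval_one (M N M' : Fin ν → Fin ν → K) (hM' : ∀ j k, M' j k = M j k + N j k) (Y : RTv ν K) :
    Polynomial.eval 1 (Th P M N Y) = Ideal.Quotient.mk P (sg M' Y) := by
  have h : (Polynomial.evalRingHom 1).comp (Th P M N) = (Ideal.Quotient.mk P).comp (sg M') := by
    apply MvPolynomial.ringHom_ext
    · intro a
      rw [RingHom.comp_apply, RingHom.comp_apply, Th_C, sg_C]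
      simp
    · intro k
      rw [RingHom.comp_apply, RingHom.comp_apply, Th_X, sg_X]
      have h1 : mx M' k = mx M k + mx N k := by
        rw [mx, mx, mx, ← Finset.sum_add_distrib]
        refine Finset.sum_congr rfl fun j _ => ?_
        rw [hM', C_add, add_mul]
      rw [h1, map_add]
      simp
  exact RingHom.congr_fun h Y

/-- two polynomials with vanishing Wronskian are proportional -/
lemma prop_of_wron {S : Type*} [CommRing S] [IsDomain S] [CharZero S] {p q : Polynomial S}
    (h : p * Polynomial.derivative q = q * Polynomial.derivative p) :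
    Polynomial.eval 1 p * Polynomial.eval 0 q = Polynomial.eval 1 q * Polynomial.eval 0 p := by
  by_cases hq : q = 0
  · rw [hq]; simp
  set F := FractionRing S
  have hinj : Function.Injective (algebraMap S F) := IsFractionRing.injective S F
  have : CharZero F := charZero_of_injective_algebraMap hinj
  have hq' : q.map (algebraMap S F) ≠ 0 := by
    rwa [Ne, Polynomial.map_eq_zero_iff hinj]
  have h' : q.map (algebraMap S F) * Polynomial.derivative (p.map (algebraMap S F))
      = p.map (algebraMap S F) * Polynomial.derivative (q.map (algebraMap S F)) := by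
    rw [Polynomial.derivative_map, Polynomial.derivative_map, ← Polynomial.map_mul,
      ← Polynomial.map_mul, h]
  obtain ⟨c, hc⟩ := Pool.Agent.W515.SLP.ratio_const _ _ hq' h'
  have e : ∀ (r : Polynomial S) (a : S), algebraMap S F (Polynomial.eval a r)
      = Polynomial.eval (algebraMap S F a) (r.map (algebraMap S F)) := fun r a => by
    rw [Polynomial.eval_map_apply]
  apply hinj
  rw [map_mul, map_mul, e, e, e, e, hc]
  simp only [Polynomial.eval_mul, Polynomial.eval_C]
  ring

end wron

/-- **the syzygies `v (M x, x)` are proportional** -/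
theorem cross [CharZero K] {P : Ideal (Rv ν K)} [hP : P.IsPrime] {v : Fin 3 → RTv ν K}
    (hO : ∀ j k c, Om v j k c ∈ JJ P) {M M' : Fin ν → Fin ν → K} (hM : Skew M) (hM' : Skew M')
    (a b : Fin 3) : sg M' (v a) * sg M (v b) - sg M' (v b) * sg M (v a) ∈ P := by
  set N : Fin ν → Fin ν → K := fun j k => M' j k - M j k with hN
  have hNs : Skew N := hM'.sub hM
  have : CharZero (Rv ν K ⧸ P) := by
    exact charZero_of_injective_algebraMap (algebraMap K (Rv ν K ⧸ P)).injective
  have hab : ∀ j k, v a * Dd j k (v b) - v b * Dd j k (v a) ∈ JJ P := by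
    intro j k
    have h0 : v 1 * Dd j k (v 2) - v 2 * Dd j k (v 1) ∈ JJ P := hO j k 0
    have h1 : v 2 * Dd j k (v 0) - v 0 * Dd j k (v 2) ∈ JJ P := hO j k 1
    have h2 : v 0 * Dd j k (v 1) - v 1 * Dd j k (v 0) ∈ JJ P := hO j k 2
    have key : ∀ {x y : RTv ν K}, x * Dd j k y - y * Dd j k x ∈ JJ P →
        y * Dd j k x - x * Dd j k y ∈ JJ P := by
      intro x y h
      have := (JJ P).neg_mem h
      rwa [neg_sub] at this
    have kk : ∀ x : RTv ν K, x * Dd j k x - x * Dd j k x ∈ JJ P := by
      intro x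
      rw [sub_self]; exact (JJ P).zero_mem
    fin_cases a <;> fin_cases b
    · exact kk _
    · exact h2
    · exact key h1
    · exact key h2
    · exact kk _
    · exact h0
    · exact h1
    · exact key h0
    · exact kk _
  have h1 : Th P M N (v a) * Polynomial.derivative (Th P M N (v b))
      = Th P M N (v b) * Polynomial.derivative (Th P M N (v a)) := by
    have h2 : (2 : Polynomial (Rv ν K ⧸ P)) * (Th P M N (v a) * Polynomial.derivative (Th P M N (v b))
        - Th P M N (v b) * Polynomial.derivative (Th P M N (v a))) = 0 := by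
      have h3 : (2 : Polynomial (Rv ν K ⧸ P)) * (Th P M N (v a) * Polynomial.derivative (Th P M N (v b))
          - Th P M N (v b) * Polynomial.derivative (Th P M N (v a)))
          = Th P M N (v a) * (2 * Polynomial.derivative (Th P M N (v b)))
            - Th P M N (v b) * (2 * Polynomial.derivative (Th P M N (v a))) := by ring
      rw [h3, Th_deriv' P hNs, Th_deriv' P hNs, Finset.mul_sum, Finset.mul_sum,
        ← Finset.sum_sub_distrib]
      refine Finset.sum_eq_zero fun j _ => ?_
      rw [Finset.mul_sum, Finset.mul_sum, ← Finset.sum_sub_distrib]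
      refine Finset.sum_eq_zero fun k _ => ?_
      have h4 := Th_JJ P hM hNs (hab j k)
      rw [map_sub, map_mul, map_mul] at h4
      linear_combination (Polynomial.C (Ideal.Quotient.mk P (C (N k j)))) * h4
    rw [mul_eq_zero] at h2
    rcases h2 with h2 | h2
    · exact absurd h2 two_ne_zero
    · exact sub_eq_zero.1 h2
  have h2 := prop_of_wron h1
  have hMN : ∀ j k, M' j k = M j k + N j k := by
    intro j k
    rw [hN]; ring
  rw [Th_eval_zero, Th_eval_zero, Th_eval_one P M N M' hMN, Th_eval_one P M N M' hMN] at h2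
  rw [← Ideal.Quotient.eq_zero_iff_mem, map_sub, map_mul, map_mul, h2, sub_self]

/-! ### the substitutions detect the ideal -/

section detect

/-- the substitution `t_i = - ∑ x_j t_j`, `t_k = x_i t_k` -/
noncomputable def Sb (i : Fin ν) : RTv ν K →+* RTv ν K :=
  eval₂Hom (C : Rv ν K →+* RTv ν K)
    (fun k => if k = i then -∑ j ∈ Finset.univ.erase i, C (X j) * X j else C (X i) * X k)

lemma Sb_C (i : Fin ν) (f : Rv ν K) : Sb i (C f) = C f := by rw [Sb, eval₂Hom_C]

lemma Sb_X (i k : Fin ν) : Sb (K := K) i (X k)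
    = if k = i then -∑ j ∈ Finset.univ.erase i, C (X j) * X j else C (X i) * X k := by
  rw [Sb, eval₂Hom_X']

/-- the substitution `t_k = x_i t_k` -/
noncomputable def Sc (i : Fin ν) : RTv ν K →+* RTv ν K :=
  eval₂Hom (C : Rv ν K →+* RTv ν K) (fun k => C (X i) * X k)

lemma Sc_hom (i : Fin ν) {e : ℕ} {Y : RTv ν K} (hY : Y.IsHomogeneous e) :
    Sc i Y = C (X i) ^ e * Y := by
  rw [Sc, coe_eval₂Hom, eval₂_eq']
  conv_rhs => rw [Y.as_sum]
  rw [Finset.mul_sum]
  apply Finset.sum_congr rfl
  intro a ha
  have h2 : a.degree = e := degree_of_mem_support hY ha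
  have h4 : ∑ i, a i = e := by
    rw [← h2, Finsupp.degree_eq_sum]
  have h5 : ∏ k, ((C (X i) : RTv ν K) * X k) ^ a k = C (X i) ^ e * ∏ k, (X k : RTv ν K) ^ a k := by
    rw [← h4, ← Finset.prod_pow_eq_pow_sum, ← Finset.prod_mul_distrib]
    exact Finset.prod_congr rfl fun k _ => mul_pow _ _ _
  rw [h5, monomial_eq, Finsupp.prod_fintype _ _ (by simp)]
  ring

lemma Sb_sub_Sc (i : Fin ν) (Y : RTv ν K) : Sc i Y - Sb i Y ∈ Ideal.span {gl ν K} := by
  rw [← Ideal.Quotient.eq]
  have h : (Ideal.Quotient.mk (Ideal.span {gl ν K})).comp (Sc i)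
      = (Ideal.Quotient.mk (Ideal.span {gl ν K})).comp (Sb i) := by
    apply MvPolynomial.ringHom_ext
    · intro a
      rw [RingHom.comp_apply, RingHom.comp_apply, Sb_C, Sc, eval₂Hom_C]
    · intro k
      rw [RingHom.comp_apply, RingHom.comp_apply, Sb_X, Sc, eval₂Hom_X']
      split_ifs with h
      · subst h
        rw [Ideal.Quotient.eq, Ideal.mem_span_singleton]
        refine ⟨1, ?_⟩
        rw [mul_one, gl, sub_neg_eq_add, ← Finset.add_sum_erase _ _ (Finset.mem_univ k)]
        rw [mul_comm (C (X k)) (X k)]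
        congr 1
        exact Finset.sum_congr rfl fun j _ => mul_comm _ _
      · rfl
  exact RingHom.congr_fun h Y

/-- the matrix of the substitution -/
noncomputable def Mt (i : Fin ν) (t : Fin ν → K) : Fin ν → Fin ν → K := fun j k =>
  if j = i then (if k = i then 0 else -t k) else (if k = i then t j else 0)

lemma Mt_skew (i : Fin ν) (t : Fin ν → K) : Skew (Mt i t) := by
  constructor
  · intro j
    simp only [Mt]
    split_ifs <;> rfl
  · intro j k
    simp only [Mt]
    split_ifs <;> simp

lemma evt_Sb (i : Fin ν) (t : Fin ν → K) (Y : RTv ν K) : evt t (Sb i Y) = sg (Mt i t) Y := by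
  classical
  have h : (evt t).comp (Sb i) = sg (Mt i t) := by
    apply MvPolynomial.ringHom_ext
    · intro a
      rw [RingHom.comp_apply, Sb_C, evt_C, sg_C]
    · intro k
      rw [RingHom.comp_apply, Sb_X, sg_X, mx]
      split_ifs with h
      · subst h
        rw [map_neg, map_sum, ← Finset.add_sum_erase _ _ (Finset.mem_univ k)]
        have h1 : Mt k t k k = 0 := (Mt_skew k t).1 k
        rw [h1, C_0, zero_mul, zero_add, ← Finset.sum_neg_distrib]
        refine Finset.sum_congr rfl fun j hj => ?_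
        have hjk : j ≠ k := (Finset.mem_erase.1 hj).1
        have h2 : Mt k t k j = -t j := by
          simp only [Mt, if_pos, if_neg hjk]
        rw [h2, map_mul, evt_C, evt_X, C_neg]
        ring
      · rw [map_mul, evt_C, evt_X, Finset.sum_eq_single i]
        · have h2 : Mt i t k i = t k := by
            simp only [Mt, if_neg h, if_pos]
          rw [h2]
          ring
        · intro j _ hj
          have h2 : Mt i t k j = 0 := by
            simp only [Mt, if_neg h, if_neg hj]
          rw [h2, C_0, zero_mul]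
        · intro h3; exact absurd (Finset.mem_univ i) h3
  exact RingHom.congr_fun h Y


end detect

end Pool.Agent.H868.TS
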