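import Pool.Agent.H868.TS.Cc

/-!
Hilbert functions of homogeneous ideals. (As in four variables, `Q5.Hilb`.)
-/

namespace Pool.Agent.H868.TS

set_option maxHeartbeats 400000
set_option linter.unusedSectionVars false

open MvPolynomial
open Pool.Agent.TH61.SL (hc comp_mul hc_zero hc_hom comp_self comp_ne)
open H503R3.QCI (Homog)

variable {ν : ℕ} {K : Type*} [Field K]

/-- forms of degree `n` -/
abbrev G (ν : ℕ) (K : Type*) [Field K] (n : ℕ) : Submodule K (Rv ν K) := homogeneousSubmodule (Fin ν) K n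

lemma mem_G {n : ℕ} {x : Rv ν K} : x ∈ G ν K n ↔ x.IsHomogeneous n := mem_homogeneousSubmodule _ _

instance finG (n : ℕ) : Module.Finite K (G ν K n) :=
  Module.Finite.iff_fg.2 (homogeneousSubmodule_fg _ _ n)

/-- the forms of degree `n` in an ideal -/
noncomputable def cm (I : Ideal (Rv ν K)) (n : ℕ) : Submodule K (G ν K n) :=
  (I.restrictScalars K).comap (G ν K n).subtype

lemma mem_cm {I : Ideal (Rv ν K)} {n : ℕ} {x : G ν K n} : x ∈ cm I n ↔ (x : Rv ν K) ∈ I := Iff.rfl

/-- the Hilbert function of the quotient by `I` -/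
noncomputable def q (I : Ideal (Rv ν K)) (n : ℕ) : ℕ := Module.finrank K (G ν K n ⧸ cm I n)

/-- the Hilbert function at `n - d` -/
noncomputable def hq (d : ℕ) (I : Ideal (Rv ν K)) (n : ℕ) : ℕ := if d ≤ n then q I (n - d) else 0

lemma q_mono {I J : Ideal (Rv ν K)} {n : ℕ} (h : ∀ x : Rv ν K, x.IsHomogeneous n → x ∈ I → x ∈ J) :
    q J n ≤ q I n := by
  have h1 : cm I n ≤ cm J n := fun x hx => h x (mem_G.1 x.2) hx
  have h2 := LinearMap.finrank_le_finrank_of_surjective (Submodule.factor_surjective h1)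
  exact h2

/-- multiplication by a form -/
noncomputable def mulF {F : Rv ν K} {d : ℕ} (hF : F.IsHomogeneous d) {n : ℕ} (hn : d ≤ n) :
    G ν K (n - d) →ₗ[K] G ν K n :=
  ((LinearMap.mulLeft K F).domRestrict (G ν K (n - d))).codRestrict (G ν K n) fun x => by
    rw [mem_G]
    have h1 := hF.mul (mem_G.1 x.2)
    rwa [Nat.add_sub_cancel' hn] at h1

lemma mulF_apply {F : Rv ν K} {d : ℕ} (hF : F.IsHomogeneous d) {n : ℕ} (hn : d ≤ n)
    (x : G ν K (n - d)) : (mulF hF hn x : Rv ν K) = F * x := rfl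

lemma cm_le {I : Ideal (Rv ν K)} {F : Rv ν K} {d : ℕ} (hF : F.IsHomogeneous d) {n : ℕ} (hn : d ≤ n) :
    cm I (n - d) ≤ (cm I n).comap (mulF hF hn) := fun x hx => by
  rw [Submodule.mem_comap, mem_cm, mulF_apply]
  exact I.mul_mem_left _ hx

/-- the induced map -/
noncomputable def mu {I : Ideal (Rv ν K)} {F : Rv ν K} {d : ℕ} (hF : F.IsHomogeneous d) {n : ℕ}
    (hn : d ≤ n) : (G ν K (n - d) ⧸ cm I (n - d)) →ₗ[K] (G ν K n ⧸ cm I n) :=
  Submodule.mapQ _ _ (mulF hF hn) (cm_le hF hn)

lemma ker_factor {I : Ideal (Rv ν K)} (hI : Homog I) {F : Rv ν K} {d : ℕ} (hF : F.IsHomogeneous d)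
    {n : ℕ} (hn : d ≤ n) (h : cm I n ≤ cm (I ⊔ Ideal.span {F}) n) :
    LinearMap.ker (Submodule.factor h) = LinearMap.range (mu (I := I) hF hn) := by
  ext x
  obtain ⟨x, rfl⟩ := Submodule.Quotient.mk_surjective _ x
  rw [LinearMap.mem_ker]
  change Submodule.Quotient.mk x = 0 ↔ _
  rw [Submodule.Quotient.mk_eq_zero, mem_cm, LinearMap.mem_range]
  constructor
  · intro hx
    rw [sup_comm, Ideal.mem_span_singleton_sup] at hx
    obtain ⟨s, i, hi, h1⟩ := hx
    have h2 := congrArg (homogeneousComponent n) h1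
    rw [map_add, comp_mul hF, comp_self (mem_G.1 x.2)] at h2
    refine ⟨Submodule.Quotient.mk ⟨hc d n s, ?_⟩, ?_⟩
    · rw [mem_G]; exact hc_hom _
    · change Submodule.Quotient.mk (mulF hF hn _) = _
      rw [Submodule.Quotient.eq, mem_cm]
      change F * hc d n s - x ∈ I
      rw [← h2]
      have h3 : F * hc d n s - (hc d n s * F + homogeneousComponent n i)
          = -homogeneousComponent n i := by ring
      rw [h3]
      exact I.neg_mem (hI i hi n)
  · rintro ⟨y, hy⟩
    obtain ⟨y, rfl⟩ := Submodule.Quotient.mk_surjective _ y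
    change Submodule.Quotient.mk (mulF hF hn y) = _ at hy
    rw [Submodule.Quotient.eq, mem_cm] at hy
    change F * y - x ∈ I at hy
    have h3 : (x : Rv ν K) = F * y - (F * y - x) := by ring
    rw [h3]
    exact Ideal.sub_mem _ (Ideal.mem_sup_right
      (Ideal.mul_mem_right _ _ (Ideal.mem_span_singleton_self _))) (Ideal.mem_sup_left hy)

lemma cm_low {I : Ideal (Rv ν K)} (hI : Homog I) {F : Rv ν K} {d : ℕ} (hF : F.IsHomogeneous d)
    {n : ℕ} (hn : n < d) : cm (I ⊔ Ideal.span {F}) n = cm I n := by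
  ext x
  rw [mem_cm, mem_cm]
  constructor
  · intro hx
    rw [sup_comm, Ideal.mem_span_singleton_sup] at hx
    obtain ⟨s, i, hi, h1⟩ := hx
    have h2 := congrArg (homogeneousComponent n) h1
    rw [map_add, comp_mul hF, comp_self (mem_G.1 x.2), hc_zero hn, zero_mul, zero_add] at h2
    rw [← h2]
    exact hI i hi n
  · exact fun h => Ideal.mem_sup_left h

lemma q_le {I : Ideal (Rv ν K)} (hI : Homog I) {F : Rv ν K} {d : ℕ} (hF : F.IsHomogeneous d) (n : ℕ) :
    q I n ≤ q (I ⊔ Ideal.span {F}) n + hq d I n := by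
  by_cases hn : d ≤ n
  · have h : cm I n ≤ cm (I ⊔ Ideal.span {F}) n := fun x hx => Ideal.mem_sup_left hx
    have h1 := LinearMap.finrank_range_add_finrank_ker (Submodule.factor h)
    rw [ker_factor hI hF hn h, LinearMap.range_eq_top.2 (Submodule.factor_surjective h),
      finrank_top] at h1
    have h2 := LinearMap.finrank_range_le (mu (I := I) hF hn)
    rw [hq, if_pos hn]
    rw [q, q, q]
    omega
  · rw [q, q, cm_low hI hF (by omega)]
    omega

lemma q_eq {I : Ideal (Rv ν K)} (hI : Homog I) {F : Rv ν K} {d : ℕ} (hF : F.IsHomogeneous d)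
    (hnz : ∀ x, F * x ∈ I → x ∈ I) (n : ℕ) :
    q I n = q (I ⊔ Ideal.span {F}) n + hq d I n := by
  by_cases hn : d ≤ n
  · have h : cm I n ≤ cm (I ⊔ Ideal.span {F}) n := fun x hx => Ideal.mem_sup_left hx
    have h1 := LinearMap.finrank_range_add_finrank_ker (Submodule.factor h)
    rw [ker_factor hI hF hn h, LinearMap.range_eq_top.2 (Submodule.factor_surjective h),
      finrank_top] at h1
    have hinj : Function.Injective (mu (I := I) hF hn) := by
      rw [← LinearMap.ker_eq_bot, LinearMap.ker_eq_bot']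
      intro x hx
      obtain ⟨x, rfl⟩ := Submodule.Quotient.mk_surjective _ x
      change Submodule.Quotient.mk (mulF hF hn x) = 0 at hx
      rw [Submodule.Quotient.mk_eq_zero, mem_cm, mulF_apply] at hx
      rw [Submodule.Quotient.mk_eq_zero, mem_cm]
      exact hnz _ hx
    have h2 := LinearMap.finrank_range_of_inj hinj
    rw [hq, if_pos hn]
    rw [q, q, q]
    omega
  · rw [hq, if_neg hn, q, q, cm_low hI hF (by omega), Nat.add_zero]


end Pool.Agent.H868.TS
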