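import Pool.Agent.H868.TS.Dd

/-!
Nonzerodivisors in spaces of forms modulo `(P, s)`; the colon ideal of a syzygy and the comparison of
its Hilbert function with those of a hyperplane section and of `(P, F_a)`; the inequality of degrees.
(As in four variables for a principal ideal `P`, `Q5.Nzd`, `Q5.Cut`, `Q5.Up`.)
-/

namespace Pool.Agent.H868.TS

set_option maxHeartbeats 400000
set_option linter.unusedSectionVars false

open MvPolynomial
open Pool.Agent.TH61.SL (hc comp_mul hc_zero hc_hom comp_self comp_ne)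
open H503R3.QCI (Homog NZD Reg homog_span)

variable {ν : ℕ} {K : Type*} [Field K]

/-- a nonzerodivisor in a space `U` of polynomials, outside a given subspace `H` -/
theorem exists_nzd [Infinite K] {J : Ideal (Rv ν K)} {U : Submodule K (Rv ν K)}
    (hU : ∀ w, (∀ u ∈ U, u * w ∈ J) → w ∈ J) {H : Submodule K (Rv ν K)} (hH : ¬ U ≤ H) :
    ∃ c ∈ U, (∀ x, c * x ∈ J → x ∈ J) ∧ c ∉ H := by
  classical
  have hfin := associatedPrimes.finite (Rv ν K) (Rv ν K ⧸ J)
  have hun := biUnion_associatedPrimes_eq_zero_divisors (Rv ν K) (Rv ν K ⧸ J)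
  let Vp : Ideal (Rv ν K) → Submodule K U :=
    fun p => (p.restrictScalars K).comap U.subtype
  let s : Finset (Submodule K U) := insert (H.comap U.subtype) (hfin.toFinset.image Vp)
  have hs : (⊤ : Submodule K U) ∉ s := by
    intro htop
    rcases Finset.mem_insert.mp htop with htop | htop
    · apply hH
      intro u hu
      have h1 : (⟨u, hu⟩ : U) ∈ H.comap U.subtype := by rw [← htop]; exact Submodule.mem_top
      exact h1
    · obtain ⟨p, hp, hpt⟩ := Finset.mem_image.mp htop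
      rw [Set.Finite.mem_toFinset] at hp
      obtain ⟨hprime, x, hx⟩ := (isAssociatedPrime_iff).mp hp
      obtain ⟨w, rfl⟩ := Ideal.Quotient.mk_surjective x
      have hmem : ∀ r, r ∈ p ↔ r * w ∈ J := by
        intro r
        rw [hx, Submodule.mem_colon_singleton, Submodule.mem_bot]
        have : r • Ideal.Quotient.mk J w = Ideal.Quotient.mk J (r * w) := rfl
        rw [this, Ideal.Quotient.eq_zero_iff_mem]
      have hw : w ∈ J := hU w fun u hu => by
        have h1 : (⟨u, hu⟩ : U) ∈ Vp p := by rw [hpt]; exact Submodule.mem_top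
        exact (hmem u).1 h1
      apply hprime.ne_top
      rw [Ideal.eq_top_iff_one, hmem, one_mul]
      exact hw
  have hne := Subspace.biUnion_ne_univ_of_top_notMem hs
  obtain ⟨c, hc⟩ := (Set.ne_univ_iff_exists_notMem _).mp hne
  refine ⟨c, c.2, ?_, ?_⟩
  · intro g hg
    by_contra hgJ
    have h1 : (c : Rv ν K) ∈ {r : Rv ν K | ∃ x : Rv ν K ⧸ J, x ≠ 0 ∧ r • x = 0} := by
      refine ⟨Ideal.Quotient.mk J g, ?_, ?_⟩
      · rwa [Ne, Ideal.Quotient.eq_zero_iff_mem]
      · have h2 : Ideal.Quotient.mk J (c * g) = 0 := Ideal.Quotient.eq_zero_iff_mem.mpr hg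
        exact h2
    rw [← hun] at h1
    obtain ⟨p, hp, hqp⟩ := Set.mem_iUnion₂.mp h1
    apply hc
    refine Set.mem_biUnion (x := Vp p) ?_ ?_
    · exact Finset.mem_coe.mpr (Finset.mem_insert_of_mem (Finset.mem_image.mpr
        ⟨p, (Set.Finite.mem_toFinset _).mpr hp, rfl⟩))
    · exact hqp
  · intro hcH
    apply hc
    refine Set.mem_biUnion (x := H.comap U.subtype) ?_ hcH
    exact Finset.mem_coe.mpr (Finset.mem_insert_self _ _)

/-- elements killed by all forms of a given degree -/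
lemma sat_pow {J : Ideal (Rv ν K)} (hJ : Sat J) : ∀ (k : ℕ) (y : Rv ν K),
    (∀ g : Rv ν K, g.IsHomogeneous k → g * y ∈ J) → y ∈ J := by
  intro k
  induction k with
  | zero =>
    intro y h
    have := h 1 (isHomogeneous_one _ _)
    rwa [one_mul] at this
  | succ k ih =>
    intro y h
    apply hJ
    intro j
    apply ih
    intro g hg
    rw [← mul_assoc]
    exact h _ (hg.mul (isHomogeneous_X K j))

/-- membership in `(P, s)` -/
lemma mem_sup' {P : Ideal (Rv ν K)} {s y : Rv ν K} :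
    y ∈ P ⊔ Ideal.span {s} ↔ ∃ α, y - s * α ∈ P := by
  rw [sup_comm, Ideal.mem_span_singleton_sup]
  constructor
  · rintro ⟨α, b, hb, rfl⟩
    refine ⟨α, ?_⟩
    have h : α * s + b - s * α = b := by ring
    rwa [h]
  · rintro ⟨α, h⟩
    exact ⟨α, y - s * α, h, by ring⟩

/-- a general combination of `F` and the multiples of `f` is a nonzerodivisor modulo `(P, s)` -/
lemma exists_comb [Infinite K] {P : Ideal (Rv ν K)} {s f F : Rv ν K} {k : ℕ} (hP : P.IsPrime)
    (hsp : s ∉ P) (hsat : Sat (P ⊔ Ideal.span {s}))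
    (h0 : ∀ x, f * x ∈ P → x ∈ P)
    (h1 : ∀ x, F * x ∈ P ⊔ Ideal.span {f} → x ∈ P ⊔ Ideal.span {f})
    (htop : (1 : Rv ν K) ∉ P ⊔ Ideal.span {f}) :
    ∃ (μ : K) (g : Rv ν K), μ ≠ 0 ∧ g.IsHomogeneous k ∧
      (∀ x, (C μ * F + f * g) * x ∈ P ⊔ Ideal.span {s} →
        x ∈ P ⊔ Ideal.span {s}) := by
  classical
  set J := P ⊔ Ideal.span {s} with hJ
  -- the space
  let Φ : (K × G ν K k) →ₗ[K] Rv ν K :=
    (LinearMap.toSpanSingleton K (Rv ν K) F).coprod
      ((LinearMap.mulLeft K f) ∘ₗ (G ν K k).subtype)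
  have hΦ : ∀ (μ : K) (g : G ν K k), Φ (μ, g) = C μ * F + f * (g : Rv ν K) := by
    intro μ g
    rw [← smul_eq_C_mul]
    rfl
  let Hs : Submodule K (Rv ν K) := (G ν K k).map (LinearMap.mulLeft K f)
  obtain ⟨u, hu, hunz, huH⟩ := exists_nzd (J := J) (U := LinearMap.range Φ) (H := Hs) (by
    intro w hw
    apply sat_pow hsat k
    intro g hg
    have a1 : F * w ∈ J := by
      have := hw (Φ (1, 0)) ⟨_, rfl⟩
      rw [hΦ] at this
      simpa using this
    have a2 : (f * g) * w ∈ J := by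
      have := hw (Φ (0, ⟨g, mem_G.2 hg⟩)) ⟨_, rfl⟩
      rw [hΦ] at this
      simpa using this
    obtain ⟨α, hα⟩ := mem_sup'.1 a1
    obtain ⟨β, hβ⟩ := mem_sup'.1 a2
    have b1 : s * (F * β - f * g * α) ∈ P := by
      have e : s * (F * β - f * g * α) = f * g * (F * w - s * α) - F * (f * g * w - s * β) := by
        ring
      rw [e]
      exact P.sub_mem (P.mul_mem_left _ hα) (P.mul_mem_left _ hβ)
    have b1' := (hP.mem_or_mem b1).resolve_left hsp
    have b2 : β ∈ P ⊔ Ideal.span {f} := by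
      apply h1
      exact mem_sup'.2 ⟨g * α, by
        have e : F * β - f * (g * α) = F * β - f * g * α := by ring
        rwa [e]⟩
    obtain ⟨δ, hδ⟩ := mem_sup'.1 b2
    have b4 : g * w - s * δ ∈ P := by
      apply h0
      have e : f * (g * w - s * δ) = (f * g * w - s * β) + s * (β - f * δ) := by ring
      rw [e]
      exact P.add_mem hβ (P.mul_mem_left _ hδ)
    exact mem_sup'.2 ⟨δ, b4⟩) (by
    intro hle
    have h2 : F ∈ Hs := by
      apply hle
      refine ⟨(1, 0), ?_⟩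
      rw [hΦ]
      simp
    obtain ⟨g, hg, hgF⟩ := h2
    have h3 : f * g = F := hgF
    apply htop
    apply h1
    rw [mul_one, ← h3]
    exact Ideal.mem_sup_right (Ideal.mul_mem_right _ _ (Ideal.mem_span_singleton_self _)))
  obtain ⟨⟨μ, g⟩, rfl⟩ := hu
  rw [hΦ] at hunz huH
  refine ⟨μ, g, ?_, mem_G.1 g.2, hunz⟩
  rintro rfl
  apply huH
  rw [C_0, zero_mul, zero_add]
  exact ⟨g, g.2, rfl⟩

lemma sg_hom {e n : ℕ} {Y : RTv ν K} (h1 : Y.IsHomogeneous e) (h2 : XH n Y)
    (M : Fin ν → Fin ν → K) : (sg M Y).IsHomogeneous (e + n) := by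
  classical
  rw [sg, eval_eq']
  refine IsHomogeneous.sum _ _ _ fun m hm => ?_
  have hm' : ∑ j, m j = e := by
    have h3 : m.degree = e := degree_of_mem_support h1 hm
    rw [← h3, Finsupp.degree_eq_sum]
  have h4 : (∏ i, mx M i ^ m i).IsHomogeneous e := by
    have h5 := IsHomogeneous.prod Finset.univ (fun i => mx M i ^ m i) (fun i => m i)
      (fun i _ => by
        have := (mx_hom M i).pow (m i)
        rwa [one_mul] at this)
    rwa [hm'] at h5
  have h6 := (h2 m).mul h4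
  rwa [add_comm] at h6

lemma eval_zero_hom {f : Rv ν K} {d : ℕ} (hf : f.IsHomogeneous d) (hd : 1 ≤ d) :
    eval (0 : Fin ν → K) f = 0 := by
  have h1 : coeff 0 f = 0 := hf.coeff_eq_zero (by
    rw [map_zero]
    omega)
  rw [← constantCoeff_eq] at h1
  rw [← h1]
  have h2 := eval_zero (R := K) (σ := Fin ν)
  exact RingHom.congr_fun h2 f

lemma homog_sup {P : Ideal (Rv ν K)} (hP : Homog P) {f : Rv ν K} {a : ℕ} (hf : f.IsHomogeneous a) :
    Homog (P ⊔ Ideal.span {f}) := by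
  intro x hx n
  rw [sup_comm, Ideal.mem_span_singleton_sup] at hx ⊢
  obtain ⟨s, p, hp, rfl⟩ := hx
  exact ⟨hc a n s, homogeneousComponent n p, hP p hp n, by rw [map_add, comp_mul hf]⟩

/-- the colon ideal of a vector -/
def VV (P : Ideal (Rv ν K)) (s : Fin 3 → Rv ν K) (b : Fin 3) : Ideal (Rv ν K) where
  carrier := {g | ∀ a, s a * g ∈ P ⊔ Ideal.span {s b}}
  zero_mem' := fun _ => by rw [mul_zero]; exact Ideal.zero_mem _
  add_mem' := fun hx hy a => by rw [mul_add]; exact Ideal.add_mem _ (hx a) (hy a)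
  smul_mem' := fun c x hx a => by
    rw [smul_eq_mul, mul_left_comm]; exact Ideal.mul_mem_left _ _ (hx a)

lemma mem_VV {P : Ideal (Rv ν K)} {s : Fin 3 → Rv ν K} {b : Fin 3} {g : Rv ν K} :
    g ∈ VV P s b ↔ ∀ a, s a * g ∈ P ⊔ Ideal.span {s b} := Iff.rfl

lemma le_VV {P : Ideal (Rv ν K)} {s : Fin 3 → Rv ν K} {b : Fin 3} : P ≤ VV P s b :=
  fun _ hx a => Ideal.mem_sup_left (P.mul_mem_left _ hx)

lemma VV_homog {P : Ideal (Rv ν K)} (hP : Homog P) {s : Fin 3 → Rv ν K} {b : Fin 3}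
    (hs : ∀ a, ∃ m, (s a).IsHomogeneous m) : Homog (VV P s b) := by
  intro x hx n
  rw [mem_VV] at hx ⊢
  intro a
  obtain ⟨m, hm⟩ := hs a
  obtain ⟨m', hm'⟩ := hs b
  have h1 := homog_sup hP hm' _ (hx a) (m + n)
  rw [mul_comm, comp_mul hm, hc, if_pos (by omega), Nat.add_sub_cancel_left] at h1
  rw [mul_comm]
  exact h1

/-- the constants are not in a homogeneous prime ideal -/
lemma eval_zero_mem {P : Ideal (Rv ν K)} (hP : P.IsPrime) (hPh : Homog P) {x : Rv ν K} (hx : x ∈ P) :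
    eval (0 : Fin ν → K) x = 0 := by
  by_contra h
  apply hP.ne_top
  rw [Ideal.eq_top_iff_one]
  have h1 := hPh x hx 0
  rw [homogeneousComponent_zero] at h1
  have h2 : coeff 0 x ≠ 0 := by
    intro h0
    apply h
    have h3 := eval_zero (R := K) (σ := Fin ν)
    rw [RingHom.congr_fun h3 x, constantCoeff_eq, h0]
  have h4 : (1 : Rv ν K) = C (coeff 0 x)⁻¹ * C (coeff 0 x) := by
    rw [← C_mul, inv_mul_cancel₀ h2, C_1]
  rw [h4]
  exact P.mul_mem_left _ h1

section lower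

variable {P : Ideal (Rv ν K)} {s F : Fin 3 → Rv ν K} {a b c : Fin 3}

/-- the vector `s` is a syzygy -/
lemma VV_le (hP : P.IsPrime) (hsb : s b ∉ P)
    (hrel : F a * s a + F b * s b + F c * s c ∈ P)
    (nb : ∀ x, F b * x ∈ P ⊔ Ideal.span {F a} ⊔ Ideal.span {F c} →
      x ∈ P ⊔ Ideal.span {F a} ⊔ Ideal.span {F c}) :
    VV P s b ≤ P ⊔ Ideal.span {F a} ⊔ Ideal.span {F c} := by
  intro g hg
  obtain ⟨α, hα⟩ := mem_sup'.1 (hg a)
  obtain ⟨γ, hγ⟩ := mem_sup'.1 (hg c)
  have h1 : s b * (F a * α + F b * g + F c * γ) ∈ P := by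
    have e : s b * (F a * α + F b * g + F c * γ)
        = g * (F a * s a + F b * s b + F c * s c) - F a * (s a * g - s b * α)
          - F c * (s c * g - s b * γ) := by ring
    rw [e]
    exact P.sub_mem (P.sub_mem (P.mul_mem_left _ hrel) (P.mul_mem_left _ hα))
      (P.mul_mem_left _ hγ)
  have hη := (hP.mem_or_mem h1).resolve_left hsb
  apply nb
  have h2 : F b * g = (F a * α + F b * g + F c * γ) + F a * (-α) + F c * (-γ) := by ring
  rw [h2]
  exact Ideal.add_mem _ (Ideal.add_mem _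
    (Ideal.mem_sup_left (Ideal.mem_sup_left hη))
    (Ideal.mem_sup_left (Ideal.mem_sup_right (Ideal.mem_span_singleton.2 ⟨_, rfl⟩))))
    (Ideal.mem_sup_right (Ideal.mem_span_singleton.2 ⟨_, rfl⟩))

/-- **the lower bound** -/
theorem lower [Infinite K] {d : Fin 3 → ℕ} (hP : P.IsPrime) (hPh : Homog P)
    (hs : ∀ a, ∃ m, (s a).IsHomogeneous m) (hF : ∀ a, (F a).IsHomogeneous (d a))
    (hda : 1 ≤ d a) (hac : d a ≤ d c) (hsb : s b ∉ P) (hsat : Sat (P ⊔ Ideal.span {s b}))
    (hrel : F a * s a + F b * s b + F c * s c ∈ P)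
    (na : ∀ x, F a * x ∈ P → x ∈ P)
    (nc : ∀ x, F c * x ∈ P ⊔ Ideal.span {F a} →
      x ∈ P ⊔ Ideal.span {F a})
    (nb : ∀ x, F b * x ∈ P ⊔ Ideal.span {F a} ⊔ Ideal.span {F c} →
      x ∈ P ⊔ Ideal.span {F a} ⊔ Ideal.span {F c}) (n : ℕ) :
    q (P ⊔ Ideal.span {F a}) n ≤ q (VV P s b) n := by
  have htop : (1 : Rv ν K) ∉ P ⊔ Ideal.span {F a} := by
    intro h
    have h1 : P ⊔ Ideal.span {F a} ≤ RingHom.ker (eval (0 : Fin ν → K)) := by
      rw [sup_le_iff, Ideal.span_le]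
      constructor
      · intro x hx
        exact eval_zero_mem hP hPh hx
      · rintro _ rfl
        exact eval_zero_hom (hF a) hda
    have h2 : eval (0 : Fin ν → K) (1 : Rv ν K) = 0 := h1 h
    rw [map_one] at h2
    exact one_ne_zero h2
  obtain ⟨μ, g, hμ, hg, hnz⟩ := exists_comb (k := d c - d a) hP hsb hsat na nc htop
  set F' := C μ * F c + F a * g with hF'
  have hF'h : F'.IsHomogeneous (d c) := by
    have h1 := (hF a).mul hg
    rw [Nat.add_sub_cancel' hac] at h1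
    exact ((hF c).C_mul μ).add h1
  have hμ1 : (C μ⁻¹ : Rv ν K) * C μ = 1 := by rw [← C_mul, inv_mul_cancel₀ hμ, C_1]
  -- the new form is regular modulo `VV` and modulo `(P, F a)`
  have hn1 : ∀ x, F' * x ∈ VV P s b → x ∈ VV P s b := by
    intro x hx a'
    apply hnz
    have h1 := hx a'
    rwa [mul_left_comm] at h1
  have hn2 : ∀ x, F' * x ∈ P ⊔ Ideal.span {F a} →
      x ∈ P ⊔ Ideal.span {F a} := by
    intro x hx
    apply nc
    have h1 : F c * x = C μ⁻¹ * (F' * x) - F a * (C μ⁻¹ * g * x) := by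
      rw [hF']
      linear_combination (-(F c * x)) * hμ1
    rw [h1]
    exact Ideal.sub_mem _ (Ideal.mul_mem_left _ _ hx)
      (Ideal.mem_sup_right (Ideal.mul_mem_right _ _ (Ideal.mem_span_singleton_self _)))
  have hle : VV P s b ⊔ Ideal.span {F'}
      ≤ P ⊔ Ideal.span {F a} ⊔ Ideal.span {F'} := by
    refine sup_le ((VV_le hP hsb hrel nb).trans ?_) le_sup_right
    refine sup_le le_sup_left ?_
    rw [Ideal.span_singleton_le_iff_mem]
    have h1 : F c = C μ⁻¹ * F' - F a * (C μ⁻¹ * g) := by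
      rw [hF']
      linear_combination (-(F c)) * hμ1
    rw [h1]
    exact Ideal.sub_mem _ (Ideal.mul_mem_left _ _ (Ideal.mem_sup_right
      (Ideal.mem_span_singleton_self _))) (Ideal.mem_sup_left (Ideal.mem_sup_right
        (Ideal.mul_mem_right _ _ (Ideal.mem_span_singleton_self _))))
  induction n using Nat.strong_induction_on with
  | _ n ih =>
    have h1 := q_eq (VV_homog (b := b) hPh hs) hF'h hn1 n
    have h2 := q_eq (homog_sup hPh (hF a)) hF'h hn2 n
    have h3 : q (P ⊔ Ideal.span {F a} ⊔ Ideal.span {F'}) n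
        ≤ q (VV P s b ⊔ Ideal.span {F'}) n := q_mono fun x _ hx => hle hx
    have h4 : hq (d c) (P ⊔ Ideal.span {F a}) n
        ≤ hq (d c) (VV P s b) n := by
      rw [hq, hq]
      split_ifs with h
      · exact ih (n - d c) (by omega)
      · exact le_rfl
    omega

end lower

/-- the multiples by the forms of large degree -/
lemma mem_of_pow (hν : 1 ≤ ν) {I : Ideal (Rv ν K)} {w : Rv ν K} {r : ℕ} (h : ∀ i, (X i : Rv ν K) ^ r * w ∈ I) {k : ℕ}
    (hk : ν * r ≤ k) {g : Rv ν K} (hg : g.IsHomogeneous k) : g * w ∈ I := by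
  classical
  rw [g.as_sum, Finset.sum_mul]
  refine Ideal.sum_mem _ fun m hm => ?_
  have h1 : ∑ j, m j = k := by
    have h2 : m.degree = k := by
      by_contra hne
      exact (mem_support_iff.1 hm) (hg.coeff_eq_zero hne)
    rw [← h2, Finsupp.degree_eq_sum]
  obtain ⟨i, hi⟩ : ∃ i, r ≤ m i := by
    by_contra hcon
    push Not at hcon
    rcases Nat.eq_zero_or_pos ν with h0 | h0
    · subst h0
      exact absurd hν (by omega)
    have h3 : ∑ j, m j < ∑ _j : Fin ν, r :=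
      Finset.sum_lt_sum_of_nonempty ⟨⟨0, h0⟩, Finset.mem_univ _⟩ fun j _ => hcon j
    rw [Finset.sum_const, Finset.card_univ, Fintype.card_fin, smul_eq_mul] at h3
    omega
  have h2 : (X i : Rv ν K) ^ r ∣ monomial m (coeff m g) := by
    have h3 : (monomial m (coeff m g) : Rv ν K)
        = monomial (Finsupp.single i r) 1 * monomial (m - Finsupp.single i r) (coeff m g) := by
      rw [monomial_mul, one_mul]
      congr 1
      rw [add_tsub_cancel_of_le]
      rw [Finsupp.single_le_iff]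
      exact hi
    rw [h3, X_pow_eq_monomial]
    exact dvd_mul_right _ _
  obtain ⟨y, hy⟩ := h2
  rw [hy, mul_assoc, mul_left_comm]
  exact Ideal.mul_mem_left _ _ (h i)

/-- the value at `t` of a syzygy is in the colon ideal up to powers of the variables -/
lemma pow_mul_mem [CharZero K] {P : Ideal (Rv ν K)} [hP : P.IsPrime] {v : Fin 3 → RTv ν K} {r : ℕ}
    (hvt : ∀ a, (v a).IsHomogeneous r) (hO : ∀ j k c, Om v j k c ∈ JJ P)
    {M : Fin ν → Fin ν → K} (hM : Skew M) (b : Fin 3) (t : Fin ν → K) (i : Fin ν) :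
    (X i) ^ r * evt t (v b) ∈ VV P (fun a => sg M (v a)) b ⊔ Ideal.span {lf t} := by
  have h1 : sg (Mt i t) (v b) ∈ VV P (fun a => sg M (v a)) b := by
    rw [mem_VV]
    intro a
    have h2 := cross hO hM (Mt_skew i t) a b
    have h3 : sg M (v a) * sg (Mt i t) (v b)
        = sg (Mt i t) (v a) * sg M (v b) - (sg (Mt i t) (v a) * sg M (v b)
          - sg (Mt i t) (v b) * sg M (v a)) := by ring
    rw [h3]
    exact Ideal.sub_mem _ (Ideal.mem_sup_right (Ideal.mul_mem_left _ _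
      (Ideal.mem_span_singleton_self _))) (Ideal.mem_sup_left h2)
  obtain ⟨y, hy⟩ := Ideal.mem_span_singleton.1 (Sb_sub_Sc i (v b))
  have h4 := congrArg (evt t) hy
  rw [map_sub, evt_Sb, Sc_hom i (hvt b), map_mul, map_pow, evt_C, map_mul, evt_gl] at h4
  have h5 : (X i) ^ r * evt t (v b) = sg (Mt i t) (v b) + lf t * evt t y := by
    linear_combination h4
  rw [h5]
  exact Ideal.add_mem _ (Ideal.mem_sup_left h1)
    (Ideal.mem_sup_right (Ideal.mul_mem_right _ _ (Ideal.mem_span_singleton_self _)))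

section upper

variable {P : Ideal (Rv ν K)}

/-- **the upper bound** -/
theorem upper (hν : 1 ≤ ν) (hPh : Homog P)
    {V : Ideal (Rv ν K)} (hV : Homog V) (hle : P ≤ V) {ℓ w : Rv ν K} {r δ : ℕ}
    (hℓ : ℓ.IsHomogeneous 1) (hw : w.IsHomogeneous δ)
    (nℓ : ∀ x, ℓ * x ∈ P → x ∈ P)
    (nw : ∀ x, w * x ∈ P ⊔ Ideal.span {ℓ} → x ∈ P ⊔ Ideal.span {ℓ})
    (hpow : ∀ i, (X i) ^ r * w ∈ V ⊔ Ideal.span {ℓ}) {n : ℕ} (hn : δ + ν * r + 1 ≤ n) :
    q V n + q P (n - 1) + q P (n - δ)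
      ≤ q V (n - 1) + q P n + q P (n - δ - 1) := by
  have hQh := homog_sup hPh hℓ
  have a1 := q_le hV hℓ n
  have a2 : q (V ⊔ Ideal.span {ℓ}) n ≤ q (P ⊔ Ideal.span {ℓ} ⊔ Ideal.span {w}) n := by
    refine q_mono fun x hx hmem => ?_
    rw [sup_comm, Ideal.mem_span_singleton_sup] at hmem
    obtain ⟨s, y, hy, h1⟩ := hmem
    have h2 := congrArg (homogeneousComponent n) h1
    rw [map_add, comp_mul hw, comp_self hx] at h2
    rw [← h2]
    refine Ideal.add_mem _ ?_ ((sup_le_sup_right hle _) (hQh y hy n))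
    rw [hc, if_pos (by omega)]
    set g := homogeneousComponent (n - δ) s with hg
    have hgh : g.IsHomogeneous (n - δ) := homogeneousComponent_isHomogeneous _ _
    exact mem_of_pow hν hpow (by omega) hgh
  have a3 := q_eq hQh hw nw n
  have a4 := q_eq hPh hℓ nℓ n
  have a5 := q_eq hPh hℓ nℓ (n - δ)
  rw [hq, if_pos (by omega)] at a1 a3 a4 a5
  omega

/-- **the inequality of degrees** -/
theorem ineq (hν : 1 ≤ ν) (hPh : Homog P) (hgr : ∀ m, q P m + (m + 2) ≤ q P (m + 1))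
    {V : Ideal (Rv ν K)} (hV : Homog V) (hle : P ≤ V) {ℓ w f : Rv ν K} {r δ a : ℕ}
    (hℓ : ℓ.IsHomogeneous 1) (hw : w.IsHomogeneous δ) (hf : f.IsHomogeneous a)
    (nℓ : ∀ x, ℓ * x ∈ P → x ∈ P)
    (nw : ∀ x, w * x ∈ P ⊔ Ideal.span {ℓ} → x ∈ P ⊔ Ideal.span {ℓ})
    (nf : ∀ x, f * x ∈ P → x ∈ P)
    (hpow : ∀ i, (X i) ^ r * w ∈ V ⊔ Ideal.span {ℓ})
    (hlow : ∀ n, q (P ⊔ Ideal.span {f}) n ≤ q V n) : a ≤ δ := by
  by_contra hcon
  push Not at hcon
  have hmono : ∀ {m n : ℕ}, m ≤ n → q P m ≤ q P n := by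
    intro m n hmn
    induction n, hmn using Nat.le_induction with
    | base => exact le_rfl
    | succ n hn ih =>
      have := hgr n
      omega
  set n0 := δ + ν * r + 1 + a with hn0
  have h1 : ∀ k, q V (n0 + k) + q P (n0 + k - δ) ≤ q P (n0 + k) + (q V n0 + q P (n0 - δ)) := by
    intro k
    induction k with
    | zero =>
      rw [Nat.add_zero]
      omega
    | succ k ih =>
      have h2 := upper hν hPh hV hle hℓ hw nℓ nw hpow (n := n0 + (k + 1)) (by omega)
      have e1 : n0 + (k + 1) - 1 = n0 + k := by omega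
      have e2 : n0 + (k + 1) - δ - 1 = n0 + k - δ := by omega
      rw [e1, e2] at h2
      omega
  set Cc := q V n0 + q P (n0 - δ) with hCc
  have h3 := h1 Cc
  have h4 := hlow (n0 + Cc)
  have h5 := q_eq hPh hf nf (n0 + Cc)
  rw [hq, if_pos (by omega)] at h5
  have h6 : q P (n0 + Cc - a) + (n0 + Cc - a + 2) ≤ q P (n0 + Cc - δ) := by
    have h7 := hgr (n0 + Cc - a)
    have h8 := hmono (m := n0 + Cc - a + 1) (n := n0 + Cc - δ) (by omega)
    omega
  omega

end upper

/-- a graded piece is not contained in the ideal -/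
lemma one_le_q {I : Ideal (Rv ν K)} (hI : Sat I) (h1 : (1 : Rv ν K) ∉ I) (m : ℕ) : 1 ≤ q I m := by
  by_contra hcon
  have h2 : q I m = 0 := by omega
  have h3 : cm I m = ⊤ := by
    rw [q] at h2
    have h4 : Subsingleton (G ν K m ⧸ cm I m) := Module.finrank_zero_iff.1 h2
    exact Submodule.Quotient.subsingleton_iff.1 h4
  apply h1
  apply sat_pow hI m
  intro g hg
  have h4 : (⟨g, mem_G.2 hg⟩ : G ν K m) ∈ cm I m := by
    rw [h3]
    exact Submodule.mem_top
  rw [mul_one]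
  exact h4

/-- growth of the Hilbert function -/
lemma growth {P : Ideal (Rv ν K)} (hPh : Homog P) {ℓ ℓ' : Rv ν K} (hℓ : ℓ.IsHomogeneous 1)
    (hℓ' : ℓ'.IsHomogeneous 1) (nℓ : ∀ x, ℓ * x ∈ P → x ∈ P)
    (nℓ' : ∀ x, ℓ' * x ∈ P ⊔ Ideal.span {ℓ} → x ∈ P ⊔ Ideal.span {ℓ})
    (h : ∀ m, 1 ≤ q (P ⊔ Ideal.span {ℓ} ⊔ Ideal.span {ℓ'}) m) (m : ℕ) :
    q P m + (m + 2) ≤ q P (m + 1) := by
  have hQh := homog_sup hPh hℓ
  have h1 : ∀ m, m + 1 ≤ q (P ⊔ Ideal.span {ℓ}) m := by
    intro m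
    induction m with
    | zero =>
      have h2 := q_eq hQh hℓ' nℓ' 0
      have := h 0
      omega
    | succ m ih =>
      have h2 := q_eq hQh hℓ' nℓ' (m + 1)
      rw [hq, if_pos (by omega), Nat.add_sub_cancel] at h2
      have := h (m + 1)
      omega
  have h3 := q_eq hPh hℓ nℓ (m + 1)
  rw [hq, if_pos (by omega), Nat.add_sub_cancel] at h3
  have := h1 (m + 1)
  omega


end Pool.Agent.H868.TS
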