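import Pool.Agent.H868.TS.E
import Pool.Graph.R_seed8.TH130.CI.Cb
import Mathlib.RingTheory.GradedAlgebra.Radical

/-!
The degree of a constant syzygy on a surface; saturation for prime complete intersections; the ideal
`(ℓ, P)` is prime; the field of fractions of `K[t]`.
-/

namespace Pool.Agent.H868.TS

set_option maxHeartbeats 400000
set_option linter.unusedSectionVars false

open MvPolynomial
open Pool.Agent.TH61.SL (hc comp_mul hc_zero hc_hom comp_self comp_ne)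
open H503R3.QCI (Homog NZD Reg homog_span)
open TH130CI (SRegOn sreg_of_reg reg_snoc range_snoc')

universe u

variable {ν : ℕ}

section cut

variable {K : Type*} [Field K]

lemma lf_pair_notMem {P : Ideal (Rv ν K)} (hP : P.IsPrime) (hPh : Homog P) {ℓ ℓ' : Rv ν K}
    (hℓ : ℓ.IsHomogeneous 1) (hℓ' : ℓ'.IsHomogeneous 1) :
    (1 : Rv ν K) ∉ P ⊔ Ideal.span {ℓ} ⊔ Ideal.span {ℓ'} := by
  intro h
  have h1 : P ⊔ Ideal.span {ℓ} ⊔ Ideal.span {ℓ'} ≤ RingHom.ker (eval (0 : Fin ν → K)) := by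
    rw [sup_le_iff, sup_le_iff, Ideal.span_le, Ideal.span_le]
    refine ⟨⟨fun x hx => eval_zero_mem hP hPh hx, ?_⟩, ?_⟩
    · rintro _ rfl
      exact eval_zero_hom hℓ le_rfl
    · rintro _ rfl
      exact eval_zero_hom hℓ' le_rfl
  have h2 : eval (0 : Fin ν → K) (1 : Rv ν K) = 0 := h1 h
  rw [map_one] at h2
  exact one_ne_zero h2

/-- **the degree of a constant syzygy on a surface** -/
theorem cut [Infinite K] [CharZero K] (hν : 1 ≤ ν) {P : Ideal (Rv ν K)} (hP : P.IsPrime)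
    (hPh : Homog P) {F : Fin 3 → Rv ν K} {d : Fin 3 → ℕ} {a b c : Fin 3}
    (hF : ∀ a, (F a).IsHomogeneous (d a)) (hda : 1 ≤ d a) (hac : d a ≤ d c)
    (na : ∀ x, F a * x ∈ P → x ∈ P)
    (nc : ∀ x, F c * x ∈ P ⊔ Ideal.span {F a} →
      x ∈ P ⊔ Ideal.span {F a})
    (nb : ∀ x, F b * x ∈ P ⊔ Ideal.span {F a} ⊔ Ideal.span {F c} →
      x ∈ P ⊔ Ideal.span {F a} ⊔ Ideal.span {F c})
    (hs1 : ∀ (s : Rv ν K) (k : ℕ), s.IsHomogeneous k → s ∉ P → Sat (P ⊔ Ideal.span {s}))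
    (hs2 : ∀ (s s' : Rv ν K), s.IsHomogeneous 1 → s'.IsHomogeneous 1 → (∀ x, s * x ∈ P → x ∈ P) →
      (∀ x, s' * x ∈ P ⊔ Ideal.span {s} → x ∈ P ⊔ Ideal.span {s}) →
      Sat (P ⊔ Ideal.span {s} ⊔ Ideal.span {s'}))
    {v : Fin 3 → RTv ν K} {r N δ : ℕ} (hvt : ∀ a, (v a).IsHomogeneous r)
    (hv : ∀ a, DX (d a) N (v a)) (hvb : XH δ (v b))
    (hrel : C (F a) * v a + C (F b) * v b + C (F c) * v c ∈ JJ P)
    (hO : ∀ j k c, Om v j k c ∈ JJ P) {t : Fin ν → K}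
    (hQ : (P ⊔ Ideal.span {lf t}).IsPrime)
    (hw : evt t (v b) ∉ P ⊔ Ideal.span {lf t})
    (ht : lf t ∉ P) : d a ≤ δ := by
  have nℓ : ∀ x, lf t * x ∈ P → x ∈ P := fun x hx =>
    (hP.mem_or_mem hx).resolve_left ht
  have nw : ∀ x, evt t (v b) * x ∈ P ⊔ Ideal.span {lf t} →
      x ∈ P ⊔ Ideal.span {lf t} := fun x hx =>
    (hQ.mem_or_mem hx).resolve_left hw
  -- a variable outside the ideal
  obtain ⟨i, hi⟩ : ∃ i, (X i : Rv ν K) ∉ P ⊔ Ideal.span {lf t} := by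
    by_contra hcon
    push Not at hcon
    apply hQ.ne_top
    rw [Ideal.eq_top_iff_one]
    apply hs1 _ 1 (lf_hom t) ht
    intro j
    rw [mul_one]
    exact hcon j
  have nX : ∀ x, X i * x ∈ P ⊔ Ideal.span {lf t} → x ∈ P ⊔ Ideal.span {lf t} := fun x hx =>
    (hQ.mem_or_mem hx).resolve_left hi
  have hgr := growth hPh (lf_hom t) (isHomogeneous_X K i) nℓ nX fun m =>
    one_le_q (hs2 _ _ (lf_hom t) (isHomogeneous_X K i) nℓ nX)
      (lf_pair_notMem hP hPh (lf_hom t) (isHomogeneous_X K i)) m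
  -- the reference syzygy
  set M := Mt i t with hMdef
  have hM : Skew M := Mt_skew i t
  set s : Fin 3 → Rv ν K := fun a => sg M (v a) with hs
  have hsb : s b ∉ P := by
    intro h1
    obtain ⟨y, hy⟩ := Ideal.mem_span_singleton.1 (Sb_sub_Sc i (v b))
    have h4 := congrArg (evt t) hy
    rw [map_sub, evt_Sb, Sc_hom i (hvt b), map_mul, map_pow, evt_C, map_mul, evt_gl] at h4
    have h5 : (X i) ^ r * evt t (v b) = s b + lf t * evt t y := by
      rw [hs]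
      linear_combination h4
    have h6 : (X i) ^ r * evt t (v b) ∈ P ⊔ Ideal.span {lf t} := by
      rw [h5]
      exact Ideal.add_mem _ (Ideal.mem_sup_left h1)
        (Ideal.mem_sup_right (Ideal.mul_mem_right _ _ (Ideal.mem_span_singleton_self _)))
    rcases hQ.mem_or_mem h6 with h7 | h7
    · exact hi (hQ.mem_of_pow_mem r h7)
    · exact hw h7
  have hsh : ∀ a, ∃ m, (s a).IsHomogeneous m := by
    intro a
    rcases hv a with h0 | ⟨n, -, hX⟩
    · refine ⟨0, ?_⟩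
      have : s a = 0 := by
        rw [hs]
        change sg M (v a) = 0
        rw [h0, map_zero]
      rw [this]
      exact isHomogeneous_zero _ _ _
    · exact ⟨r + n, sg_hom (hvt a) hX M⟩
  have hrel' : F a * s a + F b * s b + F c * s c ∈ P := by
    have h1 := sg_JJ hM hrel
    rwa [map_add, map_add, map_mul, map_mul, map_mul, sg_C, sg_C, sg_C] at h1
  have hwh : (evt t (v b)).IsHomogeneous δ := evt_XH hvb t
  obtain ⟨mb, hmb⟩ := hsh b
  exact ineq hν hPh hgr (VV_homog hPh hsh) le_VV (lf_hom t) hwh (hF a) nℓ nw na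
    (fun i => pow_mul_mem hvt hO hM b t i)
    (lower hP hPh hsh hF hda hac hsb (hs1 _ mb hmb hsb) hrel' na nc nb)

end cut

section sat

variable {K : Type*} [Field K]

/-- complete intersections of dimension at least one are saturated -/
lemma sat_ci [Infinite K] {m : ℕ} (hm : m < ν) {f : Fin m → Rv ν K} {e : Fin m → ℕ}
    (hf : ∀ j, (f j).IsHomogeneous (e j)) (he : ∀ j, 1 ≤ e j) (hreg : Reg f) :
    Sat (Ideal.span (Set.range f)) := by
  classical
  intro w hw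
  exact TH130CI.no_socle hm _ f e hf he (sreg_of_reg hf he hreg) rfl w hw

lemma snoc_hom {m : ℕ} {f : Fin m → Rv ν K} {e : Fin m → ℕ}
    (hf : ∀ j, (f j).IsHomogeneous (e j)) {s : Rv ν K} {k : ℕ} (hs : s.IsHomogeneous k)
    (j : Fin (m + 1)) :
    ((Fin.snoc f s : Fin (m + 1) → Rv ν K) j).IsHomogeneous ((Fin.snoc e k : Fin (m + 1) → ℕ) j) := by
  refine Fin.lastCases ?_ (fun i => ?_) j
  · rw [Fin.snoc_last, Fin.snoc_last]
    exact hs
  · rw [Fin.snoc_castSucc, Fin.snoc_castSucc]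
    exact hf i

lemma snoc_pos {m : ℕ} {e : Fin m → ℕ} (he : ∀ j, 1 ≤ e j) {k : ℕ} (hk : 1 ≤ k)
    (j : Fin (m + 1)) : 1 ≤ (Fin.snoc e k : Fin (m + 1) → ℕ) j := by
  refine Fin.lastCases ?_ (fun i => ?_) j
  · rw [Fin.snoc_last]
    exact hk
  · rw [Fin.snoc_castSucc]
    exact he i

lemma span_snoc {m : ℕ} (f : Fin m → Rv ν K) (s : Rv ν K) :
    Ideal.span (Set.range (Fin.snoc f s : Fin (m + 1) → Rv ν K))
      = Ideal.span (Set.range f) ⊔ Ideal.span {s} := by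
  rw [range_snoc', Ideal.span_union]

lemma sat_snoc [Infinite K] {m : ℕ} (hm : m + 1 < ν) {f : Fin m → Rv ν K} {e : Fin m → ℕ}
    (hf : ∀ j, (f j).IsHomogeneous (e j)) (he : ∀ j, 1 ≤ e j) (hreg : Reg f) {s : Rv ν K} {k : ℕ}
    (hs : s.IsHomogeneous k) (hk : 1 ≤ k)
    (h : ∀ x, s * x ∈ Ideal.span (Set.range f) → x ∈ Ideal.span (Set.range f)) :
    Sat (Ideal.span (Set.range f) ⊔ Ideal.span {s}) := by
  rw [← span_snoc]
  exact sat_ci hm (snoc_hom hf hs) (snoc_pos he hk) (reg_snoc hreg h)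

lemma sat_snoc2 [Infinite K] {m : ℕ} (hm : m + 2 < ν) {f : Fin m → Rv ν K} {e : Fin m → ℕ}
    (hf : ∀ j, (f j).IsHomogeneous (e j)) (he : ∀ j, 1 ≤ e j) (hreg : Reg f) {s s' : Rv ν K}
    {k k' : ℕ} (hs : s.IsHomogeneous k) (hk : 1 ≤ k) (hs' : s'.IsHomogeneous k') (hk' : 1 ≤ k')
    (h : ∀ x, s * x ∈ Ideal.span (Set.range f) → x ∈ Ideal.span (Set.range f))
    (h' : ∀ x, s' * x ∈ Ideal.span (Set.range f) ⊔ Ideal.span {s} →
      x ∈ Ideal.span (Set.range f) ⊔ Ideal.span {s}) :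
    Sat (Ideal.span (Set.range f) ⊔ Ideal.span {s} ⊔ Ideal.span {s'}) := by
  rw [← span_snoc] at h' ⊢
  exact sat_snoc (by omega) (snoc_hom hf hs) (snoc_pos he hk) (reg_snoc hreg h) hs' hk' h'

/-- the ideal `(P, s)` for a prime complete intersection `P` -/
lemma sat_prime [Infinite K] {m : ℕ} (hm : m + 1 < ν) {f : Fin m → Rv ν K} {e : Fin m → ℕ}
    (hf : ∀ j, (f j).IsHomogeneous (e j)) (he : ∀ j, 1 ≤ e j) (hreg : Reg f)
    (hP : (Ideal.span (Set.range f)).IsPrime) {s : Rv ν K} {k : ℕ}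
    (hs : s.IsHomogeneous k) (hsP : s ∉ Ideal.span (Set.range f)) :
    Sat (Ideal.span (Set.range f) ⊔ Ideal.span {s}) := by
  rcases Nat.eq_zero_or_pos k with hk | hk
  · subst hk
    have h2 : Ideal.span (Set.range f) ⊔ Ideal.span {s} = ⊤ := by
      rw [← totalDegree_zero_iff_isHomogeneous, totalDegree_eq_zero_iff_eq_C] at hs
      have h3 : coeff 0 s ≠ 0 := by
        intro h
        rw [h, C_0] at hs
        apply hsP
        rw [hs]
        exact Ideal.zero_mem _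
      rw [Ideal.eq_top_iff_one]
      apply Ideal.mem_sup_right
      rw [Ideal.mem_span_singleton]
      refine ⟨C (coeff 0 s)⁻¹, ?_⟩
      rw [hs, ← C_mul, coeff_C, if_pos rfl, mul_inv_cancel₀ h3, C_1]
    rw [h2]
    intro _ _
    exact Submodule.mem_top
  · exact sat_snoc hm hf he hreg hs hk fun x hx => (hP.mem_or_mem hx).resolve_left hsP

end sat

section gen

variable {K : Type*} [Field K]

/-! ### the ideal of the incidence variety is prime -/

lemma Sb_gl (i : Fin ν) : Sb i (gl ν K) = 0 := by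
  classical
  rw [gl, map_sum, ← Finset.add_sum_erase _ _ (Finset.mem_univ i), map_mul, Sb_C, Sb_X, if_pos rfl]
  have h1 : ∀ k ∈ Finset.univ.erase i, Sb (K := K) i (X k * C (X k))
      = C (X i) * (C (X k) * X k) := by
    intro k hk
    rw [map_mul, Sb_C, Sb_X, if_neg (Finset.mem_erase.1 hk).1]
    ring
  rw [Finset.sum_congr rfl h1, ← Finset.mul_sum]
  ring

lemma Sb_inI {P : Ideal (Rv ν K)} (i : Fin ν) {Y : RTv ν K} (h : InI P Y) : InI P (Sb i Y) := by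
  rw [inI_iff_map] at h ⊢
  have h1 : (P.map (C : Rv ν K →+* RTv ν K)).map (Sb i) ≤ P.map (C : Rv ν K →+* RTv ν K) := by
    rw [Ideal.map_map]
    have h2 : (Sb (K := K) i).comp C = C := RingHom.ext fun f => by
      rw [RingHom.comp_apply, Sb_C]
    rw [h2]
  exact h1 (Ideal.mem_map_of_mem _ h)

lemma mem_JJ_iff {P : Ideal (Rv ν K)} {i : Fin ν} (hi : ∀ Y, C (X i) * Y ∈ JJ P → Y ∈ JJ P) {e : ℕ}
    {Y : RTv ν K} (hY : Y.IsHomogeneous e) : Y ∈ JJ P ↔ InI P (Sb i Y) := by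
  constructor
  · intro h
    obtain ⟨s, hs⟩ := mem_JJ.1 h
    have h1 := Sb_inI i hs
    rwa [map_sub, map_mul, Sb_gl, zero_mul, sub_zero] at h1
  · intro h1
    have h2 : C (X i) ^ e * Y ∈ JJ P := by
      rw [← Sc_hom i hY]
      have h3 : Sc i Y = (Sc i Y - Sb i Y) + Sb i Y := by ring
      rw [h3]
      exact (JJ P).add_mem (Ideal.mem_sup_left (Sb_sub_Sc i Y)) (JJ_of_inI h1)
    clear hY h1
    induction e with
    | zero => rwa [pow_zero, one_mul] at h2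
    | succ e ih =>
      rw [pow_succ', mul_assoc] at h2
      exact ih (hi _ h2)

lemma inI_iff_zero {P : Ideal (Rv ν K)} {Y : RTv ν K} :
    InI P Y ↔ map (Ideal.Quotient.mk P) Y = 0 := by
  constructor
  · intro h
    ext1 m
    rw [coeff_map, coeff_zero, Ideal.Quotient.eq_zero_iff_mem]
    exact h m
  · intro h m
    rw [← Ideal.Quotient.eq_zero_iff_mem, ← coeff_map, h, coeff_zero]

lemma one_notMem_JJ {P : Ideal (Rv ν K)} [hP : P.IsPrime] : (1 : RTv ν K) ∉ JJ P := by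
  intro h
  obtain ⟨s, hs⟩ := mem_JJ.1 h
  have h1 := hs 0
  apply hP.ne_top
  rw [Ideal.eq_top_iff_one]
  have h2 : coeff 0 (1 - gl ν K * s) = 1 := by
    rw [coeff_sub, Mc.coeff_gl_mul]
    simp
  rwa [h2] at h1

/-- **the ideal `(ℓ, P)` is prime** -/
theorem JJ_prime {P : Ideal (Rv ν K)} [hP : P.IsPrime] {i : Fin ν}
    (hi : ∀ Y, C (X i) * Y ∈ JJ P → Y ∈ JJ P) : (JJ P).IsPrime := by
  let _ : GradedAlgebra (homogeneousSubmodule (Fin ν) (Rv ν K)) := MvPolynomial.gradedAlgebra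
  have hhom : (JJ P).IsHomogeneous (homogeneousSubmodule (Fin ν) (Rv ν K)) := by
    have h1 : JJ P = Ideal.span ({gl ν K} ∪ (C : Rv ν K →+* RTv ν K) '' P) := by
      rw [JJ, Ideal.span_union, Ideal.map]
    rw [h1]
    apply Ideal.homogeneous_span
    rintro x (rfl | ⟨f, -, rfl⟩)
    · exact ⟨1, gl_hom⟩
    · exact ⟨0, isHomogeneous_C _ _⟩
  refine hhom.isPrime_of_homogeneous_mem_or_mem ?_ ?_
  · intro h
    exact one_notMem_JJ (P := P) (by rw [h]; exact Submodule.mem_top)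
  · rintro x y ⟨e1, hx⟩ ⟨e2, hy⟩ hxy
    have hx' : x.IsHomogeneous e1 := hx
    have hy' : y.IsHomogeneous e2 := hy
    rw [mem_JJ_iff hi hx', mem_JJ_iff hi hy']
    rw [mem_JJ_iff hi (hx'.mul hy'), map_mul] at hxy
    rw [inI_iff_zero, map_mul] at hxy
    rw [inI_iff_zero, inI_iff_zero]
    exact mul_eq_zero.1 hxy


end gen

section fr

variable (ν) (K : Type u) [Field K]

/-- the field of fractions of `K[t]` -/
abbrev L : Type u := FractionRing (Rv ν K)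

/-- the inclusion of `K[t]` -/
noncomputable abbrev aT : Rv ν K →+* L ν K := algebraMap (Rv ν K) (L ν K)

/-- the inclusion of `K[x][t]` in `K(t)[x]` -/
noncomputable def Ψ : RTv ν K →+* Rv ν (L ν K) :=
  (map (aT ν K)).comp (commAlgEquiv K (Fin ν) (Fin ν) : RTv ν K →+* MvPolynomial (Fin ν) (Rv ν K))

variable {ν K}

lemma Ψ_C (f : Rv ν K) : Ψ ν K (C f) = map (algebraMap K (L ν K)) f := by
  rw [Ψ, RingHom.comp_apply]
  have h1 : (commAlgEquiv K (Fin ν) (Fin ν) : RTv ν K →+* MvPolynomial (Fin ν) (Rv ν K)) (C f)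
      = map (C : K →+* Rv ν K) f := commAlgEquiv_C f
  rw [h1, map_map]
  rfl

lemma Ψ_X (k : Fin ν) : Ψ ν K (X k) = C (aT ν K (X k)) := by
  rw [Ψ, RingHom.comp_apply]
  have h1 : (commAlgEquiv K (Fin ν) (Fin ν) : RTv ν K →+* MvPolynomial (Fin ν) (Rv ν K)) (X k)
      = C (X k) := commAlgEquiv_X k
  rw [h1, map_C]

lemma Ψ_inj : Function.Injective (Ψ ν K) := by
  rw [Ψ, RingHom.coe_comp]
  exact (map_injective _ (IsFractionRing.injective (Rv ν K) (L ν K))).comp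
    (commAlgEquiv K (Fin ν) (Fin ν)).injective

lemma Ψ_tt (c : Rv ν K) : Ψ ν K (tt c) = C (aT ν K c) := by
  have h : (Ψ ν K).comp tt = (C : L ν K →+* Rv ν (L ν K)).comp (aT ν K) := by
    apply MvPolynomial.ringHom_ext
    · intro a
      rw [RingHom.comp_apply, RingHom.comp_apply, tt_C, Ψ_C, map_C]
      rfl
    · intro k
      rw [RingHom.comp_apply, RingHom.comp_apply, tt_X, Ψ_X]
  exact RingHom.congr_fun h c

/-- clearing denominators -/
lemma clear (z : Rv ν (L ν K)) : ∃ (c : Rv ν K) (Z : RTv ν K), c ≠ 0 ∧ C (aT ν K c) * z = Ψ ν K Z := by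
  classical
  obtain ⟨b, hb⟩ := IsLocalization.exist_integer_multiples_of_finset (nonZeroDivisors (Rv ν K))
    (z.support.image fun m => coeff m z)
  have h1 : ∀ m, ∃ y : Rv ν K, aT ν K y = aT ν K b * coeff m z := by
    intro m
    by_cases hm : m ∈ z.support
    · obtain ⟨y, hy⟩ := hb _ (Finset.mem_image_of_mem _ hm)
      exact ⟨y, by rw [hy, Algebra.smul_def]⟩
    · rw [notMem_support_iff.1 hm]
      exact ⟨0, by rw [map_zero, mul_zero]⟩
  choose y hy using h1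
  set Z' : MvPolynomial (Fin ν) (Rv ν K) := ∑ m ∈ z.support, monomial m (y m) with hZ'
  refine ⟨b, (commAlgEquiv K (Fin ν) (Fin ν)).symm Z', nonZeroDivisors.coe_ne_zero b, ?_⟩
  rw [Ψ, RingHom.comp_apply]
  have h2 : (commAlgEquiv K (Fin ν) (Fin ν) : RTv ν K →+* MvPolynomial (Fin ν) (Rv ν K))
      ((commAlgEquiv K (Fin ν) (Fin ν)).symm Z') = Z' :=
    (commAlgEquiv K (Fin ν) (Fin ν)).apply_symm_apply Z'
  rw [h2]
  ext1 m
  rw [coeff_C_mul, coeff_map, hZ', coeff_sum]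
  simp only [coeff_monomial]
  rw [Finset.sum_ite_eq']
  split_ifs with hm
  · rw [hy]
  · rw [notMem_support_iff.1 hm, map_zero, mul_zero]

section ext

variable {Q : Ideal (RTv ν K)} [hQ : Q.IsPrime]

omit hQ in
lemma mem_map_Ψ {z : Rv ν (L ν K)} (hz : z ∈ Q.map (Ψ ν K)) :
    ∃ (c : Rv ν K) (Z : RTv ν K), c ≠ 0 ∧ Z ∈ Q ∧ C (aT ν K c) * z = Ψ ν K Z := by
  classical
  refine Submodule.span_induction ?_ ?_ ?_ ?_ hz
  · rintro _ ⟨Y, hY, rfl⟩
    exact ⟨1, Y, one_ne_zero, hY, by rw [map_one, C_1, one_mul]⟩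
  · exact ⟨1, 0, one_ne_zero, Q.zero_mem, by rw [mul_zero, map_zero]⟩
  · rintro z1 z2 _ _ ⟨c1, Z1, hc1, hZ1, h1⟩ ⟨c2, Z2, hc2, hZ2, h2⟩
    refine ⟨c1 * c2, tt c2 * Z1 + tt c1 * Z2, mul_ne_zero hc1 hc2,
      Q.add_mem (Q.mul_mem_left _ hZ1) (Q.mul_mem_left _ hZ2), ?_⟩
    rw [map_mul, C_mul, map_add, map_mul, map_mul, Ψ_tt, Ψ_tt]
    linear_combination C (aT ν K c2) * h1 + C (aT ν K c1) * h2
  · rintro w z1 _ ⟨c1, Z1, hc1, hZ1, h1⟩
    obtain ⟨c2, W, hc2, h2⟩ := clear w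
    refine ⟨c2 * c1, W * Z1, mul_ne_zero hc2 hc1, Q.mul_mem_left _ hZ1, ?_⟩
    rw [smul_eq_mul, map_mul, C_mul, map_mul, ← h1, ← h2]
    ring

variable (hdis : ∀ c : Rv ν K, c ≠ 0 → tt c ∉ Q)

include hdis

lemma comap_map_Ψ {Y : RTv ν K} (h : Ψ ν K Y ∈ Q.map (Ψ ν K)) : Y ∈ Q := by
  obtain ⟨c, Z, hc, hZ, h1⟩ := mem_map_Ψ h
  rw [← Ψ_tt, ← map_mul] at h1
  have h2 := Ψ_inj h1
  rw [← h2] at hZ
  exact (hQ.mem_or_mem hZ).resolve_left (hdis c hc)

lemma prime_map_Ψ : (Q.map (Ψ ν K)).IsPrime := by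
  refine ⟨?_, ?_⟩
  · intro h
    apply hQ.ne_top
    rw [Ideal.eq_top_iff_one]
    apply comap_map_Ψ hdis
    rw [h]
    exact Submodule.mem_top
  · intro z w hzw
    obtain ⟨c1, Z, hc1, h1⟩ := clear z
    obtain ⟨c2, W, hc2, h2⟩ := clear w
    have h3 : Ψ ν K (Z * W) ∈ Q.map (Ψ ν K) := by
      rw [map_mul, ← h1, ← h2]
      have h4 : C (aT ν K c1) * z * (C (aT ν K c2) * w) = C (aT ν K c1) * C (aT ν K c2) * (z * w) := by
        ring
      rw [h4]
      exact Ideal.mul_mem_left _ _ hzw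
    have hu : ∀ (c : Rv ν K), c ≠ 0 → ∀ y : Rv ν (L ν K), C (aT ν K c) * y ∈ Q.map (Ψ ν K) →
        y ∈ Q.map (Ψ ν K) := by
      intro c hc y hy
      have h5 : aT ν K c ≠ 0 := by
        rw [Ne, map_eq_zero_iff _ (IsFractionRing.injective (Rv ν K) (L ν K))]
        exact hc
      have h6 : y = C (aT ν K c)⁻¹ * (C (aT ν K c) * y) := by
        rw [← mul_assoc, ← C_mul, inv_mul_cancel₀ h5, C_1, one_mul]
      rw [h6]
      exact Ideal.mul_mem_left _ _ hy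
    rcases hQ.mem_or_mem (comap_map_Ψ hdis h3) with h4 | h4
    · left
      apply hu c1 hc1
      rw [h1]
      exact Ideal.mem_map_of_mem _ h4
    · right
      apply hu c2 hc2
      rw [h2]
      exact Ideal.mem_map_of_mem _ h4

end ext


end fr

end Pool.Agent.H868.TS
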