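import Pool.Agent.H868.TS.F

/-!
The syzygy vanishes modulo `(ℓ, P)` if `P` is a prime complete intersection.
(As in four variables for irreducible surfaces, `Q5.Irr`.)
-/

namespace Pool.Agent.H868.TS

set_option maxHeartbeats 400000
set_option linter.unusedSectionVars false

open MvPolynomial
open Pool.Agent.TH61.SL (hc comp_mul hc_zero hc_hom comp_self comp_ne)
open H503R3.QCI (Homog NZD Reg homog_span)
open TH130CI (SRegOn sreg_of_reg)

universe u

variable {ν : ℕ}

section rho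

variable {K K' : Type*} [Field K] [Field K'] (φ : K →+* K')

/-- extension of the coefficients -/
noncomputable def ρ : RTv ν K →+* RTv ν K' := map (map φ)

lemma ρ_C (f : Rv ν K) : ρ φ (C f) = C (map φ f) := map_C _ _

lemma ρ_X (k : Fin ν) : ρ φ (X k) = X k := map_X _ _

lemma ρ_gl : ρ φ (gl ν K) = gl ν K' := by
  rw [gl, gl, map_sum]
  refine Finset.sum_congr rfl fun k _ => ?_
  rw [map_mul, ρ_X, ρ_C, map_X]

lemma ρ_Dd (j k : Fin ν) (Y : RTv ν K) : ρ φ (Dd j k Y) = Dd j k (ρ φ Y) := by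
  rw [Dd, Dd, map_sub, map_mul, map_mul, ρ_C, ρ_C, map_X, map_X, ρ, pderiv_map, pderiv_map]

lemma ρ_Om (v : Fin 3 → RTv ν K) (j k : Fin ν) (c : Fin 3) :
    ρ φ (Om v j k c) = Om (fun a => ρ φ (v a)) j k c := by
  rw [Om, Om, map_sub, map_mul, map_mul, ρ_Dd, ρ_Dd]

lemma ρ_XH {n : ℕ} {Y : RTv ν K} (h : XH n Y) : XH n (ρ φ Y) := fun m => by
  rw [ρ, coeff_map]
  exact (h m).map φ

lemma ρ_DX {d n : ℕ} {Y : RTv ν K} (h : DX d n Y) : DX d n (ρ φ Y) := by
  rcases h with h | ⟨k, hk, h⟩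
  · left
    rw [h, map_zero]
  · exact Or.inr ⟨k, hk, ρ_XH φ h⟩

lemma ρ_hom {r : ℕ} {Y : RTv ν K} (h : Y.IsHomogeneous r) : (ρ φ Y).IsHomogeneous r := h.map _

lemma ρ_JJ {P : Ideal (Rv ν K)} {Y : RTv ν K} (h : Y ∈ JJ P) :
    ρ φ Y ∈ JJ (P.map (map φ : Rv ν K →+* Rv ν K')) := by
  obtain ⟨s, hs⟩ := mem_JJ.1 h
  refine mem_JJ.2 ⟨ρ φ s, ?_⟩
  rw [← ρ_gl φ, ← map_mul, ← map_sub]
  intro m
  rw [ρ, coeff_map]
  exact Ideal.mem_map_of_mem _ (hs m)

end rho

variable {K : Type u} [Field K]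

/-- the generic point -/
noncomputable def tau (ν : ℕ) (K : Type u) [Field K] : Fin ν → L ν K := fun k => aT ν K (X k)

lemma Ψ_gl : Ψ ν K (gl ν K) = lf (tau ν K) := by
  rw [gl, lf, map_sum]
  refine Finset.sum_congr rfl fun k _ => ?_
  rw [map_mul, Ψ_X, Ψ_C, map_X]
  rfl

lemma evt_tau (Y : RTv ν K) : evt (tau ν K) (ρ (algebraMap K (L ν K)) Y) = Ψ ν K Y := by
  have h : (evt (tau ν K)).comp (ρ (algebraMap K (L ν K))) = Ψ ν K := by
    apply MvPolynomial.ringHom_ext
    · intro a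
      rw [RingHom.comp_apply, ρ_C, evt_C, Ψ_C]
    · intro k
      rw [RingHom.comp_apply, ρ_X, evt_X, Ψ_X]
      rfl
  exact RingHom.congr_fun h Y

/-- extension of a prime ideal -/
lemma map_C_prime {P : Ideal (Rv ν K)} (hP : P.IsPrime) : (P.map (C : Rv ν K →+* RTv ν K)).IsPrime := by
  refine ⟨?_, ?_⟩
  · intro h
    apply hP.ne_top
    rw [Ideal.eq_top_iff_one]
    have h1 : (C (1 : Rv ν K) : RTv ν K) ∈ P.map (C : Rv ν K →+* RTv ν K) := by
      rw [h]
      exact Submodule.mem_top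
    rw [← inI_iff_map, inI_C] at h1
    exact h1
  · intro x y h
    rw [← inI_iff_map] at h
    rw [← inI_iff_map, ← inI_iff_map]
    exact h.or

/-- **prime complete intersections** -/
theorem irr_main [CharZero K] {m : ℕ} (hm : m + 2 < ν) {f : Fin m → Rv ν K} {e : Fin m → ℕ}
    (hf : ∀ j, (f j).IsHomogeneous (e j)) (he : ∀ j, 1 ≤ e j) (hregf : Reg f)
    {P : Ideal (Rv ν K)} (hPf : P = Ideal.span (Set.range f)) (hP : P.IsPrime)
    {F : Fin 3 → Rv ν K} {d : Fin 3 → ℕ} {N r : ℕ} {v : Fin 3 → RTv ν K}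
    (hF : ∀ a, (F a).IsHomogeneous (d a)) (hd : ∀ a, 1 ≤ d a)
    (hn : ∀ a b c : Fin 3, a ≠ b → a ≠ c → b ≠ c → NZD P (F a) ∧
      NZD (P ⊔ Ideal.span {F a}) (F c) ∧ NZD (P ⊔ Ideal.span {F a} ⊔ Ideal.span {F c}) (F b))
    (h01 : d 0 ≤ d 1) (h12 : d 1 ≤ d 2) (hN : N < d 0 + d 1)
    (hv : ∀ a, DX (d a) N (v a)) (hvt : ∀ a, (v a).IsHomogeneous r)
    (hrel : C (F 0) * v 0 + C (F 1) * v 1 + C (F 2) * v 2 ∈ JJ P)
    (hO : ∀ j k c, Om v j k c ∈ JJ P) (j : Fin 3) :
    v j ∈ JJ P := by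
  classical
  by_contra hj
  have hinf : Infinite K := inferInstance
  have hcL : CharZero (L ν K) := charZero_of_injective_algebraMap (algebraMap K (L ν K)).injective
  have hinfL : Infinite (L ν K) := inferInstance
  have hPh : Homog P := by
    rw [hPf]
    exact homog_span (by rintro _ ⟨j, rfl⟩; exact ⟨e j, hf j⟩)
  have hs0 : Sat P := by
    rw [hPf]
    exact sat_ci (by omega) hf he hregf
  obtain ⟨i, hi0⟩ : ∃ i, (X i : Rv ν K) ∉ P := by
    by_contra hcon
    push Not at hcon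
    apply hP.ne_top
    rw [Ideal.eq_top_iff_one]
    apply hs0
    intro j
    rw [mul_one]
    exact hcon j
  have hi : ∀ Y, C (X i) * Y ∈ JJ P → Y ∈ JJ P := fun Y hY =>
    JJ_nzd (fun x hx => (hP.mem_or_mem hx).resolve_left hi0) (by
      rw [hPf] at hP hi0 ⊢
      exact sat_prime (by omega) hf he hregf hP (isHomogeneous_X K i) hi0) hY
  have hJp : (JJ P).IsPrime := JJ_prime hi
  have hdJ : ∀ c : Rv ν K, c ≠ 0 → tt c ∉ JJ P := by
    intro c hc hmem
    obtain ⟨s, h1⟩ := mem_JJ.1 hmem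
    have h2 : evx (0 : Fin ν → K) (tt c - gl ν K * s) = 0 := by
      ext1 m'
      rw [evx, coeff_map, coeff_zero]
      exact eval_zero_mem hP hPh (h1 m')
    rw [map_sub, map_mul, evx_tt, evx_gl] at h2
    apply hc
    have h3 : lf (0 : Fin ν → K) = 0 := by
      rw [lf]
      simp
    rw [h3, zero_mul, sub_zero] at h2
    exact h2
  have hle : P.map (C : Rv ν K →+* RTv ν K) ≤ JJ P := le_sup_right
  have hCp : (P.map (C : Rv ν K →+* RTv ν K)).IsPrime := map_C_prime hP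
  have hdC : ∀ c : Rv ν K, c ≠ 0 → tt c ∉ P.map (C : Rv ν K →+* RTv ν K) := fun c hc h =>
    hdJ c hc (hle h)
  set P' : Ideal (Rv ν (L ν K)) := P.map (map (algebraMap K (L ν K)) : Rv ν K →+* Rv ν (L ν K)) with hP'
  have hmapC : (P.map (C : Rv ν K →+* RTv ν K)).map (Ψ ν K) = P' := by
    rw [Ideal.map_map, hP']
    congr 1
    exact RingHom.ext fun x => by rw [RingHom.comp_apply, Ψ_C]
  have hpp' : P'.IsPrime := by
    rw [← hmapC]
    exact prime_map_Ψ hdC
  have hmapJ : (JJ P).map (Ψ ν K) = P' ⊔ Ideal.span {lf (tau ν K)} := by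
    rw [JJ, Ideal.map_sup, Ideal.map_span, Set.image_singleton, Ψ_gl, hmapC, sup_comm]
  have hQ : (P' ⊔ Ideal.span {lf (tau ν K)}).IsPrime := by
    rw [← hmapJ]
    exact prime_map_Ψ hdJ
  have hw : evt (tau ν K) (ρ (algebraMap K (L ν K)) (v j))
      ∉ P' ⊔ Ideal.span {lf (tau ν K)} := by
    rw [evt_tau, ← hmapJ]
    exact fun h => hj (comap_map_Ψ hdJ h)
  have ht : lf (tau ν K) ∉ P' := by
    rw [← hmapC, ← Ψ_gl]
    intro h
    have h1 := comap_map_Ψ hdC h
    rw [← inI_iff_map] at h1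
    have h2 := h1.pderiv i
    rw [pderiv_gl, inI_C] at h2
    exact hi0 h2
  have hfL : ∀ j, (map (algebraMap K (L ν K)) (f j)).IsHomogeneous (e j) := fun j => (hf j).map _
  have hregL := TH130CI.reg_map (L := L ν K) hregf
  have hP'f : P' = Ideal.span (Set.range fun j => map (algebraMap K (L ν K)) (f j)) := by
    rw [hP', hPf, Ideal.map_span, ← Set.range_comp]
    rfl
  have hP'h : Homog P' := by
    rw [hP'f]
    exact homog_span (by rintro _ ⟨j, rfl⟩; exact ⟨e j, hfL j⟩)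
  set F' : Fin 3 → Rv ν (L ν K) := fun a => map (algebraMap K (L ν K)) (F a) with hF'
  have hF'h : ∀ a, (F' a).IsHomogeneous (d a) := fun a => (hF a).map _
  have hrel' := ρ_JJ (algebraMap K (L ν K)) hrel
  rw [map_add, map_add, map_mul, map_mul, map_mul, ρ_C, ρ_C, ρ_C] at hrel'
  have hO' : ∀ j k c, Om (fun a => ρ (algebraMap K (L ν K)) (v a)) j k c
      ∈ JJ P' := by
    intro j k c
    rw [← ρ_Om]
    exact ρ_JJ _ (hO j k c)
  -- the degree of `v j`
  obtain ⟨n, hn', hX⟩ : ∃ n, d j + n = N ∧ XH n (v j) := by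
    rcases hv j with h0 | h
    · exact absurd (by rw [h0]; exact (JJ _).zero_mem) hj
    · exact h
  have key : ∀ a c : Fin 3, a ≠ j → a ≠ c → j ≠ c → d a ≤ d c →
      (C (F' a) * ρ (algebraMap K (L ν K)) (v a) + C (F' j) * ρ (algebraMap K (L ν K)) (v j)
        + C (F' c) * ρ (algebraMap K (L ν K)) (v c) ∈ JJ P') → d a ≤ n := by
    intro a c haj hac hjc hle hrel2
    obtain ⟨na, nc, nb⟩ := hn a j c haj hac hjc
    have na' := TH130CI.nzd_map (L := L ν K) na
    have nc' := TH130CI.nzd_map (L := L ν K) nc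
    have nb' := TH130CI.nzd_map (L := L ν K) nb
    rw [Ideal.map_sup, Ideal.map_span, Set.image_singleton] at nc'
    rw [Ideal.map_sup, Ideal.map_sup, Ideal.map_span, Ideal.map_span, Set.image_singleton,
      Set.image_singleton] at nb'
    exact cut (by omega) hpp' hP'h hF'h (hd a) hle na' nc' nb'
      (by
        rw [hP'f] at hpp' ⊢
        intro s k hs hsP
        exact sat_prime (by omega) hfL he hregL hpp' hs hsP)
      (by
        rw [hP'f]
        intro s s' hs hs' h1 h2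
        exact sat_snoc2 (by omega) hfL he hregL hs le_rfl hs' le_rfl h1 h2)
      (v := fun a => ρ (algebraMap K (L ν K)) (v a)) (r := r) (N := N)
      (fun a => ρ_hom _ (hvt a)) (fun a => ρ_DX _ (hv a)) (ρ_XH _ hX) hrel2 hO' hQ hw ht
  fin_cases j
  · have h1 := key 1 2 (by decide) (by decide) (by decide) h12 (by
      convert hrel' using 1
      change _ + C (F' 0) * ρ (algebraMap K (L ν K)) (v 0) + _ = _
      ring)
    have h2 : d 0 + n = N := hn'
    omega
  · have h1 := key 0 2 (by decide) (by decide) (by decide) (by omega) hrel'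
    have h2 : d 1 + n = N := hn'
    omega
  · have h1 := key 0 1 (by decide) (by decide) (by decide) h01 (by
      convert hrel' using 1
      change _ + C (F' 2) * ρ (algebraMap K (L ν K)) (v 2) + _ = _
      ring)
    have h2 : d 2 + n = N := hn'
    omega

end Pool.Agent.H868.TS
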