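import Pool.Agent.H868.TS.G
import Pool.Agent.H868.Q5.Kern

/-!
The syzygy is trivial; the generic kernel vector; the good linear forms.
-/

namespace Pool.Agent.H868.TS

set_option maxHeartbeats 400000
set_option linter.unusedSectionVars false

open MvPolynomial
open Pool.Agent.W515.SLP (Deg AnnP annP_of_homog annP_of_gt)
open Pool.Agent.W695.SLP (exists_complement)
open Pool.Agent.TH61.SL (hc comp_mul hc_zero hc_hom comp_self comp_ne)
open H503R3.QCI (Homog NZD Reg homog_span)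
open TH130CI (gor mem_gor SRegOn sreg_of_reg surj_of_inj)
open Pool.Agent.H868.Q5 (exists_kernel)

universe u

variable {ν : ℕ}

section syz

variable {K : Type u} [Field K]

/-- the sequence `(F 0, F 1, F 2)` is regular modulo `P`, in any order -/
def RegMod (P : Ideal (Rv ν K)) (F : Fin 3 → Rv ν K) : Prop :=
  ∀ a b c : Fin 3, a ≠ b → a ≠ c → b ≠ c → NZD P (F a) ∧
      NZD (P ⊔ Ideal.span {F a}) (F c) ∧ NZD (P ⊔ Ideal.span {F a} ⊔ Ideal.span {F c}) (F b)

/-- consequences -/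
structure RP (F : Fin 3 → Rv ν K) (P : Ideal (Rv ν K)) : Prop where
  n0 : ∀ Y, C (F 0) * Y ∈ JJ P → Y ∈ JJ P
  n1 : ∀ Y, C (F 1) * Y ∈ JJ P → Y ∈ JJ P
  n01 : ∀ Y Z, C (F 1) * Y - C (F 0) * Z ∈ JJ P →
      ∃ ω, Y - C (F 0) * ω ∈ JJ P
  sat : Sat P

/-- an ideal with a homogeneous nonzerodivisor of positive degree is saturated -/
lemma sat_of_nzd [CharZero K] {Q : Ideal (Rv ν K)} {g : Rv ν K} {b : ℕ} (hg : g.IsHomogeneous b)
    (hb : 1 ≤ b) (h : ∀ s, g * s ∈ Q → s ∈ Q) : Sat Q := by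
  intro s hs
  apply h
  have h1 := hg.sum_X_mul_pderiv
  have h2 : (b : Rv ν K) * (g * s) ∈ Q := by
    have h3 : (b : Rv ν K) * (g * s) = ∑ j, pderiv j g * (X j * s) := by
      rw [nsmul_eq_mul] at h1
      rw [← mul_assoc, ← h1, Finset.sum_mul]
      exact Finset.sum_congr rfl fun j _ => by ring
    rw [h3]
    exact Ideal.sum_mem _ fun j _ => Ideal.mul_mem_left _ _ (hs j)
  have hb0 : (b : K) ≠ 0 := Nat.cast_ne_zero.2 (by omega)
  have h4 : g * s = C ((b : K)⁻¹) * ((b : Rv ν K) * (g * s)) := by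
    have h5 : (b : Rv ν K) = C (b : K) := (map_natCast C _).symm
    have h6 : (C ((b : K)⁻¹) : Rv ν K) * C (b : K) = 1 := by
      rw [← C_mul, inv_mul_cancel₀ hb0, C_1]
    rw [h5]
    linear_combination (-(g * s)) * h6
  rw [h4]
  exact Ideal.mul_mem_left _ _ h2

lemma rp_of_reg [CharZero K] {P : Ideal (Rv ν K)} {F : Fin 3 → Rv ν K} {d : Fin 3 → ℕ}
    (hF : ∀ a, (F a).IsHomogeneous (d a)) (hd : ∀ a, 1 ≤ d a) (hn : RegMod P F) : RP F P := by
  obtain ⟨k0, k01, k2⟩ := hn 0 2 1 (by decide) (by decide) (by decide)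
  obtain ⟨k1, k21, -⟩ := hn 1 0 2 (by decide) (by decide) (by decide)
  have sat1 : Sat (P ⊔ Ideal.span {F 0}) := sat_of_nzd (hF 1) (hd 1) k01
  have sat2 : Sat (P ⊔ Ideal.span {F 1}) := sat_of_nzd (hF 2) (hd 2) k21
  have sat3 : Sat (P ⊔ Ideal.span {F 0} ⊔ Ideal.span {F 1}) :=
    sat_of_nzd (hF 2) (hd 2) k2
  refine ⟨fun Y hY => JJ_nzd k0 sat1 hY, fun Y hY => JJ_nzd k1 sat2 hY, ?_,
    sat_of_nzd (hF 0) (hd 0) k0⟩
  intro Y Z h
  apply JJ_sup
  apply JJ_nzd (P := P ⊔ Ideal.span {F 0}) k01 sat3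
  have h1 : C (F 1) * Y = (C (F 1) * Y - C (F 0) * Z) + C (F 0) * Z := by ring
  rw [h1]
  refine (JJ _).add_mem (JJ_mono le_sup_left h) (JJ_of_inI fun m => ?_)
  rw [coeff_C_mul]
  exact Ideal.mul_mem_right _ _ (Ideal.mem_sup_right (Ideal.mem_span_singleton_self _))

variable {m : ℕ} {f : Fin m → Rv ν K} {e : Fin m → ℕ} {P : Ideal (Rv ν K)} {F : Fin 3 → Rv ν K}
  {d : Fin 3 → ℕ} {N r : ℕ} {v : Fin 3 → RTv ν K}

/-- **the syzygy vanishes** -/
theorem all_main [CharZero K] (hν : 4 ≤ ν) (hm : m + 2 < ν)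
    (hf : ∀ j, (f j).IsHomogeneous (e j)) (he : ∀ j, 1 ≤ e j) (hregf : Reg f)
    (hPf : P = Ideal.span (Set.range f)) (hP : P.IsPrime)
    (hP1 : ∀ p ∈ P, p.IsHomogeneous 1 → p = 0)
    (hF : ∀ a, (F a).IsHomogeneous (d a)) (hd : ∀ a, 1 ≤ d a)
    (hn : RegMod P F) (h01 : d 0 ≤ d 1) (h12 : d 1 ≤ d 2) (hN : N < d 0 + d 1)
    (hN2 : 2 * N + 1 ≤ d 0 + d 1 + d 2) (hv : ∀ a, DX (d a) N (v a))
    (hvt : ∀ a, (v a).IsHomogeneous r)
    (hrel : C (F 0) * v 0 + C (F 1) * v 1 + C (F 2) * v 2 ∈ JJ P) (j : Fin 3) :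
    v j ∈ JJ P := by
  have hRP := rp_of_reg hF hd hn
  have hPh : Homog P := by
    rw [hPf]
    exact homog_span (by rintro _ ⟨j, rfl⟩; exact ⟨e j, hf j⟩)
  have hO : ∀ j k c, Om v j k c ∈ JJ P := by
    by_cases h : 2 * N + 1 = d 0 + d 1 + d 2
    · exact omega_zero hν hPh hP1 hF hRP.n0 hRP.n1 hRP.n01 hrel hv h
    · exact omega_zero_small hPh hF hRP.n0 hRP.n1 hRP.n01 hrel
        (s := d 0 + d 1 + d 2 - (2 * N + 1)) hv (by omega) (by omega)
  exact irr_main hm hf he hregf hPf hP hF hd hn h01 h12 hN hv hvt hrel hO j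

/-- the syzygy is trivial modulo the generic linear form -/
theorem syz_trivial [CharZero K] (hν : 4 ≤ ν) (hm : m + 2 < ν)
    (hf : ∀ j, (f j).IsHomogeneous (e j)) (he : ∀ j, 1 ≤ e j) (hregf : Reg f)
    (hPf : P = Ideal.span (Set.range f)) (hP : P.IsPrime)
    (hP1 : ∀ p ∈ P, p.IsHomogeneous 1 → p = 0)
    (hF : ∀ a, (F a).IsHomogeneous (d a)) (hd : ∀ a, 1 ≤ d a)
    (hn : RegMod P F) (h01 : d 0 ≤ d 1) (h12 : d 1 ≤ d 2)
    (hN2 : 2 * N + 1 ≤ d 0 + d 1 + d 2) (hv : ∀ a, DX (d a) N (v a))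
    (hvt : ∀ a, (v a).IsHomogeneous r)
    (hrel : C (F 0) * v 0 + C (F 1) * v 1 + C (F 2) * v 2 ∈ JJ P) :
    ∃ s : Fin 3 → RTv ν K, InI P
      ((C (F 0) * v 0 + C (F 1) * v 1 + C (F 2) * v 2)
        - gl ν K * (C (F 0) * s 0 + C (F 1) * s 1 + C (F 2) * s 2)) := by
  classical
  by_cases hN : N < d 0 + d 1
  · have h1 : ∀ j, ∃ s : RTv ν K, InI P (v j - gl ν K * s) := fun j =>
      mem_JJ.1 (all_main hν hm hf he hregf hPf hP hP1 hF hd hn h01 h12 hN hN2 hv hvt hrel j)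
    choose s hs using h1
    refine ⟨s, ?_⟩
    have h2 : (C (F 0) * v 0 + C (F 1) * v 1 + C (F 2) * v 2)
        - gl ν K * (C (F 0) * s 0 + C (F 1) * s 1 + C (F 2) * s 2)
        = C (F 0) * (v 0 - gl ν K * s 0) + C (F 1) * (v 1 - gl ν K * s 1)
          + C (F 2) * (v 2 - gl ν K * s 2) := by ring
    rw [h2]
    exact (((hs 0).mul_left _).add ((hs 1).mul_left _)).add ((hs 2).mul_left _)
  · have hRP := rp_of_reg hF hd hn
    have hv2 : v 2 = 0 := by
      rcases hv 2 with h0 | ⟨n, hn, -⟩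
      · exact h0
      · omega
    have hrel2 : C (F 1) * v 1 - C (F 0) * (-v 0) ∈ JJ P := by
      rw [hv2] at hrel
      convert hrel using 1
      ring
    obtain ⟨ω, hω⟩ := hRP.n01 _ _ hrel2
    have h0 : v 0 + C (F 1) * ω ∈ JJ P := by
      apply hRP.n0
      have h3 := (JJ P).sub_mem hrel2
        ((JJ P).mul_mem_left (C (F 1)) hω)
      convert h3 using 1
      ring
    obtain ⟨s1, h1⟩ := mem_JJ.1 hω
    obtain ⟨s0, h2⟩ := mem_JJ.1 h0
    refine ⟨![s0, s1, 0], ?_⟩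
    have e0 : (![s0, s1, 0] : Fin 3 → RTv ν K) 0 = s0 := rfl
    have e1 : (![s0, s1, 0] : Fin 3 → RTv ν K) 1 = s1 := rfl
    have e2 : (![s0, s1, 0] : Fin 3 → RTv ν K) 2 = 0 := rfl
    rw [e0, e1, e2, hv2]
    have h3 : (C (F 0) * v 0 + C (F 1) * v 1 + C (F 2) * 0)
        - gl ν K * (C (F 0) * s0 + C (F 1) * s1 + C (F 2) * 0)
        = C (F 0) * (v 0 + C (F 1) * ω - gl ν K * s0) + C (F 1) * (v 1 - C (F 0) * ω - gl ν K * s1) := by
      ring
    rw [h3]
    exact (h2.mul_left _).add (h1.mul_left _)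

end syz

section kern

variable {K : Type*} [Field K]

lemma comp_left {g : Rv ν K} {N : ℕ} (hg : g.IsHomogeneous N) (c : Rv ν K) (j : ℕ) :
    homogeneousComponent (N + j) (g * c) = g * homogeneousComponent j c := by
  rw [mul_comm, comp_mul hg, hc, if_pos (by omega), Nat.add_sub_cancel_left, mul_comm]

/-- homogeneous components of kernel vectors are kernel vectors -/
lemma comp_mulVec' {r s : ℕ} (G : Matrix (Fin s) (Fin r) (Rv ν K)) {N : ℕ}
    (hG : ∀ p q, (G p q).IsHomogeneous N) (c : Fin r → Rv ν K) (hc : G.mulVec c = 0) (j : ℕ) :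
    G.mulVec (fun q => homogeneousComponent j (c q)) = 0 := by
  ext1 p
  have h := congrFun hc p
  rw [Matrix.mulVec, dotProduct, Pi.zero_apply] at h ⊢
  have h1 : homogeneousComponent (N + j) (∑ q, G p q * c q)
      = ∑ q, G p q * homogeneousComponent j (c q) := by
    rw [map_sum]
    exact Finset.sum_congr rfl fun q _ => comp_left (hG p q) _ _
  rw [← h1, h, map_zero]

/-- **the generic kernel vector** -/
theorem kern [CharZero K] {φ : Rv ν K →ₗ[K] K} {D n : ℕ} (hφ : Deg φ D) (hn : n + 1 ≤ D)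
    (hbad : ∀ t : Fin ν → K, ∃ u : Rv ν K, u.IsHomogeneous n ∧ AnnP φ (lf t * u) ∧ ¬ AnnP φ u) :
    ∃ (d : ℕ) (u : RTv ν K), u.IsHomogeneous d ∧ XH n u ∧ InI (gor φ) (gl ν K * u) ∧
      ¬ InI (gor φ) u := by
  classical
  have hinf : Infinite K := inferInstance
  have hfin : FiniteDimensional K (H ν K n) :=
    Module.Finite.iff_fg.2 (homogeneousSubmodule_fg _ _ n)
  have hfin' : FiniteDimensional K (H ν K (D - n - 1)) :=
    Module.Finite.iff_fg.2 (homogeneousSubmodule_fg _ _ (D - n - 1))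
  obtain ⟨r, e', hdec', hdual'⟩ := exists_complement (Bp φ n (D - n))
  set bb := Module.finBasis K (H ν K (D - n - 1)) with hbb
  set s := Module.finrank K (H ν K (D - n - 1)) with hs
  set e : Fin r → Rv ν K := fun p => (e' p : H ν K n) with he
  have heh : ∀ p, (e p).IsHomogeneous n := fun p => (e' p).2
  set w : Fin s → Rv ν K := fun p => (bb p : H ν K (D - n - 1)) with hw
  have hwh : ∀ p, (w p).IsHomogeneous (D - n - 1) := fun p => (bb p).2
  have hwspan : ∀ v : Rv ν K, v.IsHomogeneous (D - n - 1) → ∃ c : Fin s → K,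
      v = ∑ p, c p • w p := by
    intro v hv
    refine ⟨fun p => bb.repr ⟨v, hv⟩ p, ?_⟩
    have h4 := bb.sum_repr ⟨v, hv⟩
    have h5 := congrArg (fun z : H ν K (D - n - 1) => (z : Rv ν K)) h4
    simp only [AddSubmonoidClass.coe_finsetSum, Submodule.coe_smul] at h5
    exact h5.symm
  have hdec : ∀ u : Rv ν K, u.IsHomogeneous n →
      ∃ m : Rv ν K, m.IsHomogeneous n ∧
        (∀ w : Rv ν K, w.IsHomogeneous (D - n) → φ (m * w) = 0) ∧
        ∃ c : Fin r → K, u = m + ∑ p, c p • e p := by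
    intro u hu
    obtain ⟨m, hm, c, hc⟩ := hdec' ⟨u, hu⟩
    refine ⟨m, m.2, fun w hw => ?_, c, ?_⟩
    · have := congrArg (fun f => f ⟨w, hw⟩) (LinearMap.mem_ker.mp hm)
      simpa using this
    · have h5 := congrArg (fun z : H ν K n => (z : Rv ν K)) hc
      simpa using h5
  have hdual : ∀ p, ∃ w : Rv ν K, w.IsHomogeneous (D - n) ∧
      ∀ q, φ (e q * w) = if q = p then 1 else 0 := by
    intro p
    obtain ⟨w, hw⟩ := hdual' p
    exact ⟨w, w.2, hw⟩
  choose wd hwd hwd' using hdual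
  set M : Matrix (Fin s) (Fin r) (Rv ν K) := fun j p => Ph φ (gl ν K * C (e p * w j)) with hM
  have hMh : ∀ j p, (M j p).IsHomogeneous 1 := by
    intro j p
    apply Ph_hom
    have := (gl_hom (K := K)).mul (isHomogeneous_C (Fin ν) (e p * w j))
    rwa [add_zero] at this
  have hpt : ∀ t : Fin ν → K, ∃ c : Fin r → K, c ≠ 0 ∧ (M.map (eval t)).mulVec c = 0 := by
    intro t
    obtain ⟨u, hu, hul, hnA⟩ := hbad t
    obtain ⟨m, hm, hmw, c, hc⟩ := hdec u hu
    refine ⟨c, ?_, ?_⟩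
    · intro h
      apply hnA
      apply annP_of_homog hφ (by omega) hu
      intro v hv
      rw [hc, h]
      simpa using hmw v hv
    · funext j
      rw [Matrix.mulVec, dotProduct, Pi.zero_apply]
      have h6 := hul (w j)
      rw [hc, mul_add, add_mul, map_add] at h6
      have h7 : φ (lf t * m * w j) = 0 := by
        have h8 : lf t * m * w j = m * (lf t * w j) := by ring
        rw [h8]
        apply hmw
        have h9 := (lf_hom t).mul (hwh j)
        have h10 : 1 + (D - n - 1) = D - n := by omega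
        rwa [h10] at h9
      rw [h7, zero_add, Finset.mul_sum, Finset.sum_mul, map_sum] at h6
      rw [← h6]
      refine Finset.sum_congr rfl fun q _ => ?_
      rw [mul_smul_comm, smul_mul_assoc, map_smul, smul_eq_mul, Matrix.map_apply, hM, eval_Ph,
        map_mul, evt_gl, evt_C, mul_comm]
      congr 2
      ring
  obtain ⟨c, hc0, hc⟩ := exists_kernel M hpt
  obtain ⟨p, hp⟩ := Function.ne_iff.mp hc0
  obtain ⟨d, hd⟩ : ∃ j, homogeneousComponent j (c p) ≠ 0 := by
    by_contra hcon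
    push Not at hcon
    apply hp
    rw [Pi.zero_apply, ← sum_homogeneousComponent (c p)]
    exact Finset.sum_eq_zero fun j _ => hcon j
  set c' : Fin r → Rv ν K := fun q => homogeneousComponent d (c q) with hc'
  have hc'h : ∀ q, (c' q).IsHomogeneous d := fun q => homogeneousComponent_isHomogeneous d _
  have hc'0 : M.mulVec c' = 0 := comp_mulVec' M hMh c hc d
  have hc'p : c' p ≠ 0 := hd
  set u : RTv ν K := ∑ q, tt (c' q) * C (e q) with hu
  have huh : u.IsHomogeneous d := by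
    refine IsHomogeneous.sum _ _ _ fun q _ => ?_
    have := ((hc'h q).map (C : K →+* Rv ν K)).mul (isHomogeneous_C (Fin ν) (e q))
    rwa [add_zero] at this
  have hux : XH n u := by
    have : BH u n := by
      refine BH.sum _ _ fun q _ => ?_
      have := (BH_tt (c' q)).mul (BH_C (heh q))
      rwa [zero_add] at this
    exact this
  refine ⟨d, u, huh, hux, ?_, ?_⟩
  · intro m
    rw [mem_gor]
    have h1 : (coeff m (gl ν K * u)).IsHomogeneous (1 + n) := (XH.gl.mul hux) m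
    apply annP_of_homog hφ (by omega) h1
    intro v hv
    rw [show D - (1 + n) = D - n - 1 by omega] at hv
    obtain ⟨a, ha⟩ := hwspan v hv
    rw [ha, Finset.mul_sum, map_sum]
    refine Finset.sum_eq_zero fun j _ => ?_
    rw [mul_smul_comm, map_smul]
    have h2 := congrFun hc'0 j
    rw [Matrix.mulVec, dotProduct, Pi.zero_apply] at h2
    have h3 : Ph φ (gl ν K * u * C (w j)) = 0 := by
      rw [← h2, hu, Finset.mul_sum, Finset.sum_mul, Ph_sum]
      refine Finset.sum_congr rfl fun q _ => ?_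
      have h4 : gl ν K * (tt (c' q) * C (e q)) * C (w j) = tt (c' q) * (gl ν K * C (e q * w j)) := by
        rw [C_mul]
        ring
      rw [h4, Ph_tt_mul, hM, mul_comm]
    have h5 := congrArg (coeff m) h3
    rw [coeff_Ph, coeff_zero, mul_comm _ (C (w j)), coeff_C_mul, mul_comm] at h5
    rw [h5, smul_zero]
  · intro hI
    obtain ⟨t, ht⟩ : ∃ t, eval t (c' p) ≠ 0 := by
      by_contra hcon
      push Not at hcon
      apply hc'p
      apply MvPolynomial.funext
      intro t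
      rw [hcon t, map_zero]
    apply ht
    have h1 := mem_gor.1 (hI.evt t) (wd p)
    rw [hu, map_sum, Finset.sum_mul, map_sum, Finset.sum_eq_single p] at h1
    · rw [(evt t).map_mul, evt_tt, evt_C, mul_assoc, ← smul_eq_C_mul, map_smul, hwd' p p,
        if_pos rfl, smul_eq_mul, mul_one] at h1
      exact h1
    · intro q _ hq
      rw [(evt t).map_mul, evt_tt, evt_C, mul_assoc, ← smul_eq_C_mul, map_smul, hwd' p q,
        if_neg hq, smul_zero]
    · intro h
      exact absurd (Finset.mem_univ p) h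


end kern

section core

variable {K : Type u} [Field K]

/-- forms in the ideal `(P, F)` -/
lemma mem_q4 {P : Ideal (Rv ν K)} (hPh : Homog P) {p : Rv ν K} {F : Fin 3 → Rv ν K} {d : Fin 3 → ℕ} {n : ℕ}
    (hF : ∀ a, (F a).IsHomogeneous (d a)) (hp : p.IsHomogeneous n)
    (hmem : p ∈ P ⊔ Ideal.span (Set.range F)) :
    ∃ x : Fin 3 → Rv ν K, (∀ a, (x a).IsHomogeneous (n - d a)) ∧ (∀ a, n < d a → x a = 0) ∧
      p + (F 0 * x 0 + F 1 * x 1 + F 2 * x 2) ∈ P := by
  obtain ⟨π, hπ, y, hy, hpy⟩ := Submodule.mem_sup.1 hmem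
  obtain ⟨c, hc'⟩ := (Ideal.mem_span_range_iff_exists_fun).1 hy
  rw [Fin.sum_univ_three] at hc'
  have h3 := congrArg (homogeneousComponent n) hpy
  rw [← hc', map_add, map_add, map_add, comp_mul (hF 0), comp_mul (hF 1), comp_mul (hF 2),
    comp_self hp] at h3
  refine ⟨fun a => -hc (d a) n (c a), fun a => (hc_hom _).neg, fun a h => by
    change -hc _ _ _ = 0
    rw [hc_zero h, neg_zero], ?_⟩
  rw [← h3]
  have h4 := hPh π hπ n
  convert h4 using 1
  ring

/-- the cofactors of the generic kernel vector -/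
lemma exists_v {P : Ideal (Rv ν K)} (hPh : Homog P) {F : Fin 3 → Rv ν K} {d : Fin 3 → ℕ} {N r : ℕ}
    (hF : ∀ a, (F a).IsHomogeneous (d a)) {Q : RTv ν K} (hPx : XH N Q) (hPt : Q.IsHomogeneous r)
    (hP : InI (P ⊔ Ideal.span (Set.range F)) Q) :
    ∃ v : Fin 3 → RTv ν K, (∀ a, DX (d a) N (v a)) ∧ (∀ a, (v a).IsHomogeneous r) ∧
      InI P (Q + (C (F 0) * v 0 + C (F 1) * v 1 + C (F 2) * v 2)) := by
  classical
  have h1 : ∀ m, ∃ x : Fin 3 → Rv ν K, (∀ a, (x a).IsHomogeneous (N - d a)) ∧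
      (∀ a, N < d a → x a = 0) ∧
      coeff m Q + (F 0 * x 0 + F 1 * x 1 + F 2 * x 2) ∈ P := fun m =>
    mem_q4 hPh hF (hPx m) (hP m)
  choose x hx hx0 hxy using h1
  have h2 : ∀ a, ∃ A : RTv ν K, ∀ m, coeff m A = if m ∈ Q.support then x m a else 0 := fun a =>
    exists_coeff Q.support fun m => x m a
  choose v hv using h2
  refine ⟨v, ?_, ?_, ?_⟩
  · intro a
    by_cases h2 : N < d a
    · left
      ext1 m
      rw [hv, coeff_zero]
      split_ifs
      · exact hx0 m a h2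
      · rfl
    · right
      refine ⟨N - d a, by omega, fun m => ?_⟩
      rw [hv]
      split_ifs
      · exact hx m a
      · exact isHomogeneous_zero _ _ _
  · intro a m hm
    rw [hv] at hm
    split_ifs at hm with h1
    · exact hPt (mem_support_iff.1 h1)
    · exact absurd rfl hm
  · intro m
    simp only [coeff_add, coeff_C_mul, hv]
    split_ifs with h3
    · exact hxy m
    · rw [notMem_support_iff.1 h3]
      simp

variable {m : ℕ} {f : Fin m → Rv ν K} {e : Fin m → ℕ} {P : Ideal (Rv ν K)} {F : Fin 3 → Rv ν K}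
  {d : Fin 3 → ℕ} {n : ℕ}

/-- **the generic kernel vector vanishes** -/
theorem core [CharZero K] (hν : 4 ≤ ν) (hm : m + 2 < ν)
    (hf : ∀ j, (f j).IsHomogeneous (e j)) (he : ∀ j, 1 ≤ e j) (hregf : Reg f)
    (hPf : P = Ideal.span (Set.range f)) (hP : P.IsPrime)
    (hP1 : ∀ p ∈ P, p.IsHomogeneous 1 → p = 0)
    (hF : ∀ a, (F a).IsHomogeneous (d a)) (hd : ∀ a, 1 ≤ d a)
    (hn : RegMod P F) (h01 : d 0 ≤ d 1) (h12 : d 1 ≤ d 2)
    (hN : 2 * (n + 1) + 1 ≤ d 0 + d 1 + d 2) {φ : Rv ν K →ₗ[K] K} {D : ℕ} (hφ : Deg φ D)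
    (hnD : n + 1 ≤ D) (hI : P ⊔ Ideal.span (Set.range F) = gor φ) :
    ∃ p : Fin ν → K, ∀ u : Rv ν K, u.IsHomogeneous n → AnnP φ (lf p * u) → AnnP φ u := by
  classical
  by_contra hcon
  push Not at hcon
  obtain ⟨r, u, hut, hux, hker, hne⟩ := kern hφ hnD hcon
  rw [← hI] at hker hne
  set I := P ⊔ Ideal.span (Set.range F) with hIdef
  have hPh : Homog P := by
    rw [hPf]
    exact homog_span (by rintro _ ⟨j, rfl⟩; exact ⟨e j, hf j⟩)
  have hsat : Sat P := (rp_of_reg hF hd hn).sat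
  have hPx : XH (n + 1) (gl ν K * u) := (XH.gl.mul hux).cast (by omega)
  have hPt : (gl ν K * u).IsHomogeneous (1 + r) := gl_hom.mul hut
  obtain ⟨v, hv, hvt, hrel⟩ := exists_v hPh hF hPx hPt hker
  have hrel' : C (F 0) * v 0 + C (F 1) * v 1 + C (F 2) * v 2 ∈ JJ P := by
    rw [mem_JJ]
    refine ⟨-u, ?_⟩
    convert hrel using 1
    ring
  obtain ⟨s, hs⟩ := syz_trivial hν hm hf he hregf hPf hP hP1 hF hd hn h01 h12 (N := n + 1) hN hv
    hvt hrel'
  have h1 : InI P (gl ν K * (u + (C (F 0) * s 0 + C (F 1) * s 1 + C (F 2) * s 2))) := by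
    have h2 := hrel.sub hs
    convert h2 using 1
    ring
  have h2 := gl_nzd hsat h1
  have hmem : ∀ j : Fin 3, F j ∈ I := fun j =>
    Ideal.mem_sup_right (Ideal.subset_span ⟨j, rfl⟩)
  have hqI : P ≤ I := le_sup_left
  have hCF : ∀ {f : Rv ν K}, f ∈ I → ∀ Y : RTv ν K, InI I (C f * Y) := fun hf Y m => by
    rw [coeff_C_mul]
    exact Ideal.mul_mem_right _ _ hf
  apply hne
  have h4 := (inI_mono hqI h2).sub (((hCF (hmem 0) (s 0)).add (hCF (hmem 1) (s 1))).add
    (hCF (hmem 2) (s 2)))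
  convert h4 using 1
  change u = u + (C (F 0) * s 0 + C (F 1) * s 1 + C (F 2) * s 2)
    - (C (F 0) * s 0 + C (F 1) * s 1 + C (F 2) * s 2)
  ring

/-- the good linear forms without ordering of the degrees -/
theorem good_any [CharZero K] (hν : 4 ≤ ν) (hm : m + 2 < ν)
    (hf : ∀ j, (f j).IsHomogeneous (e j)) (he : ∀ j, 1 ≤ e j) (hregf : Reg f)
    (hPf : P = Ideal.span (Set.range f)) (hP : P.IsPrime)
    (hP1 : ∀ p ∈ P, p.IsHomogeneous 1 → p = 0)
    (hF : ∀ a, (F a).IsHomogeneous (d a)) (hd : ∀ a, 1 ≤ d a)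
    (hn : RegMod P F)
    (hN : 2 * (n + 1) + 1 ≤ d 0 + d 1 + d 2) {φ : Rv ν K →ₗ[K] K} {D : ℕ} (hφ : Deg φ D)
    (hnD : n + 1 ≤ D) (hI : P ⊔ Ideal.span (Set.range F) = gor φ) :
    ∃ p : Fin ν → K, ∀ u : Rv ν K, u.IsHomogeneous n → AnnP φ (lf p * u) → AnnP φ u := by
  classical
  set σ := Tuple.sort d with hσ
  have hmono : Monotone (d ∘ σ) := Tuple.monotone_sort d
  have hs : ∀ σ : Equiv.Perm (Fin 3), d (σ 0) + d (σ 1) + d (σ 2) = d 0 + d 1 + d 2 := by
    intro σ
    have h1 := Equiv.sum_comp σ d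
    rwa [Fin.sum_univ_three, Fin.sum_univ_three] at h1
  have hI' : P ⊔ Ideal.span (Set.range (F ∘ σ)) = gor φ := by
    rw [← hI, σ.surjective.range_comp]
  have hn' : RegMod P (F ∘ σ) := fun a b c hab hac hbc =>
    hn (σ a) (σ b) (σ c) (σ.injective.ne hab) (σ.injective.ne hac) (σ.injective.ne hbc)
  refine core hν hm hf he hregf hPf hP hP1 (F := F ∘ σ) (d := d ∘ σ)
    (fun a => hF _) (fun a => hd _) hn' (hmono (by decide)) (hmono (by decide)) ?_ hφ hnD hI'
  have h1 := hs σ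
  change 2 * (n + 1) + 1 ≤ d (σ 0) + d (σ 1) + d (σ 2)
  omega

end core

section maps

/-- an element killed by all forms of a given degree vanishes if the degree is not too large -/
lemma annP_of_mul {K : Type*} [Field K] [CharZero K] {φ : Rv ν K →ₗ[K] K} {D : ℕ} (hφ : Deg φ D) :
    ∀ (e j : ℕ) (u : Rv ν K), u.IsHomogeneous j → j + e ≤ D →
      (∀ w : Rv ν K, w.IsHomogeneous e → AnnP φ (w * u)) → AnnP φ u := by
  intro e
  induction e with
  | zero =>
    intro j u _ _ h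
    have := h 1 (isHomogeneous_one _ _)
    rwa [one_mul] at this
  | succ e ih =>
    intro j u hu hj h
    have h1 : ∀ k, AnnP φ (X k * u) := by
      intro k
      refine ih (j + 1) (X k * u) ?_ (by omega) fun w hw => ?_
      · have := (isHomogeneous_X K k).mul hu
        rwa [add_comm] at this
      · have := h (w * X k) (hw.mul (isHomogeneous_X K k))
        rwa [mul_assoc] at this
    apply annP_of_homog hφ (by omega) hu
    intro v hv
    have h2 := hv.sum_X_mul_pderiv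
    have h3 : (D - j) • φ (u * v) = 0 := by
      rw [← map_nsmul, ← mul_smul_comm, ← h2, Finset.mul_sum, map_sum]
      refine Finset.sum_eq_zero fun k _ => ?_
      have h4 := h1 k (pderiv k v)
      rw [← h4]
      congr 1
      ring
    rw [smul_eq_zero] at h3
    rcases h3 with h3 | h3
    · omega
    · exact h3

/-- injectivity in the lower degrees -/
lemma inj_low {K : Type*} [Field K] [CharZero K] {φ : Rv ν K →ₗ[K] K} {D i : ℕ} (hφ : Deg φ D)
    (hi : i ≤ D) {ℓ : Rv ν K} (h : ∀ u : Rv ν K, u.IsHomogeneous i → AnnP φ (ℓ * u) → AnnP φ u)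
    {j : ℕ} (hj : j ≤ i) {u : Rv ν K} (hu : u.IsHomogeneous j) (hℓ : AnnP φ (ℓ * u)) : AnnP φ u := by
  refine annP_of_mul hφ (i - j) j u hu (by omega) fun w hw => ?_
  apply h
  · have := hw.mul hu
    rwa [show i - j + j = i by omega] at this
  · have h1 : ℓ * (w * u) = w * (ℓ * u) := by ring
    rw [h1]
    exact hℓ.mul_left w

/-- all the maps from injectivity up to degree `n + 1` -/
lemma maps_of_inj {K : Type*} [Field K] {φ : Rv ν K →ₗ[K] K} {D n : ℕ} (hφ : Deg φ D)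
    {ℓ : Rv ν K} (hℓ : ℓ.IsHomogeneous 1)
    (h : ∀ j ≤ n, ∀ u : Rv ν K, u.IsHomogeneous j → AnnP φ (ℓ * u) → AnnP φ u) :
    (∀ i k : ℕ, i + k ≤ n + 1 → ∀ u : Rv ν K, u.IsHomogeneous i → AnnP φ (ℓ ^ k * u) →
      AnnP φ u) ∧
    (∀ i k : ℕ, D ≤ i + (n + 1) → ∀ v : Rv ν K, v.IsHomogeneous (i + k) →
      ∃ g : Rv ν K, g.IsHomogeneous i ∧ AnnP φ (v - ℓ ^ k * g)) := by
  have h1 : ∀ k i : ℕ, i + k ≤ n + 1 → ∀ u : Rv ν K, u.IsHomogeneous i →
      AnnP φ (ℓ ^ k * u) → AnnP φ u := by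
    intro k
    induction k with
    | zero => intro i _ u _ hu; rwa [pow_zero, one_mul] at hu
    | succ k ih =>
      intro i hik u hu hk
      apply ih i (by omega) u hu
      apply h (i + k) (by omega)
      · have := (hℓ.pow k).mul hu
        rwa [one_mul, add_comm] at this
      · rwa [← mul_assoc, ← pow_succ']
  refine ⟨fun i k hik u hu hk => h1 k i hik u hu hk, fun i k hik v hv => ?_⟩
  by_cases h2 : D < i + k
  · refine ⟨0, isHomogeneous_zero _ _ _, ?_⟩
    rw [mul_zero, sub_zero]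
    exact annP_of_gt hφ h2 hv
  · exact surj_of_inj hφ hℓ (by omega) (fun u hu hk => h1 k _ (by omega) u hu hk) hv

end maps

end Pool.Agent.H868.TS
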