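import Pool.Agent.H868.TS.Hh

/-!
Complete intersections in `m + 3` variables, the first `m` generators of which generate a prime ideal:
the maps below the middle.
-/

namespace Pool.Agent.H868.TS

set_option maxHeartbeats 400000
set_option linter.unusedSectionVars false

open MvPolynomial
open Pool.Agent.W515.SLP (Deg AnnP annP_of_homog annP_of_gt)
open Pool.Agent.TH61.SL (hc comp_mul hc_zero hc_hom comp_self comp_ne)
open H503R3.QCI (Homog NZD Reg homog_span)
open TH130CI (gor mem_gor SRegOn sreg_of_reg surj_of_inj ci_gor' span_insert')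

universe u

variable {K : Type u} [Field K] {m : ℕ}

variable (f : Fin (m + 3) → Rv (m + 3) K)

/-- the ideal of the first `m` generators -/
noncomputable def PP : Ideal (Rv (m + 3) K) := Ideal.span (f '' {j | (j : ℕ) < m})

/-- the first `m` indices -/
def ii (j : Fin m) : Fin (m + 3) := ⟨j, by omega⟩

/-- the last three indices -/
def kk (a : Fin 3) : Fin (m + 3) := ⟨m + a, by omega⟩

variable {f} {d : Fin (m + 3) → ℕ}

lemma PP_eq : PP f = Ideal.span (Set.range fun j : Fin m => f (ii j)) := by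
  rw [PP]
  congr 1
  ext x
  constructor
  · rintro ⟨j, hj, rfl⟩
    exact ⟨⟨j, hj⟩, rfl⟩
  · rintro ⟨j, rfl⟩
    exact ⟨ii j, j.2, rfl⟩

lemma index_cases (j : Fin (m + 3)) : (j : ℕ) < m ∨ ∃ a : Fin 3, j = kk a := by
  rcases Nat.lt_or_ge j m with h | h
  · exact Or.inl h
  · right
    have hj := j.2
    refine ⟨⟨j - m, by omega⟩, ?_⟩
    apply Fin.ext
    change (j : ℕ) = m + (j - m)
    omega

lemma I_eq : Ideal.span (Set.range f) = PP f ⊔ Ideal.span (Set.range fun a : Fin 3 => f (kk a)) := by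
  apply le_antisymm
  · rw [Ideal.span_le]
    rintro _ ⟨j, rfl⟩
    rcases index_cases j with h | ⟨a, rfl⟩
    · exact Ideal.mem_sup_left (Ideal.subset_span ⟨j, h, rfl⟩)
    · exact Ideal.mem_sup_right (Ideal.subset_span ⟨a, rfl⟩)
  · rw [sup_le_iff]
    constructor
    · exact Ideal.span_mono (Set.image_subset_range _ _)
    · rw [Ideal.span_le]
      rintro _ ⟨a, rfl⟩
      exact Ideal.subset_span ⟨_, rfl⟩

/-- no linear forms -/
lemma PP_one (hf : ∀ i, (f i).IsHomogeneous (d i)) (h2 : ∀ j : Fin m, 2 ≤ d (ii j))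
    (p : Rv (m + 3) K) (hp : p ∈ PP f) (hp1 : p.IsHomogeneous 1) : p = 0 := by
  rw [PP_eq] at hp
  obtain ⟨c, hc'⟩ := (Ideal.mem_span_range_iff_exists_fun).1 hp
  have h1 := congrArg (homogeneousComponent 1) hc'
  rw [comp_self hp1, map_sum] at h1
  rw [← h1]
  refine Finset.sum_eq_zero fun j _ => ?_
  rw [comp_mul (hf _), hc_zero (by have := h2 j; omega), zero_mul]

lemma reg_ii (hreg : Reg f) : Reg (fun j : Fin m => f (ii j)) := by
  intro i
  have h1 := hreg (ii i)
  have h2 : (fun j : Fin m => f (ii j)) '' {j | j < i} = f '' {j | j < ii i} := by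
    ext x
    constructor
    · rintro ⟨j, hj, rfl⟩
      refine ⟨ii j, ?_, rfl⟩
      change ((ii j : Fin (m + 3)) : ℕ) < (ii i : Fin (m + 3))
      exact hj
    · rintro ⟨j, hj, rfl⟩
      have hj' : (j : ℕ) < (i : ℕ) := hj
      have hi := i.2
      exact ⟨⟨j, by omega⟩, hj', rfl⟩
  rw [h2]
  exact h1

/-- the last three generators are a regular sequence modulo the first ones, in any order -/
lemma regMod (hf : ∀ i, (f i).IsHomogeneous (d i)) (hd : ∀ i, 1 ≤ d i) (hreg : Reg f) :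
    RegMod (PP f) (fun a : Fin 3 => f (kk a)) := by
  classical
  intro a b c hab hac hbc
  have hs := sreg_of_reg hf hd hreg
  obtain ⟨T, hT⟩ : ∃ T : Finset (Fin (m + 3)), T = Finset.univ.filter (fun j : Fin (m + 3) => (j : ℕ) < m) :=
    ⟨_, rfl⟩
  have hTP : Ideal.span (f '' (T : Set (Fin (m + 3)))) = PP f := by
    rw [PP, hT]
    congr 2
    ext j
    simp
  have h0 : ∀ a : Fin 3, kk a ∉ T := by
    intro a
    rw [hT, Finset.mem_filter]
    rintro ⟨-, h⟩
    change m + (a : ℕ) < m at h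
    omega
  have hkk : ∀ {a b : Fin 3}, a ≠ b → (kk a : Fin (m + 3)) ≠ kk b := by
    intro a b hab h
    apply hab
    have h1 := congrArg Fin.val h
    change m + (a : ℕ) = m + (b : ℕ) at h1
    exact Fin.ext (by omega)
  refine ⟨?_, ?_, ?_⟩
  · rw [← hTP]
    exact hs T (Finset.subset_univ _) (kk a) (Finset.mem_univ _) (h0 a)
  · have h2 := hs (insert (kk a) T) (Finset.subset_univ _) (kk c) (Finset.mem_univ _) (by
      rw [Finset.mem_insert, not_or]
      exact ⟨hkk hac.symm, h0 c⟩)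
    rwa [span_insert', hTP] at h2
  · have h2 := hs (insert (kk c) (insert (kk a) T)) (Finset.subset_univ _) (kk b)
      (Finset.mem_univ _) (by
      rw [Finset.mem_insert, Finset.mem_insert, not_or, not_or]
      exact ⟨hkk hbc, hkk hab.symm, h0 b⟩)
    rwa [span_insert', span_insert', hTP] at h2

lemma sum_d (hd : ∀ i, 1 ≤ d i) (h2 : ∀ j : Fin m, 2 ≤ d (ii j)) :
    m + (d (kk 0) + d (kk 1) + d (kk 2)) ≤ (∑ j, (d j - 1)) + 3 := by
  have h1 : ∑ j, (d j - 1) = ∑ j : Fin m, (d (ii j) - 1) + ((d (kk 0) - 1) + (d (kk 1) - 1)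
      + (d (kk 2) - 1)) := by
    rw [Fin.sum_univ_castSucc, Fin.sum_univ_castSucc, Fin.sum_univ_castSucc]
    have e0 : (Fin.castSucc (Fin.castSucc (Fin.last m)) : Fin (m + 3)) = kk 0 := rfl
    have e1 : (Fin.castSucc (Fin.last (m + 1)) : Fin (m + 3)) = kk 1 := rfl
    have e2 : (Fin.last (m + 2) : Fin (m + 3)) = kk 2 := rfl
    rw [e0, e1, e2, add_assoc, add_assoc, add_assoc]
    rfl
  have h3 : m ≤ ∑ j : Fin m, (d (ii j) - 1) := by
    have h4 : ∑ _j : Fin m, 1 ≤ ∑ j : Fin m, (d (ii j) - 1) :=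
      Finset.sum_le_sum fun j _ => by have := h2 j; omega
    rwa [Finset.sum_const, Finset.card_univ, Fintype.card_fin, smul_eq_mul, mul_one] at h4
  have := hd (kk 0)
  have := hd (kk 1)
  have := hd (kk 2)
  omega

/-- **main theorem** -/
theorem main [CharZero K] (hm : 1 ≤ m) (hf : ∀ i, (f i).IsHomogeneous (d i))
    (hd : ∀ i, 1 ≤ d i) (hreg : Reg f) (hP : (PP f).IsPrime)
    (h2 : ∀ j : Fin m, 2 ≤ d (ii j)) :
    ∃ ℓ : Rv (m + 3) K, ℓ.IsHomogeneous 1 ∧ ∀ i j : ℕ,
      (2 * (i + j) + 1 ≤ d (kk 0) + d (kk 1) + d (kk 2) → ∀ p : Rv (m + 3) K, p.IsHomogeneous i →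
        ℓ ^ j * p ∈ Ideal.span (Set.range f) → p ∈ Ideal.span (Set.range f)) ∧
      (2 * (∑ j, (d j - 1)) + 1 ≤ 2 * i + (d (kk 0) + d (kk 1) + d (kk 2)) →
        ∀ p : Rv (m + 3) K, p.IsHomogeneous (i + j) →
        ∃ r : Rv (m + 3) K, r.IsHomogeneous i ∧ p - ℓ ^ j * r ∈ Ideal.span (Set.range f)) := by
  classical
  obtain ⟨φ, hφ, hI⟩ := ci_gor' hf hd hreg
  have hsum := sum_d hd h2
  have hk0 := hd (kk 0)
  have hk1 := hd (kk 1)
  have hk2 := hd (kk 2)
  obtain ⟨n, hn⟩ : ∃ n, 2 * (n + 1) + 1 = d (kk 0) + d (kk 1) + d (kk 2) ∨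
      2 * (n + 1) + 2 = d (kk 0) + d (kk 1) + d (kk 2) := by
    refine ⟨(d (kk 0) + d (kk 1) + d (kk 2) - 3) / 2, ?_⟩
    omega
  obtain ⟨p, hp⟩ := good_any (ν := m + 3) (m := m) (f := fun j => f (ii j))
    (e := fun j => d (ii j)) (P := PP f) (F := fun a => f (kk a)) (d := fun a => d (kk a)) (n := n)
    (by omega) (by omega) (fun j => hf _) (fun j => hd _) (reg_ii hreg) PP_eq hP (PP_one hf h2)
    (fun a => hf _) (fun a => hd _) (regMod hf hd hreg) (by omega) hφ (by omega)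
    (by rw [← hI, I_eq])
  obtain ⟨h3, h4⟩ := maps_of_inj (n := n) hφ (lf_hom p) fun j hj u hu hm' =>
    inj_low hφ (by omega) hp hj hu hm'
  refine ⟨lf p, lf_hom p, fun i j => ⟨fun hij q hq hm' => ?_, fun hij q hq => ?_⟩⟩
  · rw [hI] at hm' ⊢
    exact h3 i j (by omega) q hq hm'
  · obtain ⟨r, hr, hm'⟩ := h4 i j (by omega) q hq
    refine ⟨r, hr, ?_⟩
    rw [hI]
    exact hm'

end Pool.Agent.H868.TS
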